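import Pool.Agent.Helper25.FM.Main
import Pool.Agent.LRP.Own

/-!
# Power savings in windows in terms of the height of the vector
-/

set_option autoImplicit false

namespace Pool.Agent.Helper25.FM

open Finset
open Pool.Agent.Helper29.TT (Fam PRI boxJ card_boxJ)
open Pool.Agent.LRP (height height_le card_small_height ev_low ev_rpow small_K two_le_T)

section Block

variable {J : Type} [Fintype J] [DecidableEq J] {t : ℕ → (J → ℤ) → ℝ} {A C : ℝ}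

lemma K2_nn (n : ℕ) {A : ℝ} (hA : 0 ≤ A) (C : ℝ) : 0 ≤ K2 n A C := by
  have hl : 0 < Real.log 2 := Real.log_pos (by norm_num)
  unfold K2
  positivity

open Classical in
/-- One block. -/
lemma blockP (ht : Fam t A C) {κ : ℝ} (hκ0 : 0 ≤ κ) (hκ : κ ≤ 1 / 2) {j B : ℕ} (hj : 1 ≤ j)
    (hB : 2 ^ (j + 1) ≤ B) :
    (((boxJ J B).filter fun a => ∃ T : ℕ, 2 ^ j ≤ T ∧ T ≤ 2 ^ (j + 1) ∧
      (T : ℝ) ^ (-κ) < |(∑ p ∈ PRI T, Real.log p * t p a) / T|).card : ℝ) ≤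
      K2 (Fintype.card J) A C * (2 * ((j : ℝ) + 1) ^ 4 *
        (((2 : ℝ) ^ j) ^ (-(1 - 2 * κ)) + 2 * (((2 : ℝ) ^ j) ^ (1 + 2 * κ) / B))) *
        (boxJ J B).card := by
  have hK2 : 0 ≤ K2 (Fintype.card J) A C := K2_nn _ ht.A_nonneg C
  have h2j : 2 ≤ 2 ^ j := by
    calc 2 = 2 ^ 1 := by norm_num
      _ ≤ 2 ^ j := Nat.pow_le_pow_right (by norm_num) hj
  obtain ⟨x, hx⟩ : ∃ x, x = (2 : ℝ) ^ j := ⟨_, rfl⟩
  have hx0 : 0 < x := by rw [hx]; positivity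
  have h1 := count2 ht (2 ^ j) (2 ^ (j + 1)) B h2j hB
    (ε := ((2 : ℝ) ^ (j + 1)) ^ (-κ)) (by positivity)
  have hsub : ((boxJ J B).filter fun a => ∃ T : ℕ, 2 ^ j ≤ T ∧ T ≤ 2 ^ (j + 1) ∧
      (T : ℝ) ^ (-κ) < |(∑ p ∈ PRI T, Real.log p * t p a) / T|) ⊆
      ((boxJ J B).filter fun a => ∃ T : ℕ, 2 ^ j ≤ T ∧ T ≤ 2 ^ (j + 1) ∧
      ((2 : ℝ) ^ (j + 1)) ^ (-κ) < |(∑ p ∈ PRI T, Real.log p * t p a) / T|) := by
    intro a ha
    obtain ⟨ha1, T, h2, h3, h4⟩ := Finset.mem_filter.1 ha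
    refine Finset.mem_filter.2 ⟨ha1, T, h2, h3, lt_of_le_of_lt ?_ h4⟩
    have hT0 : (0 : ℝ) < T := by exact_mod_cast (by omega : 0 < T)
    apply Real.rpow_le_rpow_of_nonpos hT0 _ (by linarith)
    exact_mod_cast h3
  refine (Nat.cast_le.2 (Finset.card_le_card hsub)).trans (h1.trans ?_)
  apply mul_le_mul_of_nonneg_right _ (Nat.cast_nonneg _)
  have hBR : (2 : ℝ) * x ≤ B := by
    rw [hx, ← pow_succ']
    exact_mod_cast hB
  have hB0 : (0 : ℝ) < B := by linarith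
  have hl2 : Real.log 2 ≤ 1 := by
    have := Real.log_two_lt_d9; linarith
  have hl20 : 0 ≤ Real.log 2 := Real.log_nonneg (by norm_num)
  have hj0 : (0 : ℝ) ≤ j := Nat.cast_nonneg j
  have h2 : Real.log ((2 ^ j : ℕ) : ℝ) ^ 4 / ((2 ^ j : ℕ) : ℝ) ≤ ((j : ℝ) + 1) ^ 4 / x := by
    push_cast
    rw [← hx]
    apply div_le_div_of_nonneg_right _ hx0.le
    rw [hx, Real.log_pow]
    exact pow_le_pow_left₀ (by positivity) (by nlinarith) 4
  have h3 : ((2 ^ (j + 1) : ℕ) : ℝ) * Real.log ((2 ^ (j + 1) : ℕ) : ℝ) ^ 4 / B ≤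
      2 * x * ((j : ℝ) + 1) ^ 4 / B := by
    push_cast
    apply div_le_div_of_nonneg_right _ hB0.le
    rw [pow_succ' (2 : ℝ) j, ← hx]
    apply mul_le_mul_of_nonneg_left _ (by positivity)
    rw [hx, ← pow_succ', Real.log_pow]
    push_cast
    exact pow_le_pow_left₀ (by positivity) (by nlinarith) 4
  have h4 : 1 / (((2 : ℝ) ^ (j + 1)) ^ (-κ)) ^ 2 ≤ 2 * x ^ (2 * κ) := by
    have e1 : 1 / (((2 : ℝ) ^ (j + 1)) ^ (-κ)) ^ 2 = (2 * x) ^ (2 * κ) := by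
      rw [pow_succ' (2 : ℝ) j, ← hx, ← Real.rpow_natCast _ 2, ← Real.rpow_mul (by positivity),
        one_div, ← Real.rpow_neg (by positivity)]
      congr 1
      push_cast
      ring
    rw [e1, Real.mul_rpow (by norm_num) hx0.le]
    apply mul_le_mul_of_nonneg_right _ (by positivity)
    calc (2 : ℝ) ^ (2 * κ) ≤ (2 : ℝ) ^ (1 : ℝ) :=
          Real.rpow_le_rpow_of_exponent_le (by norm_num) (by linarith)
      _ = 2 := Real.rpow_one 2
  have e2 : x ^ (2 * κ) * (1 / x) = x ^ (-(1 - 2 * κ)) := by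
    have : x ^ (-(1 - 2 * κ)) = x ^ (2 * κ) * x ^ (-(1 : ℝ)) := by
      rw [← Real.rpow_add hx0]
      congr 1
      ring
    rw [this, Real.rpow_neg_one, one_div]
  have e3 : x ^ (2 * κ) * x = x ^ (1 + 2 * κ) := by
    rw [Real.rpow_add hx0, Real.rpow_one, mul_comm]
  obtain ⟨E, hE⟩ : ∃ E, E = (((2 : ℝ) ^ (j + 1)) ^ (-κ)) ^ 2 := ⟨_, rfl⟩
  have hE0 : 0 < E := by rw [hE]; positivity
  rw [← hE] at h4 ⊢
  rw [← hx]
  calc K2 (Fintype.card J) A C / E * (Real.log ((2 ^ j : ℕ) : ℝ) ^ 4 / ((2 ^ j : ℕ) : ℝ) +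
        ((2 ^ (j + 1) : ℕ) : ℝ) * Real.log ((2 ^ (j + 1) : ℕ) : ℝ) ^ 4 / B) ≤
      K2 (Fintype.card J) A C / E * (((j : ℝ) + 1) ^ 4 / x + 2 * x * ((j : ℝ) + 1) ^ 4 / B) :=
        mul_le_mul_of_nonneg_left (add_le_add h2 h3) (by positivity)
    _ = (K2 (Fintype.card J) A C * (((j : ℝ) + 1) ^ 4 * (1 / x + 2 * x / B))) * (1 / E) := by
        field_simp
    _ ≤ (K2 (Fintype.card J) A C * (((j : ℝ) + 1) ^ 4 * (1 / x + 2 * x / B))) *
        (2 * x ^ (2 * κ)) := mul_le_mul_of_nonneg_left h4 (by positivity)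
    _ = K2 (Fintype.card J) A C * (2 * ((j : ℝ) + 1) ^ 4 *
        (x ^ (2 * κ) * (1 / x) + 2 * (x ^ (2 * κ) * x / B))) := by
        field_simp
    _ = _ := by rw [e2, e3]

end Block

section High

variable {J : Type} [Fintype J] [DecidableEq J] {t : ℕ → (J → ℤ) → ℝ} {A C : ℝ}

/-- A power of `B` beats a power of the logarithm. -/
lemma log_five {δ : ℝ} (hδ : 0 < δ) {B : ℕ} (hB : 2 ≤ B) :
    ((Nat.log 2 B : ℝ) + 1) ^ 5 * (B : ℝ) ^ (-(δ ^ 2 / 24)) ≤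
      (600 / δ ^ 2) ^ 5 * (B : ℝ) ^ (-(δ ^ 2 / 60)) := by
  have hB0 : (0 : ℝ) < B := by exact_mod_cast (by omega : 0 < B)
  have hB2 : (2 : ℝ) ≤ B := by exact_mod_cast hB
  have hl2 : (1 : ℝ) / 2 < Real.log 2 := by
    have := Real.log_two_gt_d9; linarith
  have hlB : Real.log 2 ≤ Real.log B := Real.log_le_log (by norm_num) hB2
  have h1 : (Nat.log 2 B : ℝ) * Real.log 2 ≤ Real.log B := by
    have h2 : ((2 : ℝ) ^ Nat.log 2 B) ≤ B := by exact_mod_cast Nat.pow_log_le_self 2 (by omega)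
    have h3 := Real.log_le_log (by positivity) h2
    rwa [Real.log_pow] at h3
  have h2 : (Nat.log 2 B : ℝ) + 1 ≤ 3 * Real.log B := by
    have h3 : (Nat.log 2 B : ℝ) / 2 ≤ Real.log B - (Nat.log 2 B : ℝ) * (Real.log 2 - 1 / 2) := by
      linarith
    have h4 : (Nat.log 2 B : ℝ) * (69 / 100) ≤ Real.log B := by
      refine le_trans ?_ h1
      apply mul_le_mul_of_nonneg_left _ (Nat.cast_nonneg _)
      have := Real.log_two_gt_d9; linarith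
    have h5 : (69 : ℝ) / 100 ≤ Real.log B := by
      have := Real.log_two_gt_d9; linarith
    linarith
  have h3 : Real.log B ≤ (B : ℝ) ^ (δ ^ 2 / 200) / (δ ^ 2 / 200) :=
    Real.log_le_rpow_div hB0.le (by positivity)
  have h4 : (Nat.log 2 B : ℝ) + 1 ≤ 600 / δ ^ 2 * (B : ℝ) ^ (δ ^ 2 / 200) := by
    refine h2.trans ?_
    calc 3 * Real.log B ≤ 3 * ((B : ℝ) ^ (δ ^ 2 / 200) / (δ ^ 2 / 200)) := by linarith
      _ = _ := by field_simp; ring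
  calc ((Nat.log 2 B : ℝ) + 1) ^ 5 * (B : ℝ) ^ (-(δ ^ 2 / 24)) ≤
      (600 / δ ^ 2 * (B : ℝ) ^ (δ ^ 2 / 200)) ^ 5 * (B : ℝ) ^ (-(δ ^ 2 / 24)) :=
        mul_le_mul_of_nonneg_right (pow_le_pow_left₀ (by positivity) h4 5) (by positivity)
    _ = _ := by
        rw [mul_pow, ← Real.rpow_natCast ((B : ℝ) ^ (δ ^ 2 / 200)) 5, ← Real.rpow_mul hB0.le,
          mul_assoc, ← Real.rpow_add hB0]
        congr 2
        push_cast
        ring

open Classical in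
/-- The high part of the window. -/
lemma highP (ht : Fam t A C) {κ δ : ℝ} (hκ0 : 0 ≤ κ) (hδ : 0 < δ) (hκδ : 2 * κ + δ < 1) {B : ℕ}
    (hB : 2 ≤ B) (hB2 : 2 ≤ (B : ℝ) ^ δ) (hB4 : 4 ≤ (B : ℝ) ^ (δ / 24)) :
    (((boxJ J B).filter fun a => ∃ T : ℕ, (B : ℝ) ^ (δ / 24) ≤ T ∧
      (T : ℝ) ≤ (B : ℝ) ^ ((1 - δ) / (1 + 2 * κ)) ∧
      (T : ℝ) ^ (-κ) < |(∑ p ∈ PRI T, Real.log p * t p a) / T|).card : ℝ) ≤
      K2 (Fintype.card J) A C * (8 * (600 / δ ^ 2) ^ 5) * (B : ℝ) ^ (-(δ ^ 2 / 60)) *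
        (boxJ J B).card := by
  have hK2 : 0 ≤ K2 (Fintype.card J) A C := K2_nn _ ht.A_nonneg C
  have hB0 : (0 : ℝ) < B := by exact_mod_cast (by omega : 0 < B)
  have hB1 : (1 : ℝ) ≤ B := by exact_mod_cast (by omega : 1 ≤ B)
  have hN : (0 : ℝ) ≤ (boxJ J B).card := Nat.cast_nonneg _
  have hδ1 : δ < 1 := by linarith
  have hκ2 : κ ≤ 1 / 2 := by linarith
  have hk1 : 0 < 1 + 2 * κ := by linarith
  have hβ1 : (1 - δ) / (1 + 2 * κ) ≤ 1 - δ := by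
    rw [div_le_iff₀ hk1]
    nlinarith
  have hsub : ((boxJ J B).filter fun a => ∃ T : ℕ, (B : ℝ) ^ (δ / 24) ≤ T ∧
      (T : ℝ) ≤ (B : ℝ) ^ ((1 - δ) / (1 + 2 * κ)) ∧
      (T : ℝ) ^ (-κ) < |(∑ p ∈ PRI T, Real.log p * t p a) / T|) ⊆
      ((Icc 1 (Nat.log 2 B)).filter fun j : ℕ => (B : ℝ) ^ (δ / 24) ≤ 2 * 2 ^ j ∧
        (2 : ℝ) ^ j ≤ (B : ℝ) ^ ((1 - δ) / (1 + 2 * κ))).biUnion fun j =>
      (boxJ J B).filter fun a => ∃ T : ℕ, 2 ^ j ≤ T ∧ T ≤ 2 ^ (j + 1) ∧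
        (T : ℝ) ^ (-κ) < |(∑ p ∈ PRI T, Real.log p * t p a) / T| := by
    intro a ha
    obtain ⟨ha1, T, h1, h2, h3⟩ := Finset.mem_filter.1 ha
    have hT4 : (4 : ℝ) ≤ T := hB4.trans h1
    have hT2 : 2 ≤ T := by
      have : (2 : ℝ) ≤ T := by linarith
      exact_mod_cast this
    have h4 : 2 ^ Nat.log 2 T ≤ T := Nat.pow_log_le_self 2 (by omega)
    have h5 : T < 2 ^ (Nat.log 2 T + 1) := Nat.lt_pow_succ_log_self (by norm_num) T
    have hTB : T ≤ B := by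
      have : (T : ℝ) ≤ B := by
        refine h2.trans ?_
        calc (B : ℝ) ^ ((1 - δ) / (1 + 2 * κ)) ≤ (B : ℝ) ^ (1 : ℝ) :=
              Real.rpow_le_rpow_of_exponent_le hB1 (by linarith)
          _ = B := Real.rpow_one _
      exact_mod_cast this
    rw [Finset.mem_biUnion]
    refine ⟨Nat.log 2 T, Finset.mem_filter.2 ⟨Finset.mem_Icc.2 ⟨Nat.log_pos (by norm_num) hT2,
      Nat.log_mono_right hTB⟩, ?_, ?_⟩, Finset.mem_filter.2 ⟨ha1, T, h4, h5.le, h3⟩⟩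
    · refine h1.trans ?_
      rw [← pow_succ']
      exact_mod_cast h5.le
    · refine le_trans ?_ h2
      exact_mod_cast h4
  have h1 : (((boxJ J B).filter fun a => ∃ T : ℕ, (B : ℝ) ^ (δ / 24) ≤ T ∧
      (T : ℝ) ≤ (B : ℝ) ^ ((1 - δ) / (1 + 2 * κ)) ∧
      (T : ℝ) ^ (-κ) < |(∑ p ∈ PRI T, Real.log p * t p a) / T|).card : ℝ) ≤
      ∑ j ∈ (Icc 1 (Nat.log 2 B)).filter fun j : ℕ => (B : ℝ) ^ (δ / 24) ≤ 2 * 2 ^ j ∧
        (2 : ℝ) ^ j ≤ (B : ℝ) ^ ((1 - δ) / (1 + 2 * κ)),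
      (((boxJ J B).filter fun a => ∃ T : ℕ, 2 ^ j ≤ T ∧ T ≤ 2 ^ (j + 1) ∧
        (T : ℝ) ^ (-κ) < |(∑ p ∈ PRI T, Real.log p * t p a) / T|).card : ℝ) := by
    have h2 := (Finset.card_le_card hsub).trans Finset.card_biUnion_le
    exact_mod_cast h2
  obtain ⟨ℓ, hℓ⟩ : ∃ ℓ, ℓ = Nat.log 2 B := ⟨_, rfl⟩
  have h2 : ∀ j ∈ (Icc 1 (Nat.log 2 B)).filter fun j : ℕ => (B : ℝ) ^ (δ / 24) ≤ 2 * 2 ^ j ∧
        (2 : ℝ) ^ j ≤ (B : ℝ) ^ ((1 - δ) / (1 + 2 * κ)),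
      (((boxJ J B).filter fun a => ∃ T : ℕ, 2 ^ j ≤ T ∧ T ≤ 2 ^ (j + 1) ∧
        (T : ℝ) ^ (-κ) < |(∑ p ∈ PRI T, Real.log p * t p a) / T|).card : ℝ) ≤
      K2 (Fintype.card J) A C * (8 * (((ℓ : ℝ) + 1) ^ 4 * (B : ℝ) ^ (-(δ ^ 2 / 24)))) *
        (boxJ J B).card := by
    intro j hj
    obtain ⟨h3, h4, h5⟩ := Finset.mem_filter.1 hj
    obtain ⟨h6, h7⟩ := Finset.mem_Icc.1 h3
    have hjB : 2 ^ (j + 1) ≤ B := by
      have : (2 : ℝ) ^ (j + 1) ≤ B := by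
        rw [pow_succ']
        calc 2 * (2 : ℝ) ^ j ≤ (B : ℝ) ^ δ * (B : ℝ) ^ (1 - δ) := by
              apply mul_le_mul hB2 _ (by positivity) (by positivity)
              exact h5.trans (Real.rpow_le_rpow_of_exponent_le hB1 hβ1)
          _ = B := by
              rw [← Real.rpow_add hB0]
              rw [show δ + (1 - δ) = 1 by ring, Real.rpow_one]
      exact_mod_cast this
    refine (blockP ht hκ0 hκ2 h6 hjB).trans ?_
    apply mul_le_mul_of_nonneg_right _ hN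
    apply mul_le_mul_of_nonneg_left _ hK2
    obtain ⟨x, hx⟩ : ∃ x, x = (2 : ℝ) ^ j := ⟨_, rfl⟩
    have hx0 : 0 < x := by rw [hx]; positivity
    rw [← hx] at h4 h5 ⊢
    have hj1 : ((j : ℝ) + 1) ^ 4 ≤ ((ℓ : ℝ) + 1) ^ 4 := by
      apply pow_le_pow_left₀ (by positivity)
      have : (j : ℝ) ≤ ℓ := by rw [hℓ]; exact_mod_cast h7
      linarith
    have hB24 : 0 < (B : ℝ) ^ (δ / 24) := Real.rpow_pos_of_pos hB0 _
    have e1 : x ^ (-(1 - 2 * κ)) ≤ 2 * (B : ℝ) ^ (-(δ ^ 2 / 24)) := by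
      calc x ^ (-(1 - 2 * κ)) ≤ ((B : ℝ) ^ (δ / 24) / 2) ^ (-(1 - 2 * κ)) :=
            Real.rpow_le_rpow_of_nonpos (by positivity) (by linarith) (by linarith)
        _ = 2 ^ (1 - 2 * κ) * (B : ℝ) ^ (δ / 24 * (-(1 - 2 * κ))) := by
            rw [Real.div_rpow hB24.le (by norm_num), div_eq_mul_inv,
              ← Real.rpow_neg (by norm_num : (0 : ℝ) ≤ 2), neg_neg, Real.rpow_mul hB0.le]
            ring
        _ ≤ 2 * (B : ℝ) ^ (-(δ ^ 2 / 24)) := by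
            apply mul_le_mul
            · calc (2 : ℝ) ^ (1 - 2 * κ) ≤ (2 : ℝ) ^ (1 : ℝ) :=
                    Real.rpow_le_rpow_of_exponent_le (by norm_num) (by linarith)
                _ = 2 := Real.rpow_one 2
            · apply Real.rpow_le_rpow_of_exponent_le hB1
              nlinarith
            · positivity
            · norm_num
    have e2 : x ^ (1 + 2 * κ) / B ≤ (B : ℝ) ^ (-(δ ^ 2 / 24)) := by
      have e3 : x ^ (1 + 2 * κ) ≤ (B : ℝ) ^ (1 - δ) := by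
        calc x ^ (1 + 2 * κ) ≤ ((B : ℝ) ^ ((1 - δ) / (1 + 2 * κ))) ^ (1 + 2 * κ) :=
              Real.rpow_le_rpow hx0.le h5 hk1.le
          _ = _ := by
              rw [← Real.rpow_mul hB0.le]
              congr 1
              field_simp
      calc x ^ (1 + 2 * κ) / B ≤ (B : ℝ) ^ (1 - δ) / B := div_le_div_of_nonneg_right e3 hB0.le
        _ = (B : ℝ) ^ (-δ) := by
            nth_rw 2 [← Real.rpow_one (B : ℝ)]
            rw [← Real.rpow_sub hB0]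
            congr 1
            ring
        _ ≤ _ := by
            apply Real.rpow_le_rpow_of_exponent_le hB1
            nlinarith
    calc 2 * ((j : ℝ) + 1) ^ 4 * (x ^ (-(1 - 2 * κ)) + 2 * (x ^ (1 + 2 * κ) / B)) ≤
        2 * ((ℓ : ℝ) + 1) ^ 4 * (2 * (B : ℝ) ^ (-(δ ^ 2 / 24)) + 2 * (B : ℝ) ^ (-(δ ^ 2 / 24))) := by
          apply mul_le_mul _ _ (by positivity) (by positivity)
          · linarith
          · linarith
      _ = _ := by ring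
  refine h1.trans ((Finset.sum_le_sum h2).trans ?_)
  rw [Finset.sum_const, nsmul_eq_mul]
  have h3 : ((((Icc 1 (Nat.log 2 B)).filter fun j : ℕ => (B : ℝ) ^ (δ / 24) ≤ 2 * 2 ^ j ∧
        (2 : ℝ) ^ j ≤ (B : ℝ) ^ ((1 - δ) / (1 + 2 * κ))).card : ℕ) : ℝ) ≤ (ℓ : ℝ) + 1 := by
    have h4 := Finset.card_filter_le (Icc 1 (Nat.log 2 B)) fun j : ℕ =>
      (B : ℝ) ^ (δ / 24) ≤ 2 * 2 ^ j ∧ (2 : ℝ) ^ j ≤ (B : ℝ) ^ ((1 - δ) / (1 + 2 * κ))
    rw [Nat.card_Icc, Nat.add_sub_cancel] at h4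
    have h5 : ((((Icc 1 (Nat.log 2 B)).filter fun j : ℕ => (B : ℝ) ^ (δ / 24) ≤ 2 * 2 ^ j ∧
        (2 : ℝ) ^ j ≤ (B : ℝ) ^ ((1 - δ) / (1 + 2 * κ))).card : ℕ) : ℝ) ≤ (ℓ : ℝ) := by
      rw [hℓ]
      exact_mod_cast h4
    linarith
  have h4 : 0 ≤ K2 (Fintype.card J) A C * (8 * (((ℓ : ℝ) + 1) ^ 4 * (B : ℝ) ^ (-(δ ^ 2 / 24)))) *
        (boxJ J B).card := by positivity
  refine (mul_le_mul_of_nonneg_right h3 h4).trans ?_
  have h5 := log_five hδ hB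
  rw [← hℓ] at h5
  calc ((ℓ : ℝ) + 1) * (K2 (Fintype.card J) A C * (8 * (((ℓ : ℝ) + 1) ^ 4 *
        (B : ℝ) ^ (-(δ ^ 2 / 24)))) * (boxJ J B).card) =
      K2 (Fintype.card J) A C * 8 * (boxJ J B).card *
        (((ℓ : ℝ) + 1) ^ 5 * (B : ℝ) ^ (-(δ ^ 2 / 24))) := by ring
    _ ≤ K2 (Fintype.card J) A C * 8 * (boxJ J B).card *
        ((600 / δ ^ 2) ^ 5 * (B : ℝ) ^ (-(δ ^ 2 / 60))) :=
        mul_le_mul_of_nonneg_left h5 (by positivity)
    _ = _ := by ring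

end High

section Own

variable {J : Type} [Fintype J] [DecidableEq J] {t : ℕ → (J → ℤ) → ℝ} {L : ℝ}

open Classical in
/-- The exceptional vectors; the window depends on the height of the vector. -/
noncomputable def XO (t : ℕ → (J → ℤ) → ℝ) (κ δ : ℝ) (B : ℕ) : Finset (J → ℤ) :=
  (boxJ J B).filter fun a => ∃ T : ℕ, Real.log (height a) ^ (1 / (1 - 2 * κ - δ)) ≤ T ∧
    (T : ℝ) ≤ (height a : ℝ) ^ ((1 - δ) / (1 + 2 * κ)) ∧
    (T : ℝ) ^ (-κ) < |(∑ p ∈ PRI T, Real.log p * t p a) / T|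

open Classical in
lemma XO_sub {κ δ : ℝ} (hκ0 : 0 ≤ κ) (hδ : 0 < δ) (hκδ : 2 * κ + δ < 1) {K : ℝ} {B : ℕ}
    (hB : 2 ≤ B) (hlow : ∀ T : ℕ, (Real.log B / 2) ^ (1 / (1 - 2 * κ - δ)) ≤ T → 2 ≤ T ∧ 2 ≤ T ∧
      Real.log B ≤ (T : ℝ) ^ (1 / (1 / (1 - 2 * κ - δ)) + δ / 4) ∧ K ≤ (T : ℝ) ^ (δ / 6)) :
    XO t κ δ B ⊆
      ((boxJ J B).filter fun a => height a ^ 2 < B) ∪
      ((boxJ J B).filter fun a => ∃ T : ℕ, (T : ℝ) ≤ (B : ℝ) ^ (δ / 24) ∧
        Real.log B ≤ (T : ℝ) ^ (1 - 2 * κ - δ / 2) ∧ K ≤ (T : ℝ) ^ (δ / 6) ∧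
        (T : ℝ) ^ (-κ) < |(∑ p ∈ PRI T, Real.log p * t p a) / T|) ∪
      ((boxJ J B).filter fun a => ∃ T : ℕ, (B : ℝ) ^ (δ / 24) ≤ T ∧
        (T : ℝ) ≤ (B : ℝ) ^ ((1 - δ) / (1 + 2 * κ)) ∧
        (T : ℝ) ^ (-κ) < |(∑ p ∈ PRI T, Real.log p * t p a) / T|) := by
  intro a ha
  unfold XO at ha
  obtain ⟨ha1, T, h1, h2, h3⟩ := Finset.mem_filter.1 ha
  have hB0 : (0 : ℝ) < B := by exact_mod_cast (by omega : 0 < B)
  have hB1 : (1 : ℝ) ≤ B := by exact_mod_cast (by omega : 1 ≤ B)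
  have hβ : 0 < (1 - δ) / (1 + 2 * κ) := div_pos (by linarith) (by linarith)
  by_cases hh : height a ^ 2 < B
  · exact Finset.mem_union_left _ (Finset.mem_union_left _ (Finset.mem_filter.2 ⟨ha1, hh⟩))
  push Not at hh
  have hhB : height a ≤ B := height_le.2 ha1
  have hhr : (B : ℝ) ≤ (height a : ℝ) ^ 2 := by exact_mod_cast hh
  by_cases hTs : (T : ℝ) ≤ (B : ℝ) ^ (δ / 24)
  · have h4 : (Real.log B / 2) ^ (1 / (1 - 2 * κ - δ)) ≤ T := by
      refine le_trans ?_ h1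
      apply Real.rpow_le_rpow
      · have := Real.log_nonneg hB1
        positivity
      · have h4 := Real.log_le_log hB0 hhr
        rw [Real.log_pow] at h4
        push_cast at h4
        linarith
      · have : 0 < 1 - 2 * κ - δ := by linarith
        positivity
    obtain ⟨g1, -, g3, g4⟩ := hlow T h4
    refine Finset.mem_union_left _ (Finset.mem_union_right _
      (Finset.mem_filter.2 ⟨ha1, T, hTs, g3.trans ?_, g4, h3⟩))
    apply Real.rpow_le_rpow_of_exponent_le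
    · exact_mod_cast (by omega : 1 ≤ T)
    · rw [one_div_one_div]
      linarith
  · push Not at hTs
    refine Finset.mem_union_right _ (Finset.mem_filter.2 ⟨ha1, T, hTs.le, h2.trans ?_, h3⟩)
    exact Real.rpow_le_rpow (Nat.cast_nonneg _) (by exact_mod_cast hhB) hβ.le

open Classical in
/-- The height of an exceptional vector is positive. -/
lemma height_pos_of_mem {κ δ : ℝ} (hκ0 : 0 ≤ κ) (hκδ : 2 * κ + δ < 1) {a : J → ℤ} {B : ℕ}
    (ha : a ∈ XO t κ δ B) : 0 < height a := by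
  unfold XO at ha
  obtain ⟨ha1, T, h1, h2, h3⟩ := Finset.mem_filter.1 ha
  by_contra h0
  have h4 : height a = 0 := by omega
  have hβ : 0 < (1 - δ) / (1 + 2 * κ) := div_pos (by linarith) (by linarith)
  rw [h4, Nat.cast_zero, Real.zero_rpow hβ.ne'] at h2
  have h5 := two_le_T h3
  have h6 : (2 : ℝ) ≤ T := by exact_mod_cast h5
  linarith

open Classical in
/-- The number of the exceptional vectors. -/
theorem count4 (n : ℕ) (L κ δ : ℝ) (hκ0 : 0 ≤ κ) (hδ : 0 < δ) (hκδ : 2 * κ + δ < 1) :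
    ∃ C : ℝ, ∀ (J : Type) [Fintype J] [DecidableEq J], Fintype.card J = n →
      ∀ t : ℕ → (J → ℤ) → ℝ, FamB t L → ∀ B : ℕ,
      ((XO t κ δ B).card : ℝ) ≤ C * (B : ℝ) ^ (-(δ ^ 2 / 60)) * (boxJ J B).card := by
  have hδ1 : δ < 1 := by linarith
  have hA : 1 ≤ 1 / (1 - 2 * κ - δ) := by
    rw [le_div_iff₀ (by linarith)]
    linarith
  obtain ⟨B₀, hB₀⟩ := Filter.eventually_atTop.1 ((ev_low hδ hA 2 (18 * (L ^ 2 + 1) / δ)).and
    ((ev_rpow hδ 2).and ((ev_rpow (by positivity : 0 < δ / 24) 4).and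
      (Filter.eventually_ge_atTop 2))))
  obtain ⟨C, hC⟩ : ∃ C, C = 2 + 8 ^ n * 2 + K2 n (L ^ 2) 0 * (8 * (600 / δ ^ 2) ^ 5) := ⟨_, rfl⟩
  have hK2 := K2_nn n (sq_nonneg L) 0
  have hC0 : 0 ≤ C := by rw [hC]; positivity
  refine ⟨C + B₀, ?_⟩
  intro J _ _ hJ t ht B
  have hN : (0 : ℝ) ≤ (boxJ J B).card := Nat.cast_nonneg _
  by_cases hB00 : B = 0
  · have : XO t κ δ B = ∅ := by
      rw [Finset.eq_empty_iff_forall_notMem]
      intro a ha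
      have h1 := height_pos_of_mem hκ0 hκδ ha
      have h2 : height a ≤ B := height_le.2 (Finset.mem_filter.1 ha).1
      omega
    rw [this, Finset.card_empty, Nat.cast_zero]
    positivity
  have hB : 1 ≤ B := by omega
  have hBr : (0 : ℝ) < B := by exact_mod_cast (by omega : 0 < B)
  have hBr1 : (1 : ℝ) ≤ B := by exact_mod_cast hB
  have hc1 : δ ^ 2 / 60 ≤ 1 := by nlinarith
  have hpow : 0 < (B : ℝ) ^ (-(δ ^ 2 / 60)) := Real.rpow_pos_of_pos hBr _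
  rcases isEmpty_or_nonempty J with he | he
  · have : XO t κ δ B = ∅ := by
      rw [Finset.eq_empty_iff_forall_notMem]
      intro a ha
      have h1 := height_pos_of_mem hκ0 hκδ ha
      have h2 : height a = 0 := by
        unfold height
        rw [Finset.univ_eq_empty, Finset.sup_empty]
        rfl
      omega
    rw [this, Finset.card_empty, Nat.cast_zero]
    positivity
  by_cases hBB : B < B₀
  · have h1 : ((XO t κ δ B).card : ℝ) ≤ (boxJ J B).card := by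
      unfold XO
      exact_mod_cast Finset.card_filter_le _ _
    refine h1.trans ?_
    have h2 : 1 ≤ (C + B₀) * (B : ℝ) ^ (-(δ ^ 2 / 60)) := by
      have h3 : (B : ℝ) ^ (-(1 : ℝ)) ≤ (B : ℝ) ^ (-(δ ^ 2 / 60)) :=
        Real.rpow_le_rpow_of_exponent_le hBr1 (by linarith)
      have h4 : (B : ℝ) ≤ C + B₀ := by
        have : (B : ℝ) ≤ B₀ := by exact_mod_cast hBB.le
        linarith
      calc (1 : ℝ) = B * (B : ℝ) ^ (-(1 : ℝ)) := by
            rw [Real.rpow_neg_one, mul_inv_cancel₀ hBr.ne']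
        _ ≤ (C + B₀) * (B : ℝ) ^ (-(δ ^ 2 / 60)) :=
            mul_le_mul h4 h3 (by positivity) (by positivity)
    calc ((boxJ J B).card : ℝ) = 1 * (boxJ J B).card := (one_mul _).symm
      _ ≤ _ := mul_le_mul_of_nonneg_right h2 hN
  push Not at hBB
  obtain ⟨hlow, hB2, hB4, hB2'⟩ := hB₀ B hBB
  have hsub := XO_sub (t := t) hκ0 hδ hκδ hB2' hlow
  have h0 : (((boxJ J B).filter fun a => height a ^ 2 < B).card : ℝ) ≤
      2 * (B : ℝ) ^ (-(δ ^ 2 / 60)) * (boxJ J B).card := by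
    refine (card_small_height (J := J) hB).trans ?_
    have h1 : (B : ℝ) ^ (-(1 / 2) : ℝ) ≤ (B : ℝ) ^ (-(δ ^ 2 / 60)) := by
      apply Real.rpow_le_rpow_of_exponent_le hBr1
      nlinarith
    apply mul_le_mul_of_nonneg_right _ hN
    linarith
  have h1 := small_K ht hB2' hδ hδ1.le (κ := κ) (α := 1 - 2 * κ - δ / 2) (by ring)
  rw [hJ] at h1
  have h1' : 8 ^ n * 2 * (B : ℝ) ^ (-(δ / 48)) * (boxJ J B).card ≤
      8 ^ n * 2 * (B : ℝ) ^ (-(δ ^ 2 / 60)) * (boxJ J B).card := by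
    apply mul_le_mul_of_nonneg_right _ hN
    apply mul_le_mul_of_nonneg_left _ (by positivity)
    apply Real.rpow_le_rpow_of_exponent_le hBr1
    nlinarith
  have h2 := highP ht.fam hκ0 hδ hκδ hB2' hB2 hB4
  rw [hJ] at h2
  have h3 := (Finset.card_le_card hsub).trans ((Finset.card_union_le _ _).trans
    (Nat.add_le_add_right (Finset.card_union_le _ _) _))
  have h4 := (Nat.cast_le (α := ℝ)).2 h3
  rw [Nat.cast_add, Nat.cast_add] at h4
  refine h4.trans ((add_le_add (add_le_add h0 (h1.trans h1')) h2).trans ?_)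
  rw [hC]
  have h5 : (0 : ℝ) ≤ B₀ * (B : ℝ) ^ (-(δ ^ 2 / 60)) * (boxJ J B).card := by positivity
  nlinarith

end Own

section Fin

variable {R : Type} [CommRing R] {d n : ℕ} (b : Module.Basis (Fin d) ℤ R)

/-- The third part of the theorem for one ring and one family. -/
theorem main4 (d n M : ℕ) (κ δ : ℝ) (hκ0 : 0 ≤ κ) (hδ : 0 < δ) (hκδ : 2 * κ + δ < 1) :
    ∃ C : ℝ, ∀ {R : Type} [CommRing R] (b : Module.Basis (Fin d) ℤ R)
      {w : ∀ p : ℕ, (R →+* ZMod p) → ℝ} (_ : ∀ p φ, |w p φ| ≤ 1)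
      {P : ∀ p : ℕ, (R →+* ZMod p) → Set (Fin n → ZMod p)}
      {β : ∀ p : ℕ, (R →+* ZMod p) → (Fin n → ZMod p) → ℝ}
      (_ : ∀ (p : ℕ) (_ : p.Prime) (φ : R →+* ZMod p), ∀ v ∈ P p φ, |β p φ v| ≤ M * p) (B : ℕ),
      share n d B (fun a => ∃ T : ℕ, Real.log (height a) ^ (1 / (1 - 2 * κ - δ)) ≤ T ∧
        (T : ℝ) ≤ (height a : ℝ) ^ ((1 - δ) / (1 + 2 * κ)) ∧ (T : ℝ) ^ (-κ) < dist b w P β T a) ≤
        C * (B : ℝ) ^ (-(δ ^ 2 / 60)) := by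
  classical
  obtain ⟨C, hC⟩ := count4 (n * d) (2 * d * M) κ δ hκ0 hδ hκδ
  refine ⟨C, ?_⟩
  intro R _ b w hw P β hβ B
  have hfam := famB b (G := fun p φ v => w p φ * if v ∈ P p φ then β p φ v else 0) (M := M) (Nat.cast_nonneg M) (by
    intro p hp φ v
    rw [abs_mul]
    have h1 : |if v ∈ P p φ then β p φ v else 0| ≤ M * p := by
      split_ifs with h
      · exact hβ p hp φ v h
      · rw [abs_zero]; positivity
    calc |w p φ| * |if v ∈ P p φ then β p φ v else 0| ≤ 1 * (M * p) :=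
          mul_le_mul (hw p φ) h1 (abs_nonneg _) (by norm_num)
      _ = _ := one_mul _)
  have hcard : Fintype.card (Fin n × Fin d) = n * d := by
    rw [Fintype.card_prod, Fintype.card_fin, Fintype.card_fin]
  unfold dist
  have hav := average_sub b w P β
  refine share_le ?_
  have h := hC (Fin n × Fin d) hcard _ hfam B
  unfold XO at h
  convert h using 7
  rw [hav]

end Fin

end Pool.Agent.Helper25.FM
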