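import Pool.Agent.Helper25.FM.Sm

/-!
# Counting the exceptional vectors of a box, `T` up to the side of the box
-/

set_option autoImplicit false

namespace Pool.Agent.Helper25.FM

open Finset
open Pool.Agent.Helper29.TT

section Cnt

variable {J : Type} [Fintype J] [DecidableEq J] {t : ℕ → (J → ℤ) → ℝ} {A C : ℝ}

/-- Subtracting the means. -/
lemma exists_mean (ht : Fam t A C) : ∃ m : ℕ → ℝ, (∀ p : ℕ, p.Prime → |m p| ≤ C / Real.sqrt p) ∧
    Fam (fun p a => t p a - m p) A 0 := by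
  classical
  have h1 : ∀ p : ℕ, ∃ m : ℝ, ∀ _ : Fact p.Prime, |m| ≤ C / Real.sqrt p ∧
      ∃ f : (J → ZMod p) → ℝ, (∀ a : J → ℤ, t p a - m = f fun j => ((a j : ℤ) : ZMod p)) ∧
      (∑ u, f u ^ 2) ≤ A * (p : ℝ) ^ Fintype.card J ∧ ∑ u, f u = 0 := by
    intro p
    by_cases hp : p.Prime
    · have hpp : Fact p.Prime := ⟨hp⟩
      obtain ⟨f, hf, hf2, hf3⟩ := ht.f p
      have hp0 : (0 : ℝ) < p := by exact_mod_cast hp.pos
      obtain ⟨P, hP⟩ : ∃ P : ℝ, P = (p : ℝ) ^ Fintype.card J := ⟨_, rfl⟩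
      have hP0 : 0 < P := by rw [hP]; positivity
      rw [← hP] at hf2 hf3
      have hcard : (((univ : Finset (J → ZMod p)).card : ℕ) : ℝ) = P := by
        rw [Finset.card_univ, Fintype.card_fun, ZMod.card, hP]
        push_cast
        rfl
      refine ⟨(∑ u, f u) / P, fun _ => ⟨?_, fun u => f u - (∑ u, f u) / P, ?_, ?_, ?_⟩⟩
      · rw [abs_div, abs_of_pos hP0, div_le_iff₀ hP0]
        calc _ ≤ C * (P / Real.sqrt p) := hf3
          _ = _ := by ring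
      · intro a
        rw [hf a]
      · have e1 : ∑ u, (f u - (∑ u, f u) / P) ^ 2 = ∑ u, f u ^ 2 - (∑ u, f u) ^ 2 / P := by
          obtain ⟨σ, hσ⟩ : ∃ σ, σ = ∑ u, f u := ⟨_, rfl⟩
          rw [← hσ]
          have e2 : ∀ u, (f u - σ / P) ^ 2 = f u ^ 2 - 2 * (σ / P) * f u + (σ / P) ^ 2 := by
            intro u; ring
          simp_rw [e2]
          rw [Finset.sum_add_distrib, Finset.sum_sub_distrib, ← Finset.mul_sum, ← hσ, Finset.sum_const,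
            nsmul_eq_mul, hcard]
          field_simp
          ring
        rw [e1, ← hP]
        have e3 : 0 ≤ (∑ u, f u) ^ 2 / P := by positivity
        linarith
      · rw [Finset.sum_sub_distrib, Finset.sum_const, nsmul_eq_mul, hcard]
        field_simp
        ring
    · exact ⟨0, fun h => absurd h.out hp⟩
  choose m hm using h1
  refine ⟨m, fun p hp => (hm p ⟨hp⟩).1, ht.A_nonneg, le_rfl, fun p hp => ?_⟩
  obtain ⟨_, f, h2, h3, h4⟩ := hm p hp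
  exact ⟨f, h2, h3, by rw [h4]; simp⟩

/-- The scale. -/
noncomputable def S2 (J : Type) [Fintype J] [DecidableEq J] (B : ℕ) (y : ℝ) : ℝ := SC J B * (y / B + 2)

lemma S2_nonneg (B : ℕ) {y : ℝ} (hy : 0 ≤ y) : 0 ≤ S2 J B y :=
  mul_nonneg (SC_nonneg B) (by positivity)

/-- The second moment for general functions, `K ≤ B`. -/
theorem sm_mean (ht : Fam t A C) (K B : ℕ) (hK : 1 ≤ K) (hKB : K ≤ B) {y : ℝ} (hy : (K : ℝ) ^ 2 / 4 ≤ y)
    (P : Finset ℕ) (hP : ∀ p ∈ P, p.Prime ∧ p ≤ K) (c : ℕ → ℝ) :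
    ∑ a ∈ boxJ J B, (∑ p ∈ P, c p * t p a) ^ 2 ≤
      S2 J B y * (2 * A * ∑ p ∈ P, c p ^ 2 + (∑ p ∈ P, |c p| * (C / Real.sqrt p)) ^ 2) := by
  obtain ⟨m, hm, ht'⟩ := exists_mean ht
  have hB0 : (0 : ℝ) < B := by exact_mod_cast lt_of_lt_of_le (by omega) hKB
  have hA := ht.A_nonneg
  have hC := ht.C_nonneg
  obtain ⟨μ, hμ⟩ : ∃ μ, μ = ∑ p ∈ P, c p * m p := ⟨_, rfl⟩
  have h1 : ∀ a, (∑ p ∈ P, c p * t p a) ^ 2 ≤ 2 * (∑ p ∈ P, c p * (t p a - m p)) ^ 2 + 2 * μ ^ 2 := by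
    intro a
    have h2 : ∑ p ∈ P, c p * t p a = ∑ p ∈ P, c p * (t p a - m p) + μ := by
      rw [hμ, ← Finset.sum_add_distrib]
      refine Finset.sum_congr rfl fun p _ => ?_
      ring
    rw [h2]
    nlinarith [sq_nonneg (∑ p ∈ P, c p * (t p a - m p) - μ)]
  have hμ2 : μ ^ 2 ≤ (∑ p ∈ P, |c p| * (C / Real.sqrt p)) ^ 2 := by
    rw [← sq_abs]
    apply pow_le_pow_left₀ (abs_nonneg _)
    rw [hμ]
    refine (Finset.abs_sum_le_sum_abs _ _).trans (Finset.sum_le_sum fun p hp => ?_)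
    rw [abs_mul]
    exact mul_le_mul_of_nonneg_left (hm p (hP p hp).1) (abs_nonneg _)
  have h3 := sm ht' K B hK hKB P hP c
  refine (Finset.sum_le_sum fun a _ => h1 a).trans ?_
  rw [Finset.sum_add_distrib, ← Finset.mul_sum, Finset.sum_const, nsmul_eq_mul]
  obtain ⟨X, hX⟩ : ∃ X, X = ∑ p ∈ P, c p ^ 2 := ⟨_, rfl⟩
  obtain ⟨Y, hY⟩ : ∃ Y, Y = (∑ p ∈ P, |c p| * (C / Real.sqrt p)) ^ 2 := ⟨_, rfl⟩
  have hX0 : 0 ≤ X := by rw [hX]; exact Finset.sum_nonneg fun p _ => sq_nonneg _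
  have hY0 : 0 ≤ Y := by rw [hY]; positivity
  rw [← hX] at h3 ⊢
  rw [← hY] at hμ2 ⊢
  obtain ⟨b, hb⟩ : ∃ b : ℝ, b = (boxJ J B).card := ⟨_, rfl⟩
  have hb0 : 0 ≤ b := by rw [hb]; exact Nat.cast_nonneg _
  rw [← hb] at h3 ⊢
  have h8 : (1 : ℝ) ≤ 8 ^ Fintype.card J := one_le_pow₀ (by norm_num)
  have hy0 : 0 ≤ y := le_trans (by positivity) hy
  have hyB : (K : ℝ) ^ 2 / (4 * B) ≤ y / B := by
    rw [← div_div]
    exact div_le_div_of_nonneg_right hy hB0.le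
  unfold S2 SC
  rw [← hb]
  have e1 : 8 ^ Fintype.card J * b * (((K : ℝ) ^ 2 / (4 * B) + 2) * (A * X)) ≤
      8 ^ Fintype.card J * b * ((y / B + 2) * (A * X)) := by
    apply mul_le_mul_of_nonneg_left _ (by positivity)
    exact mul_le_mul_of_nonneg_right (by linarith) (by positivity)
  have hyB0 : 0 ≤ y / B := by positivity
  have e2 : b * (2 * μ ^ 2) ≤ 8 ^ Fintype.card J * b * (y / B + 2) * Y := by
    calc b * (2 * μ ^ 2) ≤ b * (2 * Y) := by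
          apply mul_le_mul_of_nonneg_left _ hb0
          linarith
      _ = 1 * b * 2 * Y := by ring
      _ ≤ 8 ^ Fintype.card J * b * (y / B + 2) * Y := by
          apply mul_le_mul_of_nonneg_right _ hY0
          apply mul_le_mul _ (by linarith) (by norm_num) (by positivity)
          exact mul_le_mul_of_nonneg_right h8 hb0
  nlinarith

lemma momentJ' (ht : Fam t A C) (K B : ℕ) (hK : 1 ≤ K) (hKB : K ≤ B) {y : ℝ} (hy : (K : ℝ) ^ 2 / 4 ≤ y)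
    (b n : ℕ) :
    ∑ a ∈ boxJ J B, IS (xJ t K a) b n ^ 2 ≤ gA (S2 J B y) (2 * A) C K b n := by
  have hP : ∀ p ∈ PIK K b n, p.Prime ∧ p ≤ K := by
    intro p hp
    unfold PIK at hp
    exact (Finset.mem_filter.1 hp).2
  simp_rw [IS_xJ]
  exact sm_mean ht K B hK hKB hy (PIK K b n) hP fun p => Real.log p

lemma momentRM' (ht : Fam t A C) (K B : ℕ) (hK : 1 ≤ K) (hKB : K ≤ B) {y : ℝ} (hy : (K : ℝ) ^ 2 / 4 ≤ y)
    (k : ℕ) :
    ∑ a ∈ boxJ J B, RM (xJ t K a) k 0 ≤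
      ((k : ℝ) + 1) ^ 2 * (S2 J B y * ((2 * A + 4 * C ^ 2) * ((k : ℝ) ^ 2 * 2 ^ k))) := by
  have hy0 : 0 ≤ y := le_trans (by positivity) hy
  have hA := ht.A_nonneg
  refine (sum_RM (boxJ J B) (fun a => xJ t K a) (gA (S2 J B y) (2 * A) C K)
    (gA_nonneg (S2_nonneg B hy0) (by linarith) K) (gA_super (S2_nonneg B hy0) ht.C_nonneg K)
    (momentJ' ht K B hK hKB hy) k 0).trans ?_
  apply mul_le_mul_of_nonneg_left _ (by positivity)
  have h := prime_sumsA (S := S2 J B y) (A := 2 * A) (C := C) (L := (k : ℝ)) (S2_nonneg B hy0)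
    (by linarith) ht.C_nonneg (Nat.cast_nonneg k) (2 ^ k) (PIK K 0 (2 ^ k))
    (by
      intro p hp
      unfold PIK at hp
      rw [Finset.mem_filter, Finset.mem_Ico] at hp
      exact ⟨hp.2.1.one_le, by omega⟩)
    (by
      intro p hp
      unfold PIK at hp
      rw [Finset.mem_filter, Finset.mem_Ico, zero_add] at hp
      have h1 : Real.log p ≤ Real.log ((2 : ℝ) ^ k) :=
        Real.log_le_log (by exact_mod_cast hp.2.1.pos) (by exact_mod_cast hp.1.2.le)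
      rw [Real.log_pow] at h1
      have h2 : Real.log 2 ≤ 1 := by
        have := Real.log_two_lt_d9; linarith
      have h3 : (0 : ℝ) ≤ k := Nat.cast_nonneg k
      nlinarith)
  push_cast at h
  exact h

/-- The primes relevant for the block `j`. -/
def KK (B j : ℕ) : ℕ := min (2 ^ (j + 1)) B

open Classical in
/-- The number of the vectors with a large maximal function in the block `j`. -/
lemma block (ht : Fam t A C) {B j : ℕ} (hB : 1 ≤ B) (hj : 1 ≤ j) {X : ℝ} (hX : 0 < X) :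
    (((boxJ J B).filter fun a => X < RM (xJ t (KK B j) a) (j + 1) 0).card : ℝ) ≤
      SC J B * (2 * A + 4 * C ^ 2) * (72 * (j : ℝ) ^ 4 * (2 ^ j * (4 ^ j / B + 2))) / X := by
  have hA := ht.A_nonneg
  have hK1 : 1 ≤ KK B j := by
    unfold KK
    exact le_min Nat.one_le_two_pow hB
  have hKB : KK B j ≤ B := min_le_right _ _
  have hy : ((KK B j : ℕ) : ℝ) ^ 2 / 4 ≤ (4 : ℝ) ^ j := by
    have h1 : ((KK B j : ℕ) : ℝ) ≤ 2 ^ (j + 1) := by
      have : KK B j ≤ 2 ^ (j + 1) := min_le_left _ _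
      exact_mod_cast this
    have h2 : ((KK B j : ℕ) : ℝ) ^ 2 ≤ (2 ^ (j + 1)) ^ 2 := pow_le_pow_left₀ (Nat.cast_nonneg _) h1 2
    have h3 : ((2 : ℝ) ^ (j + 1)) ^ 2 = 4 * 4 ^ j := by
      rw [← pow_mul, mul_comm, pow_mul, pow_succ]
      norm_num
      ring
    rw [h3] at h2
    linarith
  have h1 := momentRM' ht (KK B j) B hK1 hKB hy (j + 1)
  rw [le_div_iff₀ hX]
  have h2 : (((boxJ J B).filter fun a => X < RM (xJ t (KK B j) a) (j + 1) 0).card : ℝ) * X ≤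
      ∑ a ∈ boxJ J B, RM (xJ t (KK B j) a) (j + 1) 0 := by
    calc _ = ∑ _a ∈ (boxJ J B).filter fun a => X < RM (xJ t (KK B j) a) (j + 1) 0, X := by
          rw [Finset.sum_const, nsmul_eq_mul]
      _ ≤ ∑ a ∈ (boxJ J B).filter fun a => X < RM (xJ t (KK B j) a) (j + 1) 0,
          RM (xJ t (KK B j) a) (j + 1) 0 := Finset.sum_le_sum fun a ha => (Finset.mem_filter.1 ha).2.le
      _ ≤ _ := Finset.sum_le_sum_of_subset_of_nonneg (Finset.filter_subset _ _) fun a _ _ => RM_nonneg _ _ _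
  refine h2.trans (h1.trans ?_)
  have hj' : (1 : ℝ) ≤ j := by exact_mod_cast hj
  have e2 : ((j : ℝ) + 1 + 1) ^ 2 ≤ 9 * (j : ℝ) ^ 2 := by nlinarith
  have e3 : ((j : ℝ) + 1) ^ 2 ≤ 4 * (j : ℝ) ^ 2 := by nlinarith
  have e4 : ((j : ℝ) + 1 + 1) ^ 2 * ((j : ℝ) + 1) ^ 2 ≤ 36 * (j : ℝ) ^ 4 := by
    calc _ ≤ (9 * (j : ℝ) ^ 2) * (4 * (j : ℝ) ^ 2) := mul_le_mul e2 e3 (by positivity) (by positivity)
      _ = _ := by ring
  have hS := SC_nonneg (J := J) B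
  have hfac : 0 ≤ SC J B * ((4 : ℝ) ^ j / B + 2) * (2 * A + 4 * C ^ 2) * (2 * 2 ^ j) := by positivity
  calc (((j + 1 : ℕ) : ℝ) + 1) ^ 2 * (S2 J B (4 ^ j) * ((2 * A + 4 * C ^ 2) * ((((j + 1 : ℕ) : ℝ)) ^ 2 * 2 ^ (j + 1))))
      = (((j : ℝ) + 1 + 1) ^ 2 * ((j : ℝ) + 1) ^ 2) *
        (SC J B * ((4 : ℝ) ^ j / B + 2) * (2 * A + 4 * C ^ 2) * (2 * 2 ^ j)) := by
        unfold S2
        push_cast
        rw [pow_succ]
        ring
    _ ≤ (36 * (j : ℝ) ^ 4) * (SC J B * ((4 : ℝ) ^ j / B + 2) * (2 * A + 4 * C ^ 2) * (2 * 2 ^ j)) :=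
        mul_le_mul_of_nonneg_right e4 hfac
    _ = _ := by ring

/-- A large value in the block `j = log₂ T`. -/
lemma exceed' {B T : ℕ} (hT : 2 ≤ T) (hTB : T ≤ B) {a : J → ℤ} {η : ℝ} (hη : 0 ≤ η)
    (h : η < |(∑ p ∈ PRI T, Real.log p * t p a) / T|) :
    ((T : ℝ) * η) ^ 2 < RM (xJ t (KK B (Nat.log 2 T)) a) (Nat.log 2 T + 1) 0 := by
  have hT0 : (0 : ℝ) < T := by exact_mod_cast (by omega : 0 < T)
  have h2 : T < 2 ^ (Nat.log 2 T + 1) := Nat.lt_pow_succ_log_self (by norm_num) T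
  have hTK : T ≤ KK B (Nat.log 2 T) := le_min h2.le hTB
  have h3 := IS_le_RM (xJ t (KK B (Nat.log 2 T)) a) (Nat.log 2 T + 1) 0 (T + 1) h2
  rw [IS_xJ, PIK_eq hTK] at h3
  refine lt_of_lt_of_le ?_ h3
  rw [abs_div, abs_of_pos hT0, lt_div_iff₀ hT0] at h
  rw [← sq_abs (∑ p ∈ PRI T, Real.log p * t p a)]
  apply pow_lt_pow_left₀ _ (by positivity) (by norm_num)
  rw [mul_comm]
  exact h

end Cnt

end Pool.Agent.Helper25.FM
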