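import Mathlib

/-!
# Families of varieties and the trace of Frobenius on the second cohomology group

A family of projective schemes over the affine space of dimension `n` over a ring `R` is given by
polynomials `h i` in `n` parameters and `N` projective coordinates.
-/

set_option autoImplicit false

namespace Pool.Agent.Helper25.FM

open MvPolynomial

variable {R : Type} [CommRing R]

/-- The vector with entries in `R` with given coordinates in the basis `b`. -/
def coord {d n : ℕ} (b : Fin d → R) (a : Fin n × Fin d → ℤ) : Fin n → R :=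
  fun j => ∑ i, (a (j, i) : R) * b i

/-- The coordinate vectors with entries in `[-B, B]`. -/
noncomputable def box (n d B : ℕ) : Finset (Fin n × Fin d → ℤ) :=
  Fintype.piFinset fun _ => Finset.Icc (-(B : ℤ)) B

open Classical in
/-- The proportion of the coordinate vectors with entries in `[-B, B]` which have the property
`S`. -/
noncomputable def share (n d B : ℕ) (S : (Fin n × Fin d → ℤ) → Prop) : ℝ :=
  (((box n d B).filter S).card : ℝ) / (box n d B).card

/-- The number of points over the field with `p ^ r` elements of the fibre over `v` of the family of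
projective schemes defined by the polynomials `h i`: the number of the nonzero solutions `x` of the
equations `h i (v, x) = 0` divided by `p ^ r - 1`. -/
noncomputable def points {n N c p : ℕ} [Fact p.Prime] (h : Fin c → MvPolynomial (Fin n ⊕ Fin N) R)
    (φ : R →+* ZMod p) (v : Fin n → ZMod p) (r : ℕ) : ℝ :=
  (Nat.card {x : Fin N → GaloisField p r // x ≠ 0 ∧
    ∀ i, eval₂ ((algebraMap (ZMod p) (GaloisField p r)).comp φ)
      (Sum.elim (fun j => algebraMap (ZMod p) (GaloisField p r) (v j)) x) (h i) = 0} : ℝ) /
    ((p : ℝ) ^ r - 1)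

/-- `β` is the trace of Frobenius on the second cohomology group of a smooth projective variety over
the field with `q` elements with `N r` points over the extension of degree `r`, and its second
Betti number is at most `M`: there are (Frobenius eigenvalues) `α i` with weights `w i` such that
`|α i| = q ^ (w i / 2)` and `N r = ∑ (-1) ^ (w i) (α i) ^ r`, and `β` is the sum of those of
weight two; there are at most `M` of them. -/
def TraceH2 (q : ℝ) (N : ℕ → ℝ) (M : ℕ) (β : ℝ) : Prop :=
  ∃ (m : ℕ) (α : Fin m → ℂ) (w : Fin m → ℕ),
    (∀ i, ‖α i‖ ^ 2 = q ^ w i) ∧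
    (∀ r : ℕ, 1 ≤ r → (N r : ℂ) = ∑ i, (-1) ^ w i * α i ^ r) ∧
    (β : ℂ) = ∑ i ∈ Finset.univ.filter (fun i => w i = 2), α i ∧
    (Finset.univ.filter fun i => w i = 2).card ≤ M

open Classical in
/-- The average of the Tauberian Tate conjecture for the member of the family with parameter
`a`, over the primes of degree one up to `T` for which the reduction of `a` is in the set `P p φ` of
good fibres, with weights `w p φ`. The primes of degree one over `p` are the kernels of the
homomorphisms `φ` to the field with `p` elements; `β p φ v` is the trace of the fibre over `v`. -/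
noncomputable def average {n : ℕ} (w : ∀ p : ℕ, (R →+* ZMod p) → ℝ)
    (P : ∀ p : ℕ, (R →+* ZMod p) → Set (Fin n → ZMod p))
    (β : ∀ p : ℕ, (R →+* ZMod p) → (Fin n → ZMod p) → ℝ) (T : ℕ) (a : Fin n → R) : ℝ :=
  (∑ p ∈ (Finset.Icc 1 T).filter Nat.Prime, ∑ᶠ φ : R →+* ZMod p,
    if (fun j => φ (a j)) ∈ P p φ then w p φ * (β p φ (fun j => φ (a j)) * Real.log p / p) else 0) / T

open Classical in
/-- The mean of the traces of the good fibres over the points of affine space with coordinates in
the field with `p` elements. -/
noncomputable def mean {n p : ℕ} (P : Set (Fin n → ZMod p)) (β : (Fin n → ZMod p) → ℝ) : ℝ :=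
  (∑ᶠ v : Fin n → ZMod p, if v ∈ P then β v else 0) / (p : ℝ) ^ n

/-- The same average of the means. -/
noncomputable def meanAverage {n : ℕ} (w : ∀ p : ℕ, (R →+* ZMod p) → ℝ)
    (P : ∀ p : ℕ, (R →+* ZMod p) → Set (Fin n → ZMod p))
    (β : ∀ p : ℕ, (R →+* ZMod p) → (Fin n → ZMod p) → ℝ) (T : ℕ) : ℝ :=
  (∑ p ∈ (Finset.Icc 1 T).filter Nat.Prime, ∑ᶠ φ : R →+* ZMod p,
    w p φ * (mean (P p φ) (β p φ) * Real.log p / p)) / T

/-- The distance between the average for the member of the family with parameter `coord b a` and the
average of the means. -/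
noncomputable def dist {d n : ℕ} (b : Fin d → R) (w : ∀ p : ℕ, (R →+* ZMod p) → ℝ)
    (P : ∀ p : ℕ, (R →+* ZMod p) → Set (Fin n → ZMod p))
    (β : ∀ p : ℕ, (R →+* ZMod p) → (Fin n → ZMod p) → ℝ) (T : ℕ) (a : Fin n × Fin d → ℤ) : ℝ :=
  |average w P β T (coord b a) - meanAverage w P β T|

end Pool.Agent.Helper25.FM
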