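import Pool.Agent.Helper25.FM.Cnt

/-!
# The two counting theorems
-/

set_option autoImplicit false

namespace Pool.Agent.Helper25.FM

open Finset
open Pool.Agent.Helper29.TT

lemma log_block {T : ℕ} (hT : 2 ≤ T) : ((Nat.log 2 T : ℕ) : ℝ) * Real.log 2 ≤ Real.log T := by
  have h2 : 2 ^ Nat.log 2 T ≤ T := Nat.pow_log_le_self 2 (by omega)
  rw [← Real.log_pow]
  exact Real.log_le_log (by positivity) (by exact_mod_cast h2)

lemma block_log {T : ℕ} (hT : 2 ≤ T) : Real.log T ≤ 2 * ((Nat.log 2 T : ℕ) : ℝ) * Real.log 2 := by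
  have hl : 0 < Real.log 2 := Real.log_pos (by norm_num)
  have h7 : (T : ℝ) ≤ 2 ^ (Nat.log 2 T + 1) := by
    have := (Nat.lt_pow_succ_log_self (b := 2) (by norm_num) T).le
    exact_mod_cast this
  have hT0 : (0 : ℝ) < T := by exact_mod_cast (by omega : 0 < T)
  have h8 := Real.log_le_log hT0 h7
  rw [Real.log_pow] at h8
  push_cast at h8
  have h9 : (1 : ℝ) ≤ (Nat.log 2 T : ℕ) := by exact_mod_cast Nat.log_pos (by norm_num) hT
  nlinarith

lemma sum_pow4 (n : ℕ) : ∑ i ∈ range n, ((i : ℝ) + 3) ^ 4 / 2 ^ i ≤ 26244 - 4 * ((n : ℝ) + 9) ^ 4 / 2 ^ n := by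
  induction n with
  | zero => norm_num
  | succ n ih =>
      rw [Finset.sum_range_succ]
      have hn : (0 : ℝ) ≤ n := Nat.cast_nonneg n
      have h2 : (0 : ℝ) < 2 ^ n := by positivity
      have h3 : ((n : ℝ) + 3) ^ 4 / 2 ^ n ≤ 4 * ((n : ℝ) + 9) ^ 4 / 2 ^ n - 4 * (((n + 1 : ℕ) : ℝ) + 9) ^ 4 / 2 ^ (n + 1) := by
        have e1 : 4 * (((n + 1 : ℕ) : ℝ) + 9) ^ 4 / 2 ^ (n + 1) = 2 * ((n : ℝ) + 10) ^ 4 / 2 ^ n := by
          push_cast
          rw [pow_succ]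
          field_simp
          ring
        rw [e1, ← sub_div]
        apply div_le_div_of_nonneg_right _ h2.le
        have e2 : 4 * ((n : ℝ) + 9) ^ 4 - 2 * ((n : ℝ) + 10) ^ 4 - ((n : ℝ) + 3) ^ 4 =
            (n : ℝ) ^ 4 + 52 * (n : ℝ) ^ 3 + 690 * (n : ℝ) ^ 2 + 3556 * n + 6163 := by ring
        have e3 : 0 ≤ (n : ℝ) ^ 4 + 52 * (n : ℝ) ^ 3 + 690 * (n : ℝ) ^ 2 + 3556 * n + 6163 := by positivity
        linarith
      linarith

lemma sum_low {j0 j1 : ℕ} (hj : 1 ≤ j0) :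
    ∑ j ∈ Icc j0 j1, (j : ℝ) ^ 4 / 2 ^ j ≤ 26244 * ((j0 : ℝ) ^ 4 / 2 ^ j0) := by
  by_cases h01 : j0 ≤ j1
  · have h1 : Icc j0 j1 = (range (j1 + 1 - j0)).map (addLeftEmbedding j0) := by
      ext x
      simp only [Finset.mem_Icc, Finset.mem_map, Finset.mem_range, addLeftEmbedding_apply]
      constructor
      · rintro ⟨h2, h3⟩
        exact ⟨x - j0, by omega, by omega⟩
      · rintro ⟨y, hy, rfl⟩
        omega
    rw [h1, Finset.sum_map]
    have hj0 : (1 : ℝ) ≤ j0 := by exact_mod_cast hj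
    have h2 : ∀ i ∈ range (j1 + 1 - j0), (((addLeftEmbedding j0 i : ℕ) : ℝ)) ^ 4 / 2 ^ (addLeftEmbedding j0 i : ℕ) ≤
        ((j0 : ℝ) ^ 4 / 2 ^ j0) * (((i : ℝ) + 3) ^ 4 / 2 ^ i) := by
      intro i _
      rw [addLeftEmbedding_apply]
      push_cast
      rw [pow_add, div_mul_div_comm]
      apply div_le_div_of_nonneg_right _ (by positivity)
      rw [← mul_pow]
      apply pow_le_pow_left₀ (by positivity)
      have hi : (0 : ℝ) ≤ i := Nat.cast_nonneg i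
      nlinarith
    refine (Finset.sum_le_sum h2).trans ?_
    rw [← Finset.mul_sum, mul_comm]
    apply mul_le_mul_of_nonneg_right _ (by positivity)
    have h3 := sum_pow4 (j1 + 1 - j0)
    have h4 : 0 ≤ 4 * (((j1 + 1 - j0 : ℕ) : ℝ) + 9) ^ 4 / 2 ^ (j1 + 1 - j0) := by positivity
    linarith
  · rw [Finset.Icc_eq_empty h01, Finset.sum_empty]
    positivity

lemma sum_high (j0 j1 : ℕ) : ∑ j ∈ Icc j0 j1, (j : ℝ) ^ 4 * 2 ^ j ≤ 2 * ((j1 : ℝ) ^ 4 * 2 ^ j1) := by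
  have h1 : ∑ j ∈ Icc j0 j1, (j : ℝ) ^ 4 * 2 ^ j ≤ ∑ j ∈ Icc j0 j1, (j1 : ℝ) ^ 4 * 2 ^ j := by
    refine Finset.sum_le_sum fun j hj => ?_
    apply mul_le_mul_of_nonneg_right _ (by positivity)
    exact pow_le_pow_left₀ (Nat.cast_nonneg _) (by exact_mod_cast (Finset.mem_Icc.1 hj).2) 4
  have h2 : ∑ j ∈ Icc j0 j1, (2 : ℝ) ^ j ≤ 2 * 2 ^ j1 := by
    calc ∑ j ∈ Icc j0 j1, (2 : ℝ) ^ j ≤ ∑ j ∈ range (j1 + 1), (2 : ℝ) ^ j := by
          apply Finset.sum_le_sum_of_subset_of_nonneg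
          · intro x hx
            rw [Finset.mem_Icc] at hx
            exact Finset.mem_range.2 (by omega)
          · intro i _ _; positivity
      _ = 2 ^ (j1 + 1) - 1 := by
          rw [geom_sum_eq (by norm_num)]
          norm_num
      _ ≤ 2 * 2 ^ j1 := by rw [pow_succ]; linarith
  refine h1.trans ?_
  rw [← Finset.mul_sum]
  calc _ ≤ (j1 : ℝ) ^ 4 * (2 * 2 ^ j1) := mul_le_mul_of_nonneg_left h2 (by positivity)
    _ = _ := by ring

section Fin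

variable {J : Type} [Fintype J] [DecidableEq J] {t : ℕ → (J → ℤ) → ℝ} {A C : ℝ}

/-- The constant. -/
noncomputable def K1 (n : ℕ) (A C : ℝ) : ℝ := 8 ^ n * (2 * A + 4 * C ^ 2) * (576 / Real.log 2 ^ 5)

lemma term1 {S c l x : ℝ} (hS : 0 ≤ S) (hl : 0 < l) (hx : 0 ≤ x) {j : ℕ} (hj : 1 ≤ j)
    (h : c ≤ S * (72 * (j : ℝ) ^ 4 * (2 ^ j * (x + 2))) / (((j : ℝ) * l) ^ 6 * (2 ^ j * (x + 1)))) :
    c ≤ S * (144 / l ^ 6) * (1 / (j : ℝ) ^ 2) := by
  have hj' : (1 : ℝ) ≤ j := by exact_mod_cast hj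
  have hj0 : (0 : ℝ) < j := by linarith
  refine h.trans ?_
  have h1 : S * (72 * (j : ℝ) ^ 4 * (2 ^ j * (x + 2))) / (((j : ℝ) * l) ^ 6 * (2 ^ j * (x + 1))) =
      S * (72 / l ^ 6) * (1 / (j : ℝ) ^ 2) * ((x + 2) / (x + 1)) := by
    field_simp
  rw [h1]
  have h2 : (x + 2) / (x + 1) ≤ 2 := by
    rw [div_le_iff₀ (by linarith)]
    linarith
  calc _ ≤ S * (72 / l ^ 6) * (1 / (j : ℝ) ^ 2) * 2 := mul_le_mul_of_nonneg_left h2 (by positivity)
    _ = _ := by ring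

open Classical in
/-- The counting theorem with a power saving error. -/
theorem count1 (ht : Fam t A C) (T₀ B : ℕ) (hT₀ : 2 ≤ T₀) :
    (((boxJ J B).filter fun a => ∃ T : ℕ, T₀ ≤ T ∧ T ≤ B ∧
      Real.log T ^ 3 * (1 / Real.sqrt T + Real.sqrt (T / B)) <
        |(∑ p ∈ PRI T, Real.log p * t p a) / T|).card : ℝ) ≤
      K1 (Fintype.card J) A C / Real.log T₀ * (boxJ J B).card := by
  have hl : 0 < Real.log 2 := Real.log_pos (by norm_num)
  have hT0 : (2 : ℝ) ≤ T₀ := by exact_mod_cast hT₀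
  have hlT : 0 < Real.log T₀ := Real.log_pos (by linarith)
  have hA := ht.A_nonneg
  have hK1 : 0 ≤ K1 (Fintype.card J) A C := by
    unfold K1
    positivity
  by_cases hB : B = 0
  · have : ((boxJ J B).filter fun a => ∃ T : ℕ, T₀ ≤ T ∧ T ≤ B ∧
      Real.log T ^ 3 * (1 / Real.sqrt T + Real.sqrt (T / B)) <
        |(∑ p ∈ PRI T, Real.log p * t p a) / T|) = ∅ := by
      rw [Finset.filter_eq_empty_iff]
      rintro a _ ⟨T, h1, h2, _⟩
      omega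
    rw [this, Finset.card_empty, Nat.cast_zero]
    positivity
  have hB1 : 1 ≤ B := by omega
  have hBr : (0 : ℝ) < B := by exact_mod_cast hB1
  obtain ⟨j0, hj0⟩ : ∃ j0, j0 = Nat.log 2 T₀ := ⟨_, rfl⟩
  have hj1 : 1 ≤ j0 := by
    rw [hj0]; exact Nat.log_pos (by norm_num) hT₀
  set D : ℝ := SC J B * (2 * A + 4 * C ^ 2) * (144 / Real.log 2 ^ 6) with hD
  have hD0 : 0 ≤ D := by
    have := SC_nonneg (J := J) B
    positivity
  have hsub : ((boxJ J B).filter fun a => ∃ T : ℕ, T₀ ≤ T ∧ T ≤ B ∧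
      Real.log T ^ 3 * (1 / Real.sqrt T + Real.sqrt (T / B)) <
        |(∑ p ∈ PRI T, Real.log p * t p a) / T|) ⊆
      (Icc j0 (Nat.log 2 B)).biUnion fun j => (boxJ J B).filter fun a =>
        ((j : ℝ) * Real.log 2) ^ 6 * (2 ^ j * (4 ^ j / B + 1)) < RM (xJ t (KK B j) a) (j + 1) 0 := by
    intro a ha
    obtain ⟨ha1, T, h1, h2, h3⟩ := Finset.mem_filter.1 ha
    rw [Finset.mem_biUnion]
    refine ⟨Nat.log 2 T, ?_, ?_⟩
    · rw [Finset.mem_Icc, hj0]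
      exact ⟨Nat.log_mono_right h1, Nat.log_mono_right h2⟩
    · rw [Finset.mem_filter]
      refine ⟨ha1, lt_of_le_of_lt ?_ (exceed' (hT₀.trans h1) h2 (by positivity) h3)⟩
      have hT2 : 2 ≤ T := hT₀.trans h1
      have hTr : (0 : ℝ) < T := by exact_mod_cast (by omega : 0 < T)
      have hlog := log_block hT2
      have hlog0 : 0 ≤ ((Nat.log 2 T : ℕ) : ℝ) * Real.log 2 := by positivity
      have hpow : (2 : ℝ) ^ Nat.log 2 T ≤ T := by
        have := Nat.pow_log_le_self 2 (by omega : T ≠ 0)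
        exact_mod_cast this
      have e1 : ((2 : ℝ) ^ Nat.log 2 T * (4 ^ Nat.log 2 T / B + 1)) ≤ T * ((T : ℝ) ^ 2 / B + 1) := by
        apply mul_le_mul hpow _ (by positivity) hTr.le
        have : (4 : ℝ) ^ Nat.log 2 T ≤ (T : ℝ) ^ 2 := by
          calc (4 : ℝ) ^ Nat.log 2 T = (2 ^ Nat.log 2 T) ^ 2 := by
                rw [← pow_mul, mul_comm, pow_mul]
                norm_num
            _ ≤ _ := pow_le_pow_left₀ (by positivity) hpow 2
        have := div_le_div_of_nonneg_right this hBr.le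
        linarith
      have hs : 0 < Real.sqrt T := Real.sqrt_pos.2 hTr
      have e2 : (T : ℝ) * ((T : ℝ) ^ 2 / B + 1) ≤ ((T : ℝ) * (1 / Real.sqrt T + Real.sqrt (T / B))) ^ 2 := by
        have f1 : ((T : ℝ) * (1 / Real.sqrt T + Real.sqrt (T / B))) ^ 2 =
            (T : ℝ) ^ 2 * ((1 / Real.sqrt T) ^ 2 + Real.sqrt (T / B) ^ 2 + 2 * (1 / Real.sqrt T * Real.sqrt (T / B))) := by
          ring
        rw [f1, Real.sq_sqrt (by positivity), div_pow, one_pow, Real.sq_sqrt hTr.le]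
        have f2 : 0 ≤ 1 / Real.sqrt T * Real.sqrt (T / B) := by positivity
        have f3 : (T : ℝ) * ((T : ℝ) ^ 2 / B + 1) = (T : ℝ) ^ 2 * (1 / T + T / B) := by
          field_simp
          ring
        rw [f3]
        apply mul_le_mul_of_nonneg_left _ (by positivity)
        linarith
      calc _ ≤ Real.log T ^ 6 * (((T : ℝ) * (1 / Real.sqrt T + Real.sqrt (T / B))) ^ 2) :=
            mul_le_mul (pow_le_pow_left₀ hlog0 hlog 6) (e1.trans e2) (by positivity) (by positivity)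
        _ = _ := by ring
  have h1 : (((boxJ J B).filter fun a => ∃ T : ℕ, T₀ ≤ T ∧ T ≤ B ∧
      Real.log T ^ 3 * (1 / Real.sqrt T + Real.sqrt (T / B)) <
        |(∑ p ∈ PRI T, Real.log p * t p a) / T|).card : ℝ) ≤
      ∑ j ∈ Icc j0 (Nat.log 2 B), D * (1 / (j : ℝ) ^ 2) := by
    have h2 := (Finset.card_le_card hsub).trans Finset.card_biUnion_le
    have h3 : (((boxJ J B).filter fun a => ∃ T : ℕ, T₀ ≤ T ∧ T ≤ B ∧
      Real.log T ^ 3 * (1 / Real.sqrt T + Real.sqrt (T / B)) <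
        |(∑ p ∈ PRI T, Real.log p * t p a) / T|).card : ℝ) ≤
        ∑ j ∈ Icc j0 (Nat.log 2 B), (((boxJ J B).filter fun a =>
        ((j : ℝ) * Real.log 2) ^ 6 * (2 ^ j * (4 ^ j / B + 1)) < RM (xJ t (KK B j) a) (j + 1) 0).card : ℝ) := by
      exact_mod_cast h2
    refine h3.trans (Finset.sum_le_sum fun j hj => ?_)
    have hj' : 1 ≤ j := hj1.trans (Finset.mem_Icc.1 hj).1
    have hjr : (0 : ℝ) < j := by exact_mod_cast hj'
    have h4 := block ht hB1 hj' (X := ((j : ℝ) * Real.log 2) ^ 6 * (2 ^ j * (4 ^ j / B + 1))) (by positivity)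
    exact term1 (mul_nonneg (SC_nonneg B) (by positivity)) hl (by positivity) hj' h4
  refine h1.trans ?_
  rw [← Finset.mul_sum]
  refine (mul_le_mul_of_nonneg_left (sum_inv_sqJ j0 _ hj1) hD0).trans ?_
  have h5 : (2 : ℝ) / j0 ≤ 4 * Real.log 2 / Real.log T₀ := by
    have hj0' : (1 : ℝ) ≤ j0 := by exact_mod_cast hj1
    rw [div_le_div_iff₀ (by linarith) hlT]
    have := block_log hT₀
    rw [← hj0] at this
    nlinarith
  refine (mul_le_mul_of_nonneg_left h5 hD0).trans (le_of_eq ?_)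
  rw [hD]
  unfold K1 SC
  field_simp
  ring

/-- The constant. -/
noncomputable def K2 (n : ℕ) (A C : ℝ) : ℝ := 8 ^ n * (2 * A + 4 * C ^ 2) * (7558272 / Real.log 2 ^ 4)

open Classical in
/-- The counting theorem for a fixed error. -/
theorem count2 (ht : Fam t A C) (T₀ T₁ B : ℕ) (hT₀ : 2 ≤ T₀) (hT₁ : T₁ ≤ B) {ε : ℝ} (hε : 0 < ε) :
    (((boxJ J B).filter fun a => ∃ T : ℕ, T₀ ≤ T ∧ T ≤ T₁ ∧
      ε < |(∑ p ∈ PRI T, Real.log p * t p a) / T|).card : ℝ) ≤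
      K2 (Fintype.card J) A C / ε ^ 2 * (Real.log T₀ ^ 4 / T₀ + T₁ * Real.log T₁ ^ 4 / B) *
        (boxJ J B).card := by
  have hl : 0 < Real.log 2 := Real.log_pos (by norm_num)
  have hT0 : (2 : ℝ) ≤ T₀ := by exact_mod_cast hT₀
  have hA := ht.A_nonneg
  have hK2 : 0 ≤ K2 (Fintype.card J) A C := by
    unfold K2
    positivity
  by_cases h01 : T₁ < T₀
  · have : ((boxJ J B).filter fun a => ∃ T : ℕ, T₀ ≤ T ∧ T ≤ T₁ ∧
      ε < |(∑ p ∈ PRI T, Real.log p * t p a) / T|) = ∅ := by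
      rw [Finset.filter_eq_empty_iff]
      rintro a _ ⟨T, h1, h2, _⟩
      omega
    rw [this, Finset.card_empty, Nat.cast_zero]
    have h2 : 0 ≤ Real.log T₀ ^ 4 / T₀ + T₁ * Real.log T₁ ^ 4 / B := by positivity
    positivity
  push Not at h01
  have hT2 : 2 ≤ T₁ := hT₀.trans h01
  have hB1 : 1 ≤ B := by omega
  have hBr : (0 : ℝ) < B := by exact_mod_cast hB1
  obtain ⟨j0, hj0⟩ : ∃ j0, j0 = Nat.log 2 T₀ := ⟨_, rfl⟩
  obtain ⟨j1, hj1⟩ : ∃ j1, j1 = Nat.log 2 T₁ := ⟨_, rfl⟩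
  have hj01 : 1 ≤ j0 := by
    rw [hj0]; exact Nat.log_pos (by norm_num) hT₀
  obtain ⟨D, hD⟩ : ∃ D : ℝ, D = SC J B * (2 * A + 4 * C ^ 2) := ⟨_, rfl⟩
  have hD0 : 0 ≤ D := by
    rw [hD]
    exact mul_nonneg (SC_nonneg B) (by positivity)
  have hsub : ((boxJ J B).filter fun a => ∃ T : ℕ, T₀ ≤ T ∧ T ≤ T₁ ∧
      ε < |(∑ p ∈ PRI T, Real.log p * t p a) / T|) ⊆
      (Icc j0 j1).biUnion fun j => (boxJ J B).filter fun a =>
        ((2 : ℝ) ^ j * ε) ^ 2 < RM (xJ t (KK B j) a) (j + 1) 0 := by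
    intro a ha
    obtain ⟨ha1, T, h1, h2, h3⟩ := Finset.mem_filter.1 ha
    rw [Finset.mem_biUnion]
    refine ⟨Nat.log 2 T, ?_, ?_⟩
    · rw [Finset.mem_Icc, hj0, hj1]
      exact ⟨Nat.log_mono_right h1, Nat.log_mono_right h2⟩
    · rw [Finset.mem_filter]
      refine ⟨ha1, lt_of_le_of_lt ?_ (exceed' (hT₀.trans h1) (h2.trans hT₁) hε.le h3)⟩
      have hpow : (2 : ℝ) ^ Nat.log 2 T ≤ T := by
        have := Nat.pow_log_le_self 2 (by omega : T ≠ 0)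
        exact_mod_cast this
      exact pow_le_pow_left₀ (by positivity) (mul_le_mul_of_nonneg_right hpow hε.le) 2
  have h1 : (((boxJ J B).filter fun a => ∃ T : ℕ, T₀ ≤ T ∧ T ≤ T₁ ∧
      ε < |(∑ p ∈ PRI T, Real.log p * t p a) / T|).card : ℝ) ≤
      ∑ j ∈ Icc j0 j1, D * (72 / ε ^ 2) * ((j : ℝ) ^ 4 * 2 ^ j / B + 2 * ((j : ℝ) ^ 4 / 2 ^ j)) := by
    have h2 := (Finset.card_le_card hsub).trans Finset.card_biUnion_le
    have h3 : (((boxJ J B).filter fun a => ∃ T : ℕ, T₀ ≤ T ∧ T ≤ T₁ ∧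
      ε < |(∑ p ∈ PRI T, Real.log p * t p a) / T|).card : ℝ) ≤
        ∑ j ∈ Icc j0 j1, (((boxJ J B).filter fun a =>
        ((2 : ℝ) ^ j * ε) ^ 2 < RM (xJ t (KK B j) a) (j + 1) 0).card : ℝ) := by
      exact_mod_cast h2
    refine h3.trans (Finset.sum_le_sum fun j hj => ?_)
    have hj' : 1 ≤ j := hj01.trans (Finset.mem_Icc.1 hj).1
    have h4 := block ht hB1 hj' (X := ((2 : ℝ) ^ j * ε) ^ 2) (by positivity)
    refine h4.trans (le_of_eq ?_)
    rw [← hD]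
    have h5 : (4 : ℝ) ^ j = 2 ^ j * 2 ^ j := by
      rw [← mul_pow]
      norm_num
    rw [h5]
    field_simp
  refine h1.trans ?_
  rw [← Finset.mul_sum, Finset.sum_add_distrib, ← Finset.sum_div, ← Finset.mul_sum]
  have e1 := sum_high j0 j1
  have e2 := sum_low (j1 := j1) hj01
  have hp1 : (2 : ℝ) ^ j1 ≤ T₁ := by
    have := Nat.pow_log_le_self 2 (by omega : T₁ ≠ 0)
    rw [← hj1] at this
    exact_mod_cast this
  have hp0 : (T₀ : ℝ) ≤ 2 * 2 ^ j0 := by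
    have := (Nat.lt_pow_succ_log_self (b := 2) (by norm_num) T₀).le
    rw [← hj0, pow_succ, mul_comm] at this
    exact_mod_cast this
  have hq0 : (j0 : ℝ) ^ 4 ≤ Real.log T₀ ^ 4 / Real.log 2 ^ 4 := by
    rw [← div_pow]
    apply pow_le_pow_left₀ (Nat.cast_nonneg _)
    rw [le_div_iff₀ hl, hj0]
    exact log_block hT₀
  have hq1 : (j1 : ℝ) ^ 4 ≤ Real.log T₁ ^ 4 / Real.log 2 ^ 4 := by
    rw [← div_pow]
    apply pow_le_pow_left₀ (Nat.cast_nonneg _)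
    rw [le_div_iff₀ hl, hj1]
    exact log_block hT2
  have hT0r : (0 : ℝ) < T₀ := by linarith
  have e3 : (j1 : ℝ) ^ 4 * 2 ^ j1 ≤ Real.log T₁ ^ 4 / Real.log 2 ^ 4 * T₁ :=
    mul_le_mul hq1 hp1 (by positivity) (by positivity)
  have e4 : (j0 : ℝ) ^ 4 / 2 ^ j0 ≤ Real.log T₀ ^ 4 / Real.log 2 ^ 4 * (2 / T₀) := by
    rw [div_eq_mul_one_div]
    apply mul_le_mul hq0 _ (by positivity) (by positivity)
    rw [div_le_div_iff₀ (by positivity) hT0r]
    linarith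
  have e5 : (∑ j ∈ Icc j0 j1, (j : ℝ) ^ 4 * 2 ^ j) / B + 2 * ∑ j ∈ Icc j0 j1, (j : ℝ) ^ 4 / 2 ^ j ≤
      (104976 / Real.log 2 ^ 4) * (Real.log T₀ ^ 4 / T₀ + T₁ * Real.log T₁ ^ 4 / B) := by
    have f1 : (∑ j ∈ Icc j0 j1, (j : ℝ) ^ 4 * 2 ^ j) / B ≤
        (2 * (Real.log T₁ ^ 4 / Real.log 2 ^ 4 * T₁)) / B := by
      apply div_le_div_of_nonneg_right _ hBr.le
      linarith
    have f2 : (2 * (Real.log T₁ ^ 4 / Real.log 2 ^ 4 * T₁)) / B =
        2 / Real.log 2 ^ 4 * (T₁ * Real.log T₁ ^ 4 / B) := by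
      field_simp
    have f3 : 2 * ∑ j ∈ Icc j0 j1, (j : ℝ) ^ 4 / 2 ^ j ≤
        2 * (26244 * (Real.log T₀ ^ 4 / Real.log 2 ^ 4 * (2 / T₀))) := by
      have := mul_le_mul_of_nonneg_left e4 (by norm_num : (0 : ℝ) ≤ 26244)
      linarith
    have f4 : 2 * (26244 * (Real.log T₀ ^ 4 / Real.log 2 ^ 4 * (2 / T₀))) =
        104976 / Real.log 2 ^ 4 * (Real.log T₀ ^ 4 / T₀) := by
      field_simp
      ring
    have f5 : 2 / Real.log 2 ^ 4 * (T₁ * Real.log T₁ ^ 4 / B) ≤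
        104976 / Real.log 2 ^ 4 * (T₁ * Real.log T₁ ^ 4 / B) := by
      apply mul_le_mul_of_nonneg_right _ (by positivity)
      apply div_le_div_of_nonneg_right (by norm_num) (by positivity)
    linarith
  refine (mul_le_mul_of_nonneg_left e5 (by positivity)).trans (le_of_eq ?_)
  rw [hD]
  unfold K2 SC
  field_simp
  ring

end Fin

end Pool.Agent.Helper25.FM
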