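import Pool.Agent.Helper25.FM.Hm
import Pool.Agent.Helper25.FM.Fin

/-!
# A thin exceptional set
-/

set_option autoImplicit false

namespace Pool.Agent.Helper25.FM

open Finset
open Pool.Agent.Helper29.TT

section Dev

variable {J : Type} [Fintype J] [DecidableEq J] {t : ℕ → (J → ℤ) → ℝ} {L : ℝ}

/-- Bounded families are families. -/
lemma FamB.fam (ht : FamB t L) : Fam t (L ^ 2) 0 := by
  refine ⟨sq_nonneg _, le_rfl, fun p hp => ?_⟩
  obtain ⟨f, hf, hf1, hf2⟩ := ht.f p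
  refine ⟨f, hf, ?_, by rw [hf2]; simp⟩
  calc ∑ u, f u ^ 2 ≤ ∑ _u : J → ZMod p, L ^ 2 := by
        refine Finset.sum_le_sum fun u _ => ?_
        rw [← sq_abs]
        exact pow_le_pow_left₀ (abs_nonneg _) (hf1 u) 2
    _ = _ := by
        rw [Finset.sum_const, Finset.card_univ, Fintype.card_fun, ZMod.card, nsmul_eq_mul]
        push_cast
        ring

open Classical in
/-- Large deviations for one `T`. -/
lemma dev1 (ht : FamB t L) {T B k : ℕ} (hT : 2 ≤ T) (hk : 1 ≤ k) (hTB : T ^ (2 * k) ≤ B) {ε : ℝ} (hε : 0 < ε) :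
    (((boxJ J B).filter fun a => ε < |(∑ p ∈ PRI T, Real.log p * t p a) / T|).card : ℝ) ≤
      8 ^ Fintype.card J * (boxJ J B).card *
        (2 * (6 * k * (L ^ 2 + 1) * Real.log T ^ 2 / (ε ^ 2 * T)) ^ k) := by
  have hT0 : (0 : ℝ) < T := by exact_mod_cast (by omega : 0 < T)
  have hlT : 0 < Real.log T := Real.log_pos (by exact_mod_cast (by omega : 1 < T))
  have hk0 : (0 : ℝ) < k := by exact_mod_cast hk
  obtain ⟨σ, hσ⟩ : ∃ σ, σ = (L ^ 2 + 1) * (T * Real.log T ^ 2) := ⟨_, rfl⟩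
  have hσ0 : 0 < σ := by rw [hσ]; positivity
  have hPT : ∀ p ∈ PRI T, p.Prime ∧ p ≤ T := by
    intro p hp
    unfold PRI at hp
    rw [Finset.mem_filter, Finset.mem_Icc] at hp
    exact ⟨hp.2, hp.1.2⟩
  have hsum : ∑ p ∈ PRI T, Real.log p ^ 2 ≤ T * Real.log T ^ 2 := by
    calc ∑ p ∈ PRI T, Real.log p ^ 2 ≤ ∑ _p ∈ PRI T, Real.log T ^ 2 := by
          refine Finset.sum_le_sum fun p hp => ?_
          obtain ⟨h1, h2⟩ := hPT p hp
          apply pow_le_pow_left₀ (Real.log_nonneg (by exact_mod_cast h1.one_le))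
          exact Real.log_le_log (by exact_mod_cast h1.pos) (by exact_mod_cast h2)
      _ = (PRI T).card * Real.log T ^ 2 := by rw [Finset.sum_const, nsmul_eq_mul]
      _ ≤ _ := by
        apply mul_le_mul_of_nonneg_right _ (by positivity)
        have h1 : (PRI T).card ≤ (Icc 1 T).card := Finset.card_filter_le _ _
        rw [Nat.card_Icc] at h1
        exact_mod_cast (by omega : (PRI T).card ≤ T)
  have hσ' : L ^ 2 * ∑ p ∈ PRI T, Real.log p ^ 2 ≤ σ := by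
    rw [hσ]
    have h1 := mul_le_mul_of_nonneg_left hsum (sq_nonneg L)
    have h2 : 0 ≤ T * Real.log T ^ 2 := by positivity
    nlinarith
  have h1 := hm ht T B hk (by omega) hTB (PRI T) hPT (fun p => Real.log p) hσ0 hσ'
  obtain ⟨X, hX⟩ : ∃ X : ℝ, X = (ε * T) ^ (2 * k) := ⟨_, rfl⟩
  have hX0 : 0 < X := by rw [hX]; positivity
  have h2 : (((boxJ J B).filter fun a => ε < |(∑ p ∈ PRI T, Real.log p * t p a) / T|).card : ℝ) * X ≤
      ∑ a ∈ boxJ J B, (∑ p ∈ PRI T, Real.log p * t p a) ^ (2 * k) := by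
    calc _ = ∑ _a ∈ (boxJ J B).filter fun a => ε < |(∑ p ∈ PRI T, Real.log p * t p a) / T|, X := by
          rw [Finset.sum_const, nsmul_eq_mul]
      _ ≤ ∑ a ∈ (boxJ J B).filter fun a => ε < |(∑ p ∈ PRI T, Real.log p * t p a) / T|,
          (∑ p ∈ PRI T, Real.log p * t p a) ^ (2 * k) := by
          refine Finset.sum_le_sum fun a ha => ?_
          have h3 := (Finset.mem_filter.1 ha).2
          rw [abs_div, abs_of_pos hT0, lt_div_iff₀ hT0] at h3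
          have h4 : (∑ p ∈ PRI T, Real.log p * t p a) ^ (2 * k) = |∑ p ∈ PRI T, Real.log p * t p a| ^ (2 * k) := by
            rw [pow_mul, pow_mul, sq_abs]
          rw [h4, hX]
          exact pow_le_pow_left₀ (by positivity) h3.le _
      _ ≤ _ := Finset.sum_le_sum_of_subset_of_nonneg (Finset.filter_subset _ _) fun a _ _ => by
          rw [pow_mul]
          positivity
  rw [← mul_le_mul_iff_left₀ hX0]
  refine h2.trans (h1.trans (le_of_eq ?_))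
  rw [hX, hσ, pow_mul (ε * (T : ℝ)) 2 k, mul_assoc (8 ^ Fintype.card J * _), mul_assoc 2, ← mul_pow]
  congr 3
  field_simp

/-- The constant. -/
noncomputable def K3 (n : ℕ) (L δ ε : ℝ) : ℝ :=
  (8 ^ n * 2 + 3 * (K2 n (L ^ 2) 0 / ε ^ 2) * (192 / δ) ^ 4) +
    Real.exp ((3 * (L ^ 2 + 1) / (ε ^ 2 * (δ / 6))) ^ (6 / δ))

lemma K2_nonneg (n : ℕ) : 0 ≤ K2 n (L ^ 2) 0 := by
  unfold K2
  have : 0 < Real.log 2 := Real.log_pos (by norm_num)
  positivity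

/-- The base of the power is small. -/
lemma base_small {T B k : ℕ} {δ ε : ℝ} (hδ : 0 < δ) (hε : 0 < ε) (hT : 2 ≤ T)
    (hTB : T ^ (2 * k) ≤ B) (h1 : Real.log B ≤ (T : ℝ) ^ (1 - δ / 2))
    (h2 : 3 * (L ^ 2 + 1) / (ε ^ 2 * (δ / 6)) ≤ (T : ℝ) ^ (δ / 6)) :
    6 * k * (L ^ 2 + 1) * Real.log T ^ 2 / (ε ^ 2 * T) ≤ (T : ℝ) ^ (-(δ / 6)) := by
  have hT0 : (0 : ℝ) < T := by exact_mod_cast (by omega : 0 < T)
  have hlT : 0 < Real.log T := Real.log_pos (by exact_mod_cast (by omega : 1 < T))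
  have h3 : 2 * k * Real.log T ≤ Real.log B := by
    have h4 : Real.log ((T : ℝ) ^ (2 * k)) ≤ Real.log B :=
      Real.log_le_log (by positivity) (by exact_mod_cast hTB)
    rw [Real.log_pow] at h4
    push_cast at h4
    exact h4
  have h5 : Real.log T ≤ (T : ℝ) ^ (δ / 6) / (δ / 6) := Real.log_le_rpow_div hT0.le (by positivity)
  have e1 : 6 * k * (L ^ 2 + 1) * Real.log T ^ 2 ≤
      3 * (L ^ 2 + 1) * ((T : ℝ) ^ (1 - δ / 2)) * ((T : ℝ) ^ (δ / 6) / (δ / 6)) := by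
    calc 6 * k * (L ^ 2 + 1) * Real.log T ^ 2 = 3 * (L ^ 2 + 1) * (2 * k * Real.log T) * Real.log T := by ring
      _ ≤ 3 * (L ^ 2 + 1) * ((T : ℝ) ^ (1 - δ / 2)) * ((T : ℝ) ^ (δ / 6) / (δ / 6)) := by
        apply mul_le_mul _ h5 hlT.le (by positivity)
        exact mul_le_mul_of_nonneg_left (h3.trans h1) (by positivity)
  rw [div_le_iff₀ (by positivity)]
  refine e1.trans ?_
  have e2 : (T : ℝ) ^ (-(δ / 6)) * (ε ^ 2 * T) = ε ^ 2 * (T : ℝ) ^ (1 - δ / 6) := by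
    have h6 : (T : ℝ) ^ (1 - δ / 6) = (T : ℝ) ^ (-(δ / 6)) * T := by
      rw [show (1 : ℝ) - δ / 6 = -(δ / 6) + 1 by ring, Real.rpow_add hT0, Real.rpow_one]
    rw [h6]
    ring
  have e3 : 3 * (L ^ 2 + 1) * ((T : ℝ) ^ (1 - δ / 2)) * ((T : ℝ) ^ (δ / 6) / (δ / 6)) =
      (3 * (L ^ 2 + 1) / (ε ^ 2 * (δ / 6))) * (ε ^ 2 * (T : ℝ) ^ (1 - δ / 3)) := by
    have h6 : (T : ℝ) ^ (1 - δ / 3) = (T : ℝ) ^ (1 - δ / 2) * (T : ℝ) ^ (δ / 6) := by
      rw [← Real.rpow_add hT0]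
      congr 1
      ring
    rw [h6]
    field_simp
  rw [e2, e3]
  have e4 : (T : ℝ) ^ (1 - δ / 6) = (T : ℝ) ^ (δ / 6) * (T : ℝ) ^ (1 - δ / 3) := by
    rw [← Real.rpow_add hT0]
    congr 1
    ring
  rw [e4]
  have h7 : 0 ≤ ε ^ 2 * (T : ℝ) ^ (1 - δ / 3) := by positivity
  calc _ ≤ (T : ℝ) ^ (δ / 6) * (ε ^ 2 * (T : ℝ) ^ (1 - δ / 3)) := mul_le_mul_of_nonneg_right h2 h7
    _ = _ := by ring

omit [Fintype J] [DecidableEq J] in
lemma two_le_of_lt {T : ℕ} {a : J → ℤ} {ε : ℝ} (hε : 0 < ε)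
    (h : ε < |(∑ p ∈ PRI T, Real.log p * t p a) / T|) : 2 ≤ T := by
  by_contra hT
  have h1 : PRI T = ∅ := by
    unfold PRI
    rw [Finset.filter_eq_empty_iff]
    intro p hp hpp
    have := (Finset.mem_Icc.1 hp).2
    have := hpp.two_le
    omega
  rw [h1, Finset.sum_empty, zero_div, abs_zero] at h
  linarith

/-- The number of the exceptional vectors for one `T ≤ B ^ (δ / 24)`. -/
lemma pow_small {T B k : ℕ} {δ x : ℝ} (hδ : 0 < δ) (hδ1 : δ ≤ 1) (hT : 2 ≤ T) (hB : 2 ≤ B)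
    (hBT : B < T ^ (2 * k + 2)) (hTη : (T : ℝ) ≤ (B : ℝ) ^ (δ / 24)) (hx0 : 0 ≤ x)
    (hx : x ≤ (T : ℝ) ^ (-(δ / 6))) : x ^ k ≤ (B : ℝ) ^ (-(δ / 24) - δ / 48) := by
  have hT0 : (0 : ℝ) < T := by exact_mod_cast (by omega : 0 < T)
  have hB0 : (0 : ℝ) < B := by exact_mod_cast (by omega : 0 < B)
  have hB1 : (1 : ℝ) ≤ B := by exact_mod_cast (by omega : 1 ≤ B)
  have h1 : (B : ℝ) ^ (1 / 2 : ℝ) ≤ (T : ℝ) ^ (k + 1) := by
    have h2 : (B : ℝ) ≤ ((T : ℝ) ^ (k + 1)) ^ (2 : ℝ) := by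
      rw [Real.rpow_two, ← pow_mul]
      have : B ≤ T ^ ((k + 1) * 2) := by
        rw [show (k + 1) * 2 = 2 * k + 2 by ring]
        exact hBT.le
      exact_mod_cast this
    calc (B : ℝ) ^ (1 / 2 : ℝ) ≤ (((T : ℝ) ^ (k + 1)) ^ (2 : ℝ)) ^ (1 / 2 : ℝ) :=
          Real.rpow_le_rpow hB0.le h2 (by norm_num)
      _ = (T : ℝ) ^ (k + 1) := by
          rw [← Real.rpow_mul (by positivity)]
          norm_num
  have h3 : ((T : ℝ) ^ (-(δ / 6))) ^ k = ((T : ℝ) ^ (k + 1)) ^ (-(δ / 6)) * (T : ℝ) ^ (δ / 6) := by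
    rw [← Real.rpow_natCast ((T : ℝ) ^ (-(δ / 6))) k, ← Real.rpow_mul hT0.le,
      ← Real.rpow_natCast (T : ℝ) (k + 1), ← Real.rpow_mul hT0.le, ← Real.rpow_add hT0]
    congr 1
    push_cast
    ring
  have h4 : ((T : ℝ) ^ (k + 1)) ^ (-(δ / 6)) ≤ (B : ℝ) ^ (-(δ / 12)) := by
    have h5 : ((T : ℝ) ^ (k + 1)) ^ (-(δ / 6)) ≤ ((B : ℝ) ^ (1 / 2 : ℝ)) ^ (-(δ / 6)) :=
      Real.rpow_le_rpow_of_nonpos (by positivity) h1 (by linarith)
    refine h5.trans (le_of_eq ?_)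
    rw [← Real.rpow_mul hB0.le]
    congr 1
    ring
  have h6 : (T : ℝ) ^ (δ / 6) ≤ (B : ℝ) ^ (δ / 24 * (δ / 6)) := by
    rw [Real.rpow_mul hB0.le]
    exact Real.rpow_le_rpow hT0.le hTη (by positivity)
  calc x ^ k ≤ ((T : ℝ) ^ (-(δ / 6))) ^ k := pow_le_pow_left₀ hx0 hx k
    _ ≤ (B : ℝ) ^ (-(δ / 12)) * (B : ℝ) ^ (δ / 24 * (δ / 6)) := by
        rw [h3]
        exact mul_le_mul h4 h6 (by positivity) (by positivity)
    _ = (B : ℝ) ^ (-(δ / 12) + δ / 24 * (δ / 6)) := by rw [← Real.rpow_add hB0]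
    _ ≤ _ := by
        apply Real.rpow_le_rpow_of_exponent_le hB1
        nlinarith

open Classical in
/-- The sum over the small `T`. -/
lemma small_T (ht : FamB t L) {B : ℕ} (hB : 2 ≤ B) {δ ε : ℝ} (hδ : 0 < δ) (hδ1 : δ ≤ 1) (hε : 0 < ε) :
    (((boxJ J B).filter fun a => ∃ T : ℕ, (T : ℝ) ≤ (B : ℝ) ^ (δ / 24) ∧
      Real.log B ≤ (T : ℝ) ^ (1 - δ / 2) ∧ 3 * (L ^ 2 + 1) / (ε ^ 2 * (δ / 6)) ≤ (T : ℝ) ^ (δ / 6) ∧
      ε < |(∑ p ∈ PRI T, Real.log p * t p a) / T|).card : ℝ) ≤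
      8 ^ Fintype.card J * 2 * (B : ℝ) ^ (-(δ / 48)) * (boxJ J B).card := by
  have hB0 : (0 : ℝ) < B := by exact_mod_cast (by omega : 0 < B)
  have hB1 : (1 : ℝ) ≤ B := by exact_mod_cast (by omega : 1 ≤ B)
  obtain ⟨N, hN⟩ : ∃ N : ℕ, N = ⌊(B : ℝ) ^ (δ / 24)⌋₊ := ⟨_, rfl⟩
  have hNr : (N : ℝ) ≤ (B : ℝ) ^ (δ / 24) := by
    rw [hN]
    exact Nat.floor_le (by positivity)
  set E : ℕ → Finset (J → ℤ) := fun T => (boxJ J B).filter fun a =>
    (T : ℝ) ≤ (B : ℝ) ^ (δ / 24) ∧ Real.log B ≤ (T : ℝ) ^ (1 - δ / 2) ∧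
      3 * (L ^ 2 + 1) / (ε ^ 2 * (δ / 6)) ≤ (T : ℝ) ^ (δ / 6) ∧
      ε < |(∑ p ∈ PRI T, Real.log p * t p a) / T| with hE
  have hsub : ((boxJ J B).filter fun a => ∃ T : ℕ, (T : ℝ) ≤ (B : ℝ) ^ (δ / 24) ∧
      Real.log B ≤ (T : ℝ) ^ (1 - δ / 2) ∧ 3 * (L ^ 2 + 1) / (ε ^ 2 * (δ / 6)) ≤ (T : ℝ) ^ (δ / 6) ∧
      ε < |(∑ p ∈ PRI T, Real.log p * t p a) / T|) ⊆ (Icc 1 N).biUnion E := by
    intro a ha
    obtain ⟨ha1, T, h1, h2, h3, h4⟩ := Finset.mem_filter.1 ha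
    rw [Finset.mem_biUnion]
    have hT2 := two_le_of_lt hε h4
    refine ⟨T, Finset.mem_Icc.2 ⟨by omega, by rw [hN]; exact Nat.le_floor h1⟩, ?_⟩
    rw [hE]
    exact Finset.mem_filter.2 ⟨ha1, h1, h2, h3, h4⟩
  have hb0 : (0 : ℝ) ≤ (boxJ J B).card := Nat.cast_nonneg _
  have hone : ∀ T ∈ Icc 1 N, ((E T).card : ℝ) ≤
      8 ^ Fintype.card J * (boxJ J B).card * (2 * (B : ℝ) ^ (-(δ / 24) - δ / 48)) := by
    intro T _
    by_cases hne : (E T).Nonempty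
    · obtain ⟨a, ha⟩ := hne
      rw [hE] at ha
      obtain ⟨_, h1, h2, h3, h4⟩ := Finset.mem_filter.1 ha
      have hT2 := two_le_of_lt hε h4
      obtain ⟨k, hk⟩ : ∃ k, k = Nat.log T B / 2 := ⟨_, rfl⟩
      have hTB2 : T ^ 2 ≤ B := by
        have e1 : ((T : ℝ)) ^ 2 ≤ B := by
          calc (T : ℝ) ^ 2 ≤ ((B : ℝ) ^ (δ / 24)) ^ 2 := pow_le_pow_left₀ (Nat.cast_nonneg _) h1 2
            _ = (B : ℝ) ^ (δ / 24 * 2) := by
              rw [← Real.rpow_natCast, ← Real.rpow_mul hB0.le]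
              norm_num
            _ ≤ (B : ℝ) ^ (1 : ℝ) := Real.rpow_le_rpow_of_exponent_le hB1 (by linarith)
            _ = B := Real.rpow_one _
        exact_mod_cast e1
      have hlog : 2 ≤ Nat.log T B := by
        exact Nat.le_log_of_pow_le (by omega) hTB2
      have hk1 : 1 ≤ k := by omega
      have hTk : T ^ (2 * k) ≤ B := by
        refine le_trans (Nat.pow_le_pow_right (by omega) (by omega : 2 * k ≤ Nat.log T B)) ?_
        exact Nat.pow_log_le_self T (by omega)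
      have hBT : B < T ^ (2 * k + 2) := by
        have e5 : B < T ^ (Nat.log T B + 1) := Nat.lt_pow_succ_log_self (by omega : 1 < T) B
        exact lt_of_lt_of_le e5 (Nat.pow_le_pow_right (by omega) (by omega))
      have hlT : 0 < Real.log T := Real.log_pos (by exact_mod_cast (by omega : 1 < T))
      have hT0 : (0 : ℝ) < T := by exact_mod_cast (by omega : 0 < T)
      have h5 := dev1 ht hT2 hk1 hTk hε (B := B) (J := J)
      have h6 := base_small (L := L) hδ hε hT2 hTk h2 h3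
      have h7 := pow_small hδ hδ1 hT2 hB hBT h1
        (x := 6 * k * (L ^ 2 + 1) * Real.log T ^ 2 / (ε ^ 2 * T)) (by positivity) h6
      have h8 : ((E T).card : ℝ) ≤
          (((boxJ J B).filter fun a => ε < |(∑ p ∈ PRI T, Real.log p * t p a) / T|).card : ℝ) := by
        have : E T ⊆ (boxJ J B).filter fun a => ε < |(∑ p ∈ PRI T, Real.log p * t p a) / T| := by
          intro a ha
          rw [hE] at ha
          obtain ⟨g1, g2⟩ := Finset.mem_filter.1 ha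
          exact Finset.mem_filter.2 ⟨g1, g2.2.2.2⟩
        exact_mod_cast Finset.card_le_card this
      refine h8.trans (h5.trans ?_)
      apply mul_le_mul_of_nonneg_left _ (by positivity)
      linarith
    · rw [Finset.not_nonempty_iff_eq_empty] at hne
      rw [hne, Finset.card_empty, Nat.cast_zero]
      positivity
  have h1 : (((boxJ J B).filter fun a => ∃ T : ℕ, (T : ℝ) ≤ (B : ℝ) ^ (δ / 24) ∧
      Real.log B ≤ (T : ℝ) ^ (1 - δ / 2) ∧ 3 * (L ^ 2 + 1) / (ε ^ 2 * (δ / 6)) ≤ (T : ℝ) ^ (δ / 6) ∧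
      ε < |(∑ p ∈ PRI T, Real.log p * t p a) / T|).card : ℝ) ≤ ∑ T ∈ Icc 1 N, ((E T).card : ℝ) := by
    have h2 := (Finset.card_le_card hsub).trans Finset.card_biUnion_le
    exact_mod_cast h2
  refine h1.trans ((Finset.sum_le_sum hone).trans ?_)
  rw [Finset.sum_const, Nat.card_Icc, nsmul_eq_mul, Nat.add_sub_cancel]
  have h2 : (B : ℝ) ^ (-(δ / 24) - δ / 48) = (B : ℝ) ^ (-(δ / 24)) * (B : ℝ) ^ (-(δ / 48)) := by
    rw [← Real.rpow_add hB0]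
    congr 1
  have h3 : (N : ℝ) * (B : ℝ) ^ (-(δ / 24)) ≤ 1 := by
    calc (N : ℝ) * (B : ℝ) ^ (-(δ / 24)) ≤ (B : ℝ) ^ (δ / 24) * (B : ℝ) ^ (-(δ / 24)) :=
          mul_le_mul_of_nonneg_right hNr (by positivity)
      _ = 1 := by
          rw [← Real.rpow_add hB0, add_neg_cancel, Real.rpow_zero]
  rw [h2]
  calc (N : ℝ) * (8 ^ Fintype.card J * (boxJ J B).card * (2 * ((B : ℝ) ^ (-(δ / 24)) * (B : ℝ) ^ (-(δ / 48))))) =
      ((N : ℝ) * (B : ℝ) ^ (-(δ / 24))) * (8 ^ Fintype.card J * 2 * (B : ℝ) ^ (-(δ / 48)) * (boxJ J B).card) := by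
        ring
    _ ≤ 1 * (8 ^ Fintype.card J * 2 * (B : ℝ) ^ (-(δ / 48)) * (boxJ J B).card) :=
        mul_le_mul_of_nonneg_right h3 (by positivity)
    _ = _ := one_mul _

open Classical in
/-- The sum over the large `T`. -/
lemma large_T (ht : FamB t L) {B : ℕ} (hB : 2 ≤ B) {δ ε : ℝ} (hδ : 0 < δ) (hδ1 : δ ≤ 1) (hε : 0 < ε) :
    (((boxJ J B).filter fun a => ∃ T : ℕ, (B : ℝ) ^ (δ / 24) < T ∧ (T : ℝ) ≤ (B : ℝ) ^ (1 - δ) ∧
      ε < |(∑ p ∈ PRI T, Real.log p * t p a) / T|).card : ℝ) ≤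
      3 * (K2 (Fintype.card J) (L ^ 2) 0 / ε ^ 2) * (192 / δ) ^ 4 * (B : ℝ) ^ (-(δ / 48)) *
        (boxJ J B).card := by
  have hB0 : (0 : ℝ) < B := by exact_mod_cast (by omega : 0 < B)
  have hB1 : (1 : ℝ) ≤ B := by exact_mod_cast (by omega : 1 ≤ B)
  have hlB : 0 < Real.log B := Real.log_pos (by exact_mod_cast (by omega : 1 < B))
  obtain ⟨N, hN⟩ : ∃ N : ℕ, N = max 2 ⌊(B : ℝ) ^ (δ / 24)⌋₊ := ⟨_, rfl⟩
  obtain ⟨N₁, hN₁⟩ : ∃ N₁ : ℕ, N₁ = ⌊(B : ℝ) ^ (1 - δ)⌋₊ := ⟨_, rfl⟩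
  have hN2 : 2 ≤ N := by rw [hN]; exact le_max_left _ _
  have hN1r : (N₁ : ℝ) ≤ (B : ℝ) ^ (1 - δ) := by
    rw [hN₁]
    exact Nat.floor_le (by positivity)
  have hN1B : N₁ ≤ B := by
    have : (N₁ : ℝ) ≤ B := hN1r.trans (by
      calc (B : ℝ) ^ (1 - δ) ≤ (B : ℝ) ^ (1 : ℝ) := Real.rpow_le_rpow_of_exponent_le hB1 (by linarith)
        _ = B := Real.rpow_one _)
    exact_mod_cast this
  have hNB : N ≤ B := by
    rw [hN]
    apply max_le hB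
    have : ((⌊(B : ℝ) ^ (δ / 24)⌋₊ : ℕ) : ℝ) ≤ B := (Nat.floor_le (by positivity)).trans (by
      calc (B : ℝ) ^ (δ / 24) ≤ (B : ℝ) ^ (1 : ℝ) := Real.rpow_le_rpow_of_exponent_le hB1 (by linarith)
        _ = B := Real.rpow_one _)
    exact_mod_cast this
  have hNlow : (B : ℝ) ^ (δ / 24) ≤ 2 * N := by
    have h1 := (Nat.lt_floor_add_one ((B : ℝ) ^ (δ / 24))).le
    have h2 : ((⌊(B : ℝ) ^ (δ / 24)⌋₊ : ℕ) : ℝ) ≤ N := by
      rw [hN]
      exact_mod_cast le_max_right _ _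
    have h3 : (1 : ℝ) ≤ N := by exact_mod_cast (by omega : 1 ≤ N)
    linarith
  have hsub : ((boxJ J B).filter fun a => ∃ T : ℕ, (B : ℝ) ^ (δ / 24) < T ∧ (T : ℝ) ≤ (B : ℝ) ^ (1 - δ) ∧
      ε < |(∑ p ∈ PRI T, Real.log p * t p a) / T|) ⊆
      (boxJ J B).filter fun a => ∃ T : ℕ, N ≤ T ∧ T ≤ N₁ ∧ ε < |(∑ p ∈ PRI T, Real.log p * t p a) / T| := by
    intro a ha
    obtain ⟨ha1, T, h1, h2, h3⟩ := Finset.mem_filter.1 ha
    refine Finset.mem_filter.2 ⟨ha1, T, ?_, ?_, h3⟩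
    · rw [hN]
      apply max_le (two_le_of_lt hε h3)
      have h4 : ((⌊(B : ℝ) ^ (δ / 24)⌋₊ : ℕ) : ℝ) ≤ T := (Nat.floor_le (by positivity)).trans h1.le
      exact_mod_cast h4
    · rw [hN₁]
      exact Nat.le_floor h2
  have h1 := count2 ht.fam N N₁ B hN2 hN1B hε
  have h2 : (((boxJ J B).filter fun a => ∃ T : ℕ, (B : ℝ) ^ (δ / 24) < T ∧ (T : ℝ) ≤ (B : ℝ) ^ (1 - δ) ∧
      ε < |(∑ p ∈ PRI T, Real.log p * t p a) / T|).card : ℝ) ≤
      (((boxJ J B).filter fun a => ∃ T : ℕ, N ≤ T ∧ T ≤ N₁ ∧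
        ε < |(∑ p ∈ PRI T, Real.log p * t p a) / T|).card : ℝ) := by
    exact_mod_cast Finset.card_le_card hsub
  refine h2.trans (h1.trans ?_)
  apply mul_le_mul_of_nonneg_right _ (Nat.cast_nonneg _)
  have hNr : (0 : ℝ) < N := by exact_mod_cast (by omega : 0 < N)
  have hK := K2_nonneg (L := L) (Fintype.card J)
  -- the two terms
  have e1 : Real.log N ^ 4 / N ≤ Real.log B ^ 4 * (2 * (B : ℝ) ^ (-(δ / 24))) := by
    have f1 : Real.log N ≤ Real.log B := Real.log_le_log hNr (by exact_mod_cast hNB)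
    have f2 : 0 ≤ Real.log N := Real.log_nonneg (by exact_mod_cast (by omega : 1 ≤ N))
    have f3 : 1 / (N : ℝ) ≤ 2 * (B : ℝ) ^ (-(δ / 24)) := by
      rw [Real.rpow_neg hB0.le, ← div_eq_mul_inv, div_le_div_iff₀ hNr (by positivity)]
      linarith
    rw [div_eq_mul_one_div]
    exact mul_le_mul (pow_le_pow_left₀ f2 f1 4) f3 (by positivity) (by positivity)
  have e2 : N₁ * Real.log N₁ ^ 4 / B ≤ Real.log B ^ 4 * (B : ℝ) ^ (-(δ / 24)) := by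
    rcases Nat.eq_zero_or_pos N₁ with h0 | h0
    · rw [h0]
      simp only [Nat.cast_zero, zero_mul, zero_div]
      positivity
    · have f0 : (0 : ℝ) < N₁ := by exact_mod_cast h0
      have f1 : Real.log N₁ ≤ Real.log B := Real.log_le_log f0 (by exact_mod_cast hN1B)
      have f2 : 0 ≤ Real.log N₁ := Real.log_nonneg (by exact_mod_cast h0)
      have f3 : (N₁ : ℝ) / B ≤ (B : ℝ) ^ (-(δ / 24)) := by
        rw [div_le_iff₀ hB0]
        have f4 : (B : ℝ) ^ (-(δ / 24)) * B = (B : ℝ) ^ (1 - δ / 24) := by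
          rw [show (1 : ℝ) - δ / 24 = -(δ / 24) + 1 by ring, Real.rpow_add hB0, Real.rpow_one]
        rw [f4]
        exact hN1r.trans (Real.rpow_le_rpow_of_exponent_le hB1 (by linarith))
      calc N₁ * Real.log N₁ ^ 4 / B = Real.log N₁ ^ 4 * ((N₁ : ℝ) / B) := by ring
        _ ≤ _ := mul_le_mul (pow_le_pow_left₀ f2 f1 4) f3 (by positivity) (by positivity)
  have e3 : Real.log B ^ 4 ≤ (192 / δ) ^ 4 * (B : ℝ) ^ (δ / 48) := by
    have f1 : Real.log B ≤ (B : ℝ) ^ (δ / 192) / (δ / 192) := Real.log_le_rpow_div hB0.le (by positivity)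
    calc Real.log B ^ 4 ≤ ((B : ℝ) ^ (δ / 192) / (δ / 192)) ^ 4 := pow_le_pow_left₀ hlB.le f1 4
      _ = (192 / δ) ^ 4 * ((B : ℝ) ^ (δ / 192)) ^ 4 := by
        rw [div_pow]
        field_simp
      _ = (192 / δ) ^ 4 * (B : ℝ) ^ (δ / 48) := by
        congr 1
        rw [← Real.rpow_natCast, ← Real.rpow_mul hB0.le]
        congr 1
        push_cast
        ring
  have e4 : Real.log N ^ 4 / N + N₁ * Real.log N₁ ^ 4 / B ≤ 3 * (192 / δ) ^ 4 * (B : ℝ) ^ (-(δ / 48)) := by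
    have f1 : Real.log N ^ 4 / N + N₁ * Real.log N₁ ^ 4 / B ≤ 3 * (Real.log B ^ 4 * (B : ℝ) ^ (-(δ / 24))) := by
      linarith
    refine f1.trans ?_
    have f2 : Real.log B ^ 4 * (B : ℝ) ^ (-(δ / 24)) ≤
        ((192 / δ) ^ 4 * (B : ℝ) ^ (δ / 48)) * (B : ℝ) ^ (-(δ / 24)) :=
      mul_le_mul_of_nonneg_right e3 (by positivity)
    have f3 : ((192 / δ) ^ 4 * (B : ℝ) ^ (δ / 48)) * (B : ℝ) ^ (-(δ / 24)) =
        (192 / δ) ^ 4 * (B : ℝ) ^ (-(δ / 48)) := by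
      rw [mul_assoc, ← Real.rpow_add hB0]
      congr 2
      ring
    rw [f3] at f2
    linarith
  calc K2 (Fintype.card J) (L ^ 2) 0 / ε ^ 2 * (Real.log N ^ 4 / N + N₁ * Real.log N₁ ^ 4 / B) ≤
      K2 (Fintype.card J) (L ^ 2) 0 / ε ^ 2 * (3 * (192 / δ) ^ 4 * (B : ℝ) ^ (-(δ / 48))) :=
        mul_le_mul_of_nonneg_left e4 (by positivity)
    _ = _ := by ring

open Classical in
/-- **A thin exceptional set.** -/
theorem count3 (ht : FamB t L) {δ ε : ℝ} (hδ : 0 < δ) (hδ1 : δ ≤ 1) (hε : 0 < ε) (B : ℕ) :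
    (((boxJ J B).filter fun a => ∃ T : ℕ, Real.log B ^ (1 + δ) ≤ T ∧ (T : ℝ) ≤ (B : ℝ) ^ (1 - δ) ∧
      ε < |(∑ p ∈ PRI T, Real.log p * t p a) / T|).card : ℝ) ≤
      K3 (Fintype.card J) L δ ε * (B : ℝ) ^ (-(δ / 48)) * (boxJ J B).card := by
  have hK := K2_nonneg (L := L) (Fintype.card J)
  have hK3 : 0 ≤ K3 (Fintype.card J) L δ ε := by
    unfold K3
    positivity
  by_cases hB : B < 2
  · have h0 : ((boxJ J B).filter fun a => ∃ T : ℕ, Real.log B ^ (1 + δ) ≤ T ∧ (T : ℝ) ≤ (B : ℝ) ^ (1 - δ) ∧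
      ε < |(∑ p ∈ PRI T, Real.log p * t p a) / T|) = ∅ := by
      rw [Finset.filter_eq_empty_iff]
      rintro a _ ⟨T, -, h2, h3⟩
      have hT := two_le_of_lt hε h3
      have h4 : (B : ℝ) ^ (1 - δ) ≤ 1 := by
        apply Real.rpow_le_one (Nat.cast_nonneg _) _ (by linarith)
        exact_mod_cast (by omega : B ≤ 1)
      have h5 : (2 : ℝ) ≤ T := by exact_mod_cast hT
      linarith
    rw [h0, Finset.card_empty, Nat.cast_zero]
    positivity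
  push Not at hB
  have hB0 : (0 : ℝ) < B := by exact_mod_cast (by omega : 0 < B)
  have hB1 : (1 : ℝ) ≤ B := by exact_mod_cast (by omega : 1 ≤ B)
  have hlB : 0 < Real.log B := Real.log_pos (by exact_mod_cast (by omega : 1 < B))
  have hb0 : (0 : ℝ) ≤ (boxJ J B).card := Nat.cast_nonneg _
  obtain ⟨X, hX⟩ : ∃ X : ℝ, X = (3 * (L ^ 2 + 1) / (ε ^ 2 * (δ / 6))) ^ (6 / δ) := ⟨_, rfl⟩
  by_cases hBX : Real.log B < X
  · -- the trivial bound
    have h1 : (((boxJ J B).filter fun a => ∃ T : ℕ, Real.log B ^ (1 + δ) ≤ T ∧ (T : ℝ) ≤ (B : ℝ) ^ (1 - δ) ∧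
        ε < |(∑ p ∈ PRI T, Real.log p * t p a) / T|).card : ℝ) ≤ (boxJ J B).card := by
      exact_mod_cast Finset.card_filter_le _ _
    refine h1.trans ?_
    have h2 : 1 ≤ K3 (Fintype.card J) L δ ε * (B : ℝ) ^ (-(δ / 48)) := by
      have h3 : (B : ℝ) ^ (δ / 48) ≤ Real.exp X := by
        calc (B : ℝ) ^ (δ / 48) ≤ (B : ℝ) ^ (1 : ℝ) := Real.rpow_le_rpow_of_exponent_le hB1 (by linarith)
          _ = Real.exp (Real.log B) := by rw [Real.rpow_one, Real.exp_log hB0]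
          _ ≤ _ := Real.exp_le_exp.2 hBX.le
      have h4 : Real.exp X ≤ K3 (Fintype.card J) L δ ε := by
        unfold K3
        rw [← hX]
        have : 0 ≤ 8 ^ Fintype.card J * 2 + 3 * (K2 (Fintype.card J) (L ^ 2) 0 / ε ^ 2) * (192 / δ) ^ 4 := by
          positivity
        linarith
      have h5 : 0 < (B : ℝ) ^ (δ / 48) := by positivity
      rw [Real.rpow_neg hB0.le, ← div_eq_mul_inv, le_div_iff₀ h5, one_mul]
      exact h3.trans h4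
    calc ((boxJ J B).card : ℝ) = 1 * (boxJ J B).card := (one_mul _).symm
      _ ≤ _ := mul_le_mul_of_nonneg_right h2 hb0
  push Not at hBX
  have hsub : ((boxJ J B).filter fun a => ∃ T : ℕ, Real.log B ^ (1 + δ) ≤ T ∧ (T : ℝ) ≤ (B : ℝ) ^ (1 - δ) ∧
      ε < |(∑ p ∈ PRI T, Real.log p * t p a) / T|) ⊆
      ((boxJ J B).filter fun a => ∃ T : ℕ, (T : ℝ) ≤ (B : ℝ) ^ (δ / 24) ∧
        Real.log B ≤ (T : ℝ) ^ (1 - δ / 2) ∧ 3 * (L ^ 2 + 1) / (ε ^ 2 * (δ / 6)) ≤ (T : ℝ) ^ (δ / 6) ∧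
        ε < |(∑ p ∈ PRI T, Real.log p * t p a) / T|) ∪
      ((boxJ J B).filter fun a => ∃ T : ℕ, (B : ℝ) ^ (δ / 24) < T ∧ (T : ℝ) ≤ (B : ℝ) ^ (1 - δ) ∧
        ε < |(∑ p ∈ PRI T, Real.log p * t p a) / T|) := by
    intro a ha
    obtain ⟨ha1, T, h1, h2, h3⟩ := Finset.mem_filter.1 ha
    rw [Finset.mem_union]
    by_cases hTη : (T : ℝ) ≤ (B : ℝ) ^ (δ / 24)
    · left
      have hT2 := two_le_of_lt hε h3
      have hT0 : (0 : ℝ) < T := by exact_mod_cast (by omega : 0 < T)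
      have hT1 : (1 : ℝ) ≤ T := by exact_mod_cast (by omega : 1 ≤ T)
      have e1 : Real.log B ≤ (T : ℝ) ^ (1 - δ / 2) := by
        have f1 : Real.log B = (Real.log B ^ (1 + δ)) ^ (1 / (1 + δ)) := by
          rw [← Real.rpow_mul hlB.le, mul_one_div, div_self (by linarith), Real.rpow_one]
        rw [f1]
        calc (Real.log B ^ (1 + δ)) ^ (1 / (1 + δ)) ≤ (T : ℝ) ^ (1 / (1 + δ)) :=
              Real.rpow_le_rpow (by positivity) h1 (by positivity)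
          _ ≤ _ := by
            apply Real.rpow_le_rpow_of_exponent_le hT1
            rw [div_le_iff₀ (by linarith)]
            nlinarith
      have e2 : X ≤ T := by
        refine hBX.trans (e1.trans ?_)
        calc (T : ℝ) ^ (1 - δ / 2) ≤ (T : ℝ) ^ (1 : ℝ) := Real.rpow_le_rpow_of_exponent_le hT1 (by linarith)
          _ = T := Real.rpow_one _
      have e3 : 3 * (L ^ 2 + 1) / (ε ^ 2 * (δ / 6)) ≤ (T : ℝ) ^ (δ / 6) := by
        have hc : 0 ≤ 3 * (L ^ 2 + 1) / (ε ^ 2 * (δ / 6)) := by positivity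
        have f1 : 3 * (L ^ 2 + 1) / (ε ^ 2 * (δ / 6)) = X ^ (δ / 6) := by
          rw [hX, ← Real.rpow_mul hc]
          have : 6 / δ * (δ / 6) = 1 := by field_simp
          rw [this, Real.rpow_one]
        rw [f1]
        apply Real.rpow_le_rpow _ e2 (by positivity)
        rw [hX]
        positivity
      exact Finset.mem_filter.2 ⟨ha1, T, hTη, e1, e3, h3⟩
    · right
      push Not at hTη
      exact Finset.mem_filter.2 ⟨ha1, T, hTη, h2, h3⟩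
  have h1 := (Finset.card_le_card hsub).trans (Finset.card_union_le _ _)
  have h2 := small_T ht hB hδ hδ1 hε
  have h3 := large_T ht hB hδ hδ1 hε
  have h4 : (((boxJ J B).filter fun a => ∃ T : ℕ, Real.log B ^ (1 + δ) ≤ T ∧ (T : ℝ) ≤ (B : ℝ) ^ (1 - δ) ∧
      ε < |(∑ p ∈ PRI T, Real.log p * t p a) / T|).card : ℝ) ≤
      8 ^ Fintype.card J * 2 * (B : ℝ) ^ (-(δ / 48)) * (boxJ J B).card +
      3 * (K2 (Fintype.card J) (L ^ 2) 0 / ε ^ 2) * (192 / δ) ^ 4 * (B : ℝ) ^ (-(δ / 48)) * (boxJ J B).card := by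
    refine le_trans ?_ (add_le_add h2 h3)
    exact_mod_cast h1
  refine h4.trans ?_
  unfold K3
  have h5 : 0 ≤ Real.exp ((3 * (L ^ 2 + 1) / (ε ^ 2 * (δ / 6))) ^ (6 / δ)) * (B : ℝ) ^ (-(δ / 48)) * (boxJ J B).card := by
    positivity
  nlinarith

end Dev

end Pool.Agent.Helper25.FM
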