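import Pool.Agent.Helper29.TT.Box

/-!
# Fourier analysis modulo `M` in several variables and the large sieve

`ls`: the weighted second moment of a function whose Fourier transform is supported on a set `S` of
frequencies, each of which has at most `N` neighbours in `S`.
-/

set_option autoImplicit false

namespace Pool.Agent.Helper25.FM

open Finset
open Pool.Agent.Helper29.TT (ker kerC ker_eq WW WW_nonneg ker_nonneg)

section Ft

variable {M : ℕ} [NeZero M] {J : Type} [Fintype J] [DecidableEq J]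

/-- The character with frequency `ν`. -/
noncomputable def ee (ν a : J → ZMod M) : ℂ := ZMod.stdAddChar (∑ j, ν j * a j)

omit [DecidableEq J] in
lemma ee_comm (ν a : J → ZMod M) : ee ν a = ee a ν := by
  unfold ee
  simp_rw [mul_comm]

omit [DecidableEq J] in
lemma ee_add (ν μ a : J → ZMod M) : ee (ν + μ) a = ee ν a * ee μ a := by
  unfold ee
  rw [← AddChar.map_add_eq_mul, ← Finset.sum_add_distrib]
  congr 1
  refine Finset.sum_congr rfl fun j _ => ?_
  rw [Pi.add_apply, add_mul]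

omit [DecidableEq J] in
lemma ee_zero (a : J → ZMod M) : ee 0 a = 1 := by
  unfold ee
  simp

omit [DecidableEq J] in
lemma ee_neg_mul (ν a : J → ZMod M) : ee (-ν) a * ee ν a = 1 := by
  rw [← ee_add, neg_add_cancel, ee_zero]

omit [DecidableEq J] in
lemma ee_conj (ν a : J → ZMod M) : (starRingEnd ℂ) (ee ν a) = ee (-ν) a := by
  unfold ee
  rw [← AddChar.map_neg_eq_conj]
  congr 1
  rw [← Finset.sum_neg_distrib]
  refine Finset.sum_congr rfl fun j _ => ?_
  rw [Pi.neg_apply, neg_mul]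

omit [DecidableEq J] in
lemma ee_prod (ν a : J → ZMod M) : ee ν a = ∏ j, (ZMod.stdAddChar (ν j * a j) : ℂ) := by
  classical
  unfold ee
  have h : ∀ s : Finset J, (ZMod.stdAddChar (∑ j ∈ s, ν j * a j) : ℂ) =
      ∏ j ∈ s, (ZMod.stdAddChar (ν j * a j) : ℂ) := by
    intro s
    induction s using Finset.induction_on with
    | empty => simp
    | insert x s hx ih => rw [Finset.sum_insert hx, Finset.prod_insert hx, AddChar.map_add_eq_mul, ih]
  exact h _

lemma sum_char (x : ZMod M) : ∑ y : ZMod M, (ZMod.stdAddChar (x * y) : ℂ) = if x = 0 then (M : ℂ) else 0 := by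
  have h := AddChar.sum_mulShift (ψ := (ZMod.stdAddChar (N := M))) x (ZMod.isPrimitive_stdAddChar M)
  rw [ZMod.card] at h
  rw [← Finset.sum_congr rfl fun y _ => congrArg (ZMod.stdAddChar (N := M)) (mul_comm y x), h]
  split_ifs <;> simp

lemma sum_ee (ν : J → ZMod M) :
    ∑ a, ee ν a = if ν = 0 then (M : ℂ) ^ Fintype.card J else 0 := by
  simp_rw [ee_prod]
  have h := Finset.prod_univ_sum (fun _ : J => (univ : Finset (ZMod M)))
    (fun j y => (ZMod.stdAddChar (ν j * y) : ℂ))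
  rw [Fintype.piFinset_univ] at h
  rw [← h, Finset.prod_congr rfl fun j _ => sum_char (ν j)]
  split_ifs with h0
  · subst h0
    simp
  · obtain ⟨j, hj⟩ := Function.ne_iff.1 h0
    exact Finset.prod_eq_zero (Finset.mem_univ j) (if_neg hj)

/-- The Fourier transform. -/
noncomputable def ft (u : (J → ZMod M) → ℝ) (ν : J → ZMod M) : ℂ := ∑ a, (u a : ℂ) * ee (-ν) a

lemma ft_inv (u : (J → ZMod M) → ℝ) (a : J → ZMod M) :
    ∑ ν, ft u ν * ee ν a = (M : ℂ) ^ Fintype.card J * (u a : ℂ) := by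
  unfold ft
  simp_rw [Finset.sum_mul]
  rw [Finset.sum_comm]
  have h1 : ∀ b : J → ZMod M, ∑ ν, (u b : ℂ) * ee (-ν) b * ee ν a =
      if b = a then (M : ℂ) ^ Fintype.card J * (u a : ℂ) else 0 := by
    intro b
    have h2 : ∀ ν : J → ZMod M, (u b : ℂ) * ee (-ν) b * ee ν a = (u b : ℂ) * ee (a - b) ν := by
      intro ν
      rw [mul_assoc, sub_eq_add_neg, ee_add, ee_comm ν a]
      have h3 : ee (-ν) b = ee (-b) ν := by
        unfold ee
        congr 1
        refine Finset.sum_congr rfl fun j _ => ?_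
        rw [Pi.neg_apply, Pi.neg_apply]
        ring
      rw [h3, mul_comm (ee (-b) ν)]
    simp_rw [h2]
    rw [← Finset.mul_sum, sum_ee]
    by_cases h : b = a
    · subst h
      rw [sub_self, if_pos rfl, if_pos rfl, mul_comm]
    · rw [if_neg h, if_neg (fun h' => h (sub_eq_zero.1 h').symm), mul_zero]
  rw [Finset.sum_congr rfl fun b _ => h1 b, Finset.sum_ite_eq' univ a, if_pos (Finset.mem_univ a)]

lemma ft_conj (u : (J → ZMod M) → ℝ) (ν : J → ZMod M) :
    (starRingEnd ℂ) (ft u ν) = ∑ a, (u a : ℂ) * ee ν a := by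
  unfold ft
  rw [map_sum]
  refine Finset.sum_congr rfl fun a _ => ?_
  rw [map_mul, Complex.conj_ofReal, ee_conj, neg_neg]

lemma parseval (u : (J → ZMod M) → ℝ) :
    ∑ ν, ‖ft u ν‖ ^ 2 = (M : ℝ) ^ Fintype.card J * ∑ a, u a ^ 2 := by
  have h : ((∑ ν, ‖ft u ν‖ ^ 2 : ℝ) : ℂ) = (((M : ℝ) ^ Fintype.card J * ∑ a, u a ^ 2 : ℝ) : ℂ) := by
    push_cast
    have h1 : ∀ ν, ((‖ft u ν‖ : ℂ)) ^ 2 = ∑ a, (u a : ℂ) * (ft u ν * ee ν a) := by
      intro ν
      rw [← Complex.mul_conj', ft_conj, Finset.mul_sum]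
      refine Finset.sum_congr rfl fun a _ => ?_
      ring
    simp_rw [h1]
    rw [Finset.sum_comm]
    simp_rw [← Finset.mul_sum, ft_inv]
    rw [Finset.mul_sum]
    refine Finset.sum_congr rfl fun a _ => ?_
    ring
  exact_mod_cast h

/-- The transform of the Fejer kernel. -/
noncomputable def kh (H : ℕ) (δ : ZMod M) : ℂ := ∑ x : ZMod M, (ker H x : ℂ) * ZMod.stdAddChar (δ * x)

lemma kh_eq (H : ℕ) (δ : ZMod M) : kh H δ = ∑ h ∈ range (H + 1), ∑ h' ∈ range (H + 1),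
    if ((h : ZMod M) - (h' : ZMod M)) + δ = 0 then (M : ℂ) else 0 := by
  unfold kh
  simp_rw [ker_eq, Finset.sum_mul]
  rw [Finset.sum_comm]
  refine Finset.sum_congr rfl fun h _ => ?_
  rw [Finset.sum_comm]
  refine Finset.sum_congr rfl fun h' _ => ?_
  rw [← sum_char]
  refine Finset.sum_congr rfl fun x _ => ?_
  rw [← AddChar.map_add_eq_mul, add_mul]

/-- Two frequencies with this difference are neighbours. -/
def Near (H : ℕ) (δ : J → ZMod M) : Prop := ∀ j, ∃ s : ℤ, |s| ≤ (H : ℤ) ∧ δ j = (s : ZMod M)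

lemma kh_zero {H : ℕ} {δ : ZMod M} (h : ¬ ∃ s : ℤ, |s| ≤ (H : ℤ) ∧ δ = (s : ZMod M)) : kh H δ = 0 := by
  rw [kh_eq]
  refine Finset.sum_eq_zero fun x hx => Finset.sum_eq_zero fun y hy => if_neg fun h0 => h ?_
  rw [Finset.mem_range] at hx hy
  refine ⟨(y : ℤ) - (x : ℤ), by rw [abs_le]; constructor <;> omega, ?_⟩
  push_cast
  rw [← sub_eq_zero]
  linear_combination h0

lemma kh_norm {H : ℕ} (hH : H < M) (δ : ZMod M) : ‖kh H δ‖ ≤ ((H : ℝ) + 1) * M := by
  rw [kh_eq]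
  have h1 : ∀ x ∈ range (H + 1), ‖∑ h' ∈ range (H + 1),
      if ((x : ZMod M) - (h' : ZMod M)) + δ = 0 then (M : ℂ) else 0‖ ≤ (M : ℝ) := by
    intro x _
    by_cases h2 : ∃ y ∈ range (H + 1), ((x : ZMod M) - (y : ZMod M)) + δ = 0
    · obtain ⟨y, hy, hxy⟩ := h2
      rw [Finset.sum_eq_single y, if_pos hxy]
      · rw [Complex.norm_natCast]
      · intro z hz hzy
        rw [if_neg]
        intro hxz
        apply hzy
        have h3 : (z : ZMod M) = (y : ZMod M) := by linear_combination hxy - hxz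
        rw [Finset.mem_range] at hy hz
        rw [ZMod.natCast_eq_natCast_iff'] at h3
        rwa [Nat.mod_eq_of_lt (by omega), Nat.mod_eq_of_lt (by omega)] at h3
      · intro h; exact absurd hy h
    · push Not at h2
      rw [Finset.sum_eq_zero fun y hy => if_neg (h2 y hy), norm_zero]
      exact Nat.cast_nonneg _
  refine (norm_sum_le _ _).trans ((Finset.sum_le_sum h1).trans (le_of_eq ?_))
  rw [Finset.sum_const, Finset.card_range, nsmul_eq_mul]
  push_cast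
  ring

/-- The transform of the weight. -/
lemma sum_WW_ee (H : ℕ) (δ : J → ZMod M) :
    ∑ a : J → ZMod M, (WW H a : ℂ) * ee δ a = ∏ j, kh H (δ j) := by
  have h := Finset.prod_univ_sum (fun _ : J => (univ : Finset (ZMod M)))
    (fun j y => (ker H y : ℂ) * (ZMod.stdAddChar (δ j * y) : ℂ))
  rw [Fintype.piFinset_univ] at h
  unfold kh
  rw [h]
  refine Finset.sum_congr rfl fun a _ => ?_
  rw [Finset.prod_mul_distrib, ← ee_prod]
  congr 1
  unfold WW
  push_cast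
  rfl

lemma norm_WW_ee {H : ℕ} (hH : H < M) (δ : J → ZMod M) :
    ‖∑ a : J → ZMod M, (WW H a : ℂ) * ee δ a‖ ≤ (((H : ℝ) + 1) * M) ^ Fintype.card J := by
  rw [sum_WW_ee, norm_prod, ← Finset.card_univ, ← Finset.prod_const]
  exact Finset.prod_le_prod (fun j _ => norm_nonneg _) fun j _ => kh_norm hH _

lemma WW_ee_zero {H : ℕ} {δ : J → ZMod M} (h : ¬ Near H δ) :
    ∑ a : J → ZMod M, (WW H a : ℂ) * ee δ a = 0 := by
  rw [sum_WW_ee]
  unfold Near at h
  push Not at h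
  obtain ⟨j, hj⟩ := h
  refine Finset.prod_eq_zero (Finset.mem_univ j) (kh_zero ?_)
  push Not
  exact hj

omit [NeZero M] [Fintype J] [DecidableEq J] in
lemma Near.symm {H : ℕ} {ν μ : J → ZMod M} (h : Near H (ν - μ)) : Near H (μ - ν) := by
  intro j
  obtain ⟨s, h1, h2⟩ := h j
  refine ⟨-s, by rwa [abs_neg], ?_⟩
  push_cast
  rw [← h2, Pi.sub_apply, Pi.sub_apply, neg_sub]

open Classical in
/-- **The large sieve.** -/
theorem ls {H : ℕ} (hH : H < M) (u : (J → ZMod M) → ℝ) (S : Finset (J → ZMod M))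
    (hS : ∀ ν, ft u ν ≠ 0 → ν ∈ S) {N : ℝ}
    (hN : ∀ ν ∈ S, ((S.filter fun μ => Near H (ν - μ)).card : ℝ) ≤ N) :
    ∑ a : J → ZMod M, WW H a * u a ^ 2 ≤ ((H : ℝ) + 1) ^ Fintype.card J * N * ∑ a, u a ^ 2 := by
  have hM : (0 : ℝ) < M := by exact_mod_cast Nat.pos_of_ne_zero (NeZero.ne M)
  obtain ⟨D, hD⟩ : ∃ D : ℝ, D = (M : ℝ) ^ Fintype.card J := ⟨_, rfl⟩
  have hD0 : 0 < D := by rw [hD]; positivity
  obtain ⟨Z, hZ⟩ : ∃ Z : ℝ, Z = (((H : ℝ) + 1) * M) ^ Fintype.card J := ⟨_, rfl⟩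
  have hZ0 : 0 < Z := by rw [hZ]; positivity
  have hDC : ((D : ℝ) : ℂ) = (M : ℂ) ^ Fintype.card J := by rw [hD]; push_cast; rfl
  -- the sum over `S`
  have hin : ∀ a, (D : ℂ) * (u a : ℂ) = ∑ ν ∈ S, ft u ν * ee ν a := by
    intro a
    rw [hDC, ← ft_inv u a]
    symm
    apply Finset.sum_subset (Finset.subset_univ _)
    intro ν _ hν
    have : ft u ν = 0 := by
      by_contra h0
      exact hν (hS ν h0)
    rw [this, zero_mul]
  have hinc : ∀ a, (D : ℂ) * (u a : ℂ) = ∑ ν ∈ S, (starRingEnd ℂ) (ft u ν) * ee (-ν) a := by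
    intro a
    have h1 := congrArg (starRingEnd ℂ) (hin a)
    rw [map_mul, Complex.conj_ofReal, Complex.conj_ofReal, map_sum] at h1
    rw [h1]
    refine Finset.sum_congr rfl fun ν _ => ?_
    rw [map_mul, ee_conj]
  have key : ((D ^ 2 * ∑ a : J → ZMod M, WW H a * u a ^ 2 : ℝ) : ℂ) =
      ∑ ν ∈ S, ∑ μ ∈ S, ft u ν * (starRingEnd ℂ) (ft u μ) *
        ∑ a : J → ZMod M, (WW H a : ℂ) * ee (ν - μ) a := by
    push_cast
    have h1 : ∀ a : J → ZMod M, (D : ℂ) ^ 2 * ((WW H a : ℂ) * (u a : ℂ) ^ 2) =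
        ∑ ν ∈ S, ∑ μ ∈ S, ft u ν * (starRingEnd ℂ) (ft u μ) * ((WW H a : ℂ) * ee (ν - μ) a) := by
      intro a
      have h2 : (D : ℂ) ^ 2 * ((WW H a : ℂ) * (u a : ℂ) ^ 2) =
          (WW H a : ℂ) * (((D : ℂ) * (u a : ℂ)) * ((D : ℂ) * (u a : ℂ))) := by ring
      rw [h2]
      nth_rw 1 [hin a]
      rw [hinc a, Finset.sum_mul_sum, Finset.mul_sum]
      refine Finset.sum_congr rfl fun ν _ => ?_
      rw [Finset.mul_sum]
      refine Finset.sum_congr rfl fun μ _ => ?_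
      rw [sub_eq_add_neg, ee_add]
      ring
    rw [Finset.mul_sum, Finset.sum_congr rfl fun a _ => h1 a, Finset.sum_comm]
    refine Finset.sum_congr rfl fun ν _ => ?_
    rw [Finset.sum_comm]
    refine Finset.sum_congr rfl fun μ _ => ?_
    rw [Finset.mul_sum]
  have h3 : D ^ 2 * ∑ a : J → ZMod M, WW H a * u a ^ 2 ≤
      ∑ ν ∈ S, ∑ μ ∈ S, if Near H (ν - μ) then Z * ((‖ft u ν‖ ^ 2 + ‖ft u μ‖ ^ 2) / 2) else 0 := by
    have h4 : D ^ 2 * ∑ a : J → ZMod M, WW H a * u a ^ 2 ≤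
        ‖((D ^ 2 * ∑ a : J → ZMod M, WW H a * u a ^ 2 : ℝ) : ℂ)‖ := by
      rw [Complex.norm_real]
      exact le_abs_self _
    rw [key] at h4
    refine h4.trans ((norm_sum_le _ _).trans (Finset.sum_le_sum fun ν _ =>
      (norm_sum_le _ _).trans (Finset.sum_le_sum fun μ _ => ?_)))
    split_ifs with hn
    · rw [norm_mul, norm_mul, Complex.norm_conj]
      have h5 := norm_WW_ee hH (ν - μ)
      rw [← hZ] at h5
      have h6 : ‖ft u ν‖ * ‖ft u μ‖ ≤ (‖ft u ν‖ ^ 2 + ‖ft u μ‖ ^ 2) / 2 := by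
        nlinarith [sq_nonneg (‖ft u ν‖ - ‖ft u μ‖)]
      calc _ ≤ (‖ft u ν‖ * ‖ft u μ‖) * Z := mul_le_mul_of_nonneg_left h5 (by positivity)
        _ ≤ ((‖ft u ν‖ ^ 2 + ‖ft u μ‖ ^ 2) / 2) * Z := mul_le_mul_of_nonneg_right h6 hZ0.le
        _ = _ := by ring
    · rw [WW_ee_zero hn, mul_zero, norm_zero]
  have h7 : ∑ ν ∈ S, ∑ μ ∈ S,
      (if Near H (ν - μ) then Z * ((‖ft u ν‖ ^ 2 + ‖ft u μ‖ ^ 2) / 2) else 0) ≤
      Z * (N * ∑ ν ∈ S, ‖ft u ν‖ ^ 2) := by
    have h8 : ∑ ν ∈ S, ∑ μ ∈ S,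
        (if Near H (ν - μ) then Z * ((‖ft u ν‖ ^ 2 + ‖ft u μ‖ ^ 2) / 2) else 0) =
        Z * (∑ ν ∈ S, ∑ μ ∈ S, (if Near H (ν - μ) then ‖ft u ν‖ ^ 2 else 0)) := by
      have h9 : ∀ ν μ : J → ZMod M,
          (if Near H (ν - μ) then Z * ((‖ft u ν‖ ^ 2 + ‖ft u μ‖ ^ 2) / 2) else 0) =
          Z / 2 * (if Near H (ν - μ) then ‖ft u ν‖ ^ 2 else 0) +
            Z / 2 * (if Near H (μ - ν) then ‖ft u μ‖ ^ 2 else 0) := by
        intro ν μ
        by_cases h : Near H (ν - μ)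
        · rw [if_pos h, if_pos h, if_pos h.symm]; ring
        · rw [if_neg h, if_neg h, if_neg fun h' => h h'.symm]; ring
      simp_rw [h9, Finset.sum_add_distrib, ← Finset.mul_sum]
      rw [Finset.sum_comm (f := fun ν μ => if Near H (μ - ν) then ‖ft u μ‖ ^ 2 else 0)]
      ring
    rw [h8]
    apply mul_le_mul_of_nonneg_left _ hZ0.le
    rw [Finset.mul_sum]
    refine Finset.sum_le_sum fun ν hν => ?_
    rw [← Finset.sum_filter, Finset.sum_const, nsmul_eq_mul]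
    exact mul_le_mul_of_nonneg_right (hN ν hν) (sq_nonneg _)
  have h10 : ∑ ν ∈ S, ‖ft u ν‖ ^ 2 ≤ D * ∑ a, u a ^ 2 := by
    rw [hD, ← parseval]
    exact Finset.sum_le_sum_of_subset_of_nonneg (Finset.subset_univ _) fun ν _ _ => sq_nonneg _
  by_cases hS0 : S.Nonempty
  · obtain ⟨ν, hν⟩ := hS0
    have hN0 : 0 ≤ N := le_trans (Nat.cast_nonneg _) (hN ν hν)
    have h11 : D ^ 2 * ∑ a : J → ZMod M, WW H a * u a ^ 2 ≤ Z * (N * (D * ∑ a, u a ^ 2)) :=
      h3.trans (h7.trans (mul_le_mul_of_nonneg_left (mul_le_mul_of_nonneg_left h10 hN0) hZ0.le))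
    have h12 : Z = ((H : ℝ) + 1) ^ Fintype.card J * D := by rw [hZ, hD, mul_pow]
    rw [h12] at h11
    have h13 : D ^ 2 * ∑ a : J → ZMod M, WW H a * u a ^ 2 ≤
        D ^ 2 * (((H : ℝ) + 1) ^ Fintype.card J * N * ∑ a, u a ^ 2) := by
      refine h11.trans (le_of_eq ?_)
      ring
    exact le_of_mul_le_mul_left h13 (by positivity)
  · have hu : ∀ a, u a = 0 := by
      intro a
      have h1 := hin a
      rw [Finset.not_nonempty_iff_eq_empty.1 hS0, Finset.sum_empty] at h1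
      rcases mul_eq_zero.1 h1 with h2 | h2
      · exact absurd (by exact_mod_cast h2) hD0.ne'
      · exact_mod_cast h2
    simp [hu]

end Ft

end Pool.Agent.Helper25.FM
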