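import Pool.Agent.Helper25.FM.Sm

/-!
# High moments

For functions `t p` modulo `p` with mean zero and bounded by `L`, and `K ^ (2 k) ≤ B`, the `2 k`-th moment
of `∑ c p * t p`, `p ≤ K`, on the box `[-B, B] ^ J` is at most that of a sub-Gaussian variable.
-/

set_option autoImplicit false

namespace Pool.Agent.Helper25.FM

open Finset
open Pool.Agent.Helper29.TT

/-- Families of bounded functions with mean zero. -/
structure FamB {J : Type} [Fintype J] [DecidableEq J] (t : ℕ → (J → ℤ) → ℝ) (L : ℝ) : Prop where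
  L_nonneg : 0 ≤ L
  f : ∀ (p : ℕ) [Fact p.Prime], ∃ f : (J → ZMod p) → ℝ,
    (∀ a : J → ℤ, t p a = f fun j => ((a j : ℤ) : ZMod p)) ∧ (∀ u, |f u| ≤ L) ∧ ∑ u, f u = 0

/-- Convexity. -/
lemma exp_le_chord {x s : ℝ} (hs : 0 < s) (hx : |x| ≤ s) :
    Real.exp x ≤ Real.cosh s + x / s * Real.sinh s := by
  rw [abs_le] at hx
  have h1 : (s - x) / (2 * s) * (-s) + (s + x) / (2 * s) * s = x := by
    field_simp
    ring
  have h2 : (s - x) / (2 * s) + (s + x) / (2 * s) = 1 := by
    field_simp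
    ring
  have h3 := convexOn_exp.2 (Set.mem_univ (-s)) (Set.mem_univ s)
    (show 0 ≤ (s - x) / (2 * s) from div_nonneg (by linarith) (by linarith))
    (show 0 ≤ (s + x) / (2 * s) from div_nonneg (by linarith) (by linarith)) h2
  rw [smul_eq_mul, smul_eq_mul, smul_eq_mul, smul_eq_mul, h1] at h3
  refine h3.trans (le_of_eq ?_)
  rw [Real.cosh_eq, Real.sinh_eq]
  field_simp
  ring

/-- Hoeffding's lemma on a finite set. -/
lemma hoeff {U : Type} [Fintype U] (f : U → ℝ) {L : ℝ} (hf : ∀ u, |f u| ≤ L) (h0 : ∑ u, f u = 0) (c : ℝ) :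
    ∑ u, Real.exp (c * f u) ≤ (Fintype.card U : ℝ) * Real.exp ((c ^ 2 * L ^ 2) / 2) := by
  by_cases hs : |c| * L ≤ 0
  · have h1 : ∀ u, c * f u = 0 := by
      intro u
      rw [← abs_nonpos_iff, abs_mul]
      exact (mul_le_mul_of_nonneg_left (hf u) (abs_nonneg c)).trans hs
    calc ∑ u, Real.exp (c * f u) = ∑ _u : U, (1 : ℝ) :=
          Finset.sum_congr rfl fun u _ => by rw [h1 u, Real.exp_zero]
      _ = (Fintype.card U : ℝ) * 1 := by rw [Finset.sum_const, Finset.card_univ, nsmul_eq_mul]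
      _ ≤ _ := by
        apply mul_le_mul_of_nonneg_left _ (Nat.cast_nonneg _)
        exact Real.one_le_exp (by positivity)
  · push Not at hs
    obtain ⟨s, hs'⟩ : ∃ s, s = |c| * L := ⟨_, rfl⟩
    rw [← hs'] at hs
    have h1 : ∀ u, Real.exp (c * f u) ≤ Real.cosh s + c * f u / s * Real.sinh s := by
      intro u
      apply exp_le_chord hs
      rw [abs_mul, hs']
      exact mul_le_mul_of_nonneg_left (hf u) (abs_nonneg c)
    refine (Finset.sum_le_sum fun u _ => h1 u).trans ?_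
    rw [Finset.sum_add_distrib, ← Finset.sum_mul, ← Finset.sum_div, ← Finset.mul_sum, h0, mul_zero,
      zero_div, zero_mul, add_zero, Finset.sum_const, Finset.card_univ, nsmul_eq_mul]
    apply mul_le_mul_of_nonneg_left _ (Nat.cast_nonneg _)
    have h2 := Real.cosh_le_exp_half_sq s
    refine h2.trans (le_of_eq ?_)
    rw [hs', mul_pow, sq_abs]

section Per

variable {M : ℕ} [NeZero M] {J : Type} [Fintype J] [DecidableEq J]

/-- Functions which are periodic modulo `m`. -/
def Per (m : ℕ) (g : (J → ZMod M) → ℝ) : Prop := ∀ a b, g (a + (m : ZMod M) • b) = g a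

omit [NeZero M] [Fintype J] [DecidableEq J] in
lemma Per.mul {m : ℕ} {g g' : (J → ZMod M) → ℝ} (h : Per m g) (h' : Per m g') : Per m (fun a => g a * g' a) := by
  intro a b
  show g _ * g' _ = g a * g' a
  rw [h, h']

omit [NeZero M] [Fintype J] [DecidableEq J] in
lemma Per.of_dvd {m m' : ℕ} {g : (J → ZMod M) → ℝ} (h : Per m g) (hd : m ∣ m') : Per m' g := by
  obtain ⟨e, rfl⟩ := hd
  intro a b
  have h1 := h a ((e : ZMod M) • b)
  rw [smul_smul, ← Nat.cast_mul] at h1
  exact h1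

omit [NeZero M] [Fintype J] [DecidableEq J] in
lemma per_prod {ι : Type} (s : Finset ι) (g : ι → (J → ZMod M) → ℝ) {m : ℕ} (h : ∀ i ∈ s, Per m (g i)) :
    Per m (fun a => ∏ i ∈ s, g i a) := by
  intro a b
  exact Finset.prod_congr rfl fun i hi => h i hi a b

/-- The weight does not see functions with small period. -/
lemma sum_WW_per {H m : ℕ} (hm : 0 < m) (hmH : m * H < M) {g : (J → ZMod M) → ℝ} (hg : Per m g) :
    ∑ a, WW H a * g a = ((H : ℝ) + 1) ^ Fintype.card J * ∑ a, g a := by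
  have hM0 : 0 < M := Nat.pos_of_ne_zero (NeZero.ne M)
  have hM : (0 : ℝ) < M := by exact_mod_cast hM0
  have hHM : H < M := lt_of_le_of_lt (Nat.le_mul_of_pos_left H hm) hmH
  -- the support of the transform
  have hsupp : ∀ ν : J → ZMod M, ft g ν ≠ 0 → (m : ZMod M) • ν = 0 := by
    intro ν hν
    have h1 : ∀ b : J → ZMod M, ee (-ν) ((m : ZMod M) • b) = 1 := by
      intro b
      have h2 : ft g ν = ft g ν * ee (-ν) ((m : ZMod M) • b) := by
        conv_lhs => unfold ft
        rw [← Equiv.sum_comp (Equiv.addRight ((m : ZMod M) • b))]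
        unfold ft
        rw [Finset.sum_mul]
        refine Finset.sum_congr rfl fun a _ => ?_
        rw [Equiv.coe_addRight, ee_comm (-ν) (a + _), ee_add, ee_comm a, ee_comm ((m : ZMod M) • b)]
        show ((g (a + (m : ZMod M) • b) : ℝ) : ℂ) * _ = _
        rw [hg a b, mul_assoc]
      have h3 : ft g ν * (ee (-ν) ((m : ZMod M) • b) - 1) = 0 := by
        rw [mul_sub, ← h2, mul_one, sub_self]
      rcases mul_eq_zero.1 h3 with h4 | h4
      · exact absurd h4 hν
      · exact sub_eq_zero.1 h4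
    funext j
    have h5 := h1 (Pi.single j 1)
    have h6 : ee (-ν) ((m : ZMod M) • Pi.single j (1 : ZMod M)) = (ZMod.stdAddChar (-(ν j * (m : ZMod M))) : ℂ) := by
      unfold ee
      congr 1
      rw [Finset.sum_eq_single j]
      · rw [Pi.smul_apply, Pi.single_eq_same, Pi.neg_apply, smul_eq_mul, mul_one, neg_mul]
      · intro i _ hi
        rw [Pi.smul_apply, Pi.single_eq_of_ne hi, smul_zero, mul_zero]
      · intro h; exact absurd (Finset.mem_univ _) h
    rw [h6] at h5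
    have h7 : -(ν j * (m : ZMod M)) = 0 := by
      apply ZMod.injective_stdAddChar
      rw [h5, AddChar.map_zero_eq_one]
    rw [Pi.smul_apply, smul_eq_mul, mul_comm]
    exact neg_eq_zero.1 h7
  have hkey : ((M : ℂ) ^ Fintype.card J) * ((∑ a, WW H a * g a : ℝ) : ℂ) =
      (∑ a, (g a : ℂ)) * (((H : ℂ) + 1) * M) ^ Fintype.card J := by
    push_cast
    rw [Finset.mul_sum]
    have h1 : ∀ a : J → ZMod M, (M : ℂ) ^ Fintype.card J * ((WW H a : ℂ) * (g a : ℂ)) =
        ∑ ν, ft g ν * ((WW H a : ℂ) * ee ν a) := by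
      intro a
      have h2 := ft_inv g a
      calc (M : ℂ) ^ Fintype.card J * ((WW H a : ℂ) * (g a : ℂ)) =
          (WW H a : ℂ) * ((M : ℂ) ^ Fintype.card J * (g a : ℂ)) := by ring
        _ = _ := by
          rw [← h2, Finset.mul_sum]
          refine Finset.sum_congr rfl fun ν _ => ?_
          ring
    rw [Finset.sum_congr rfl fun a _ => h1 a, Finset.sum_comm]
    simp_rw [← Finset.mul_sum, sum_WW_ee]
    rw [Finset.sum_eq_single (0 : J → ZMod M)]
    · have h3 : ft g 0 = ∑ a, (g a : ℂ) := by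
        unfold ft
        refine Finset.sum_congr rfl fun a _ => ?_
        rw [neg_zero, ee_zero, mul_one]
      rw [h3]
      congr 1
      have h4 : kh H (0 : ZMod M) = ((H : ℂ) + 1) * M := by
        rw [kh_eq]
        have h5 : ∀ x ∈ range (H + 1), ∑ h' ∈ range (H + 1),
            (if ((x : ZMod M) - (h' : ZMod M)) + 0 = 0 then (M : ℂ) else 0) = M := by
          intro x hx
          rw [Finset.sum_eq_single x]
          · rw [if_pos]; simp
          · intro y hy hyx
            rw [if_neg]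
            intro h6
            rw [add_zero, sub_eq_zero, ZMod.natCast_eq_natCast_iff'] at h6
            rw [Finset.mem_range] at hx hy
            rw [Nat.mod_eq_of_lt (by omega), Nat.mod_eq_of_lt (by omega)] at h6
            exact hyx h6.symm
          · intro h; exact absurd hx h
        rw [Finset.sum_congr rfl h5, Finset.sum_const, Finset.card_range, nsmul_eq_mul]
        push_cast
        ring
      simp only [Pi.zero_apply]
      rw [h4, Finset.prod_const, Finset.card_univ]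
    · intro ν _ hν
      by_cases hf : ft g ν = 0
      · rw [hf, zero_mul]
      · have h3 := hsupp ν hf
        have h4 : ∃ j, ¬ ∃ s : ℤ, |s| ≤ (H : ℤ) ∧ ν j = (s : ZMod M) := by
          by_contra hcon
          push Not at hcon
          apply hν
          funext j
          obtain ⟨s, hs, hsj⟩ := hcon j
          have h5 := congrFun h3 j
          rw [Pi.smul_apply, Pi.zero_apply, smul_eq_mul, hsj] at h5
          have h6 : (((m : ℤ) * s : ℤ) : ZMod M) = 0 := by
            push_cast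
            exact h5
          rw [ZMod.intCast_zmod_eq_zero_iff_dvd] at h6
          have h7 : (m : ℤ) * s = 0 := by
            apply Int.eq_zero_of_abs_lt_dvd h6
            rw [abs_mul]
            calc |(m : ℤ)| * |s| ≤ m * H := by
                  apply mul_le_mul _ hs (abs_nonneg _) (by positivity)
                  rw [abs_of_nonneg (by positivity)]
              _ < M := by exact_mod_cast hmH
          rcases mul_eq_zero.1 h7 with h8 | h8
          · exact absurd (by exact_mod_cast h8) hm.ne'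
          · rw [hsj, h8, Int.cast_zero, Pi.zero_apply]
        obtain ⟨j, hj⟩ := h4
        rw [Finset.prod_eq_zero (Finset.mem_univ j) (kh_zero hj), mul_zero]
    · intro h; exact absurd (Finset.mem_univ _) h
  have hD : ((M : ℂ) ^ Fintype.card J) ≠ 0 := pow_ne_zero _ (by exact_mod_cast hM0.ne')
  have h8 : ((∑ a, WW H a * g a : ℝ) : ℂ) = ((((H : ℝ) + 1) ^ Fintype.card J * ∑ a, g a : ℝ) : ℂ) := by
    apply mul_left_cancel₀ hD
    rw [hkey]
    push_cast
    rw [mul_pow]
    ring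
  exact_mod_cast h8

/-- Independence. -/
lemma indep {q m : ℕ} [Fact q.Prime] (hq : q ∣ M) (hc : Nat.Coprime q m) {g : (J → ZMod M) → ℝ} (hg : Per m g)
    (f : (J → ZMod q) → ℝ) :
    ∑ a, g a * f (fun j => ZMod.castHom hq (ZMod q) (a j)) =
      (∑ a, g a) * ((∑ u, f u) / (q : ℝ) ^ Fintype.card J) := by
  have hq0 : (0 : ℝ) < q := by exact_mod_cast (Fact.out : q.Prime).pos
  have hmq : (m : ZMod q) ≠ 0 := by
    rw [Ne, ZMod.natCast_eq_zero_iff]
    intro h
    have h1 := Nat.dvd_gcd dvd_rfl h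
    rw [hc] at h1
    exact (Fact.out : q.Prime).one_lt.ne' (Nat.dvd_one.1 h1)
  have h1 : ∀ v : J → ZMod q, ∑ a, g a * f (fun j => ZMod.castHom hq (ZMod q) (a j)) =
      ∑ a, g a * f (fun j => ZMod.castHom hq (ZMod q) (a j) + (m : ZMod q) * v j) := by
    intro v
    conv_lhs => rw [← Equiv.sum_comp (Equiv.addRight ((m : ZMod M) • fun j => (((v j).val : ℕ) : ZMod M)))]
    refine Finset.sum_congr rfl fun a _ => ?_
    rw [Equiv.coe_addRight, hg]
    congr 2
    funext j
    show ZMod.castHom hq (ZMod q) (a j + (m : ZMod M) * (((v j).val : ℕ) : ZMod M)) = _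
    rw [map_add, map_mul, map_natCast, map_natCast, ZMod.natCast_zmod_val]
  have h2 : ∑ v : J → ZMod q, ∑ a, g a * f (fun j => ZMod.castHom hq (ZMod q) (a j)) =
      (∑ a, g a) * ∑ u, f u := by
    rw [Finset.sum_congr rfl fun v _ => h1 v, Finset.sum_comm, Finset.sum_mul]
    refine Finset.sum_congr rfl fun a _ => ?_
    rw [← Finset.mul_sum]
    congr 1
    apply Fintype.sum_bijective (fun v : J → ZMod q => fun j => ZMod.castHom hq (ZMod q) (a j) + (m : ZMod q) * v j)
    · apply Finite.injective_iff_bijective.1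
      intro v v' h
      funext j
      have h3 := congrFun h j
      exact mul_left_cancel₀ hmq (add_left_cancel h3)
    · intro v
      rfl
  rw [Finset.sum_const, Finset.card_univ, Fintype.card_fun, ZMod.card, nsmul_eq_mul] at h2
  push_cast at h2
  rw [← mul_div_assoc, eq_div_iff (by positivity), mul_comm]
  exact h2

end Per

section Mo

variable {J : Type} [Fintype J] [DecidableEq J] {t : ℕ → (J → ℤ) → ℝ} {L : ℝ}

lemma per_t {M p : ℕ} [NeZero M] [Fact p.Prime] (ht : FamB t L) (h : p ∣ M) :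
    Per p (fun a : J → ZMod M => t p (upJ a)) := by
  obtain ⟨f, hf, _⟩ := ht.f p
  intro a b
  show t p (upJ (a + (p : ZMod M) • b)) = t p (upJ a)
  rw [up_f h hf, up_f h hf]
  congr 1
  funext i
  rw [Pi.add_apply, Pi.smul_apply, smul_eq_mul, map_add, map_mul, map_natCast]
  simp

/-- The exponential moment. -/
lemma exp_moment {M : ℕ} [NeZero M] (ht : FamB t L) (P : Finset ℕ) (hP : ∀ p ∈ P, p.Prime ∧ p ∣ M) (c : ℕ → ℝ) :
    ∑ a : J → ZMod M, Real.exp (∑ p ∈ P, c p * t p (upJ a)) ≤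
      (M : ℝ) ^ Fintype.card J * Real.exp ((L ^ 2 * ∑ p ∈ P, c p ^ 2) / 2) := by
  classical
  induction P using Finset.induction_on with
  | empty =>
      simp only [Finset.sum_empty, Real.exp_zero, mul_zero, zero_div, mul_one]
      rw [Finset.sum_const, Finset.card_univ, Fintype.card_fun, ZMod.card, nsmul_eq_mul, mul_one]
      push_cast
      exact le_rfl
  | insert q P hq ih =>
      have ih' := ih fun p hp => hP p (Finset.mem_insert_of_mem hp)
      obtain ⟨hqp, hqM⟩ := hP q (Finset.mem_insert_self _ _)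
      have hqf : Fact q.Prime := ⟨hqp⟩
      obtain ⟨f, hf, hf1, hf2⟩ := ht.f q
      have hq0 : (0 : ℝ) < q := by exact_mod_cast hqp.pos
      -- the old part is periodic
      have hper : Per (∏ p ∈ P, p) (fun a : J → ZMod M => Real.exp (∑ p ∈ P, c p * t p (upJ a))) := by
        intro a b
        show Real.exp _ = Real.exp _
        congr 1
        refine Finset.sum_congr rfl fun p hp => ?_
        obtain ⟨h1, h2⟩ := hP p (Finset.mem_insert_of_mem hp)
        have : Fact p.Prime := ⟨h1⟩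
        congr 1
        exact (per_t ht h2).of_dvd (Finset.dvd_prod_of_mem _ hp) a b
      have hcop : Nat.Coprime q (∏ p ∈ P, p) := by
        apply Nat.Coprime.prod_right
        intro p hp
        obtain ⟨h1, _⟩ := hP p (Finset.mem_insert_of_mem hp)
        exact (Nat.coprime_primes hqp h1).2 fun h => hq (h ▸ hp)
      have h3 := indep hqM hcop hper (fun u => Real.exp (c q * f u))
      have h4 : ∑ a : J → ZMod M, Real.exp (∑ p ∈ insert q P, c p * t p (upJ a)) =
          ∑ a : J → ZMod M, Real.exp (∑ p ∈ P, c p * t p (upJ a)) *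
            Real.exp (c q * f fun j => ZMod.castHom hqM (ZMod q) (a j)) := by
        refine Finset.sum_congr rfl fun a _ => ?_
        rw [Finset.sum_insert hq, add_comm, Real.exp_add, up_f hqM hf]
      rw [h4, h3]
      have h5 := hoeff f hf1 hf2 (c q)
      rw [Fintype.card_fun, ZMod.card] at h5
      push_cast at h5
      have h6 : (∑ u, Real.exp (c q * f u)) / (q : ℝ) ^ Fintype.card J ≤ Real.exp ((c q ^ 2 * L ^ 2) / 2) := by
        rw [div_le_iff₀ (by positivity), mul_comm]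
        exact h5
      have h7 : 0 ≤ (∑ u, Real.exp (c q * f u)) / (q : ℝ) ^ Fintype.card J :=
        div_nonneg (Finset.sum_nonneg fun u _ => (Real.exp_pos _).le) (by positivity)
      calc _ ≤ ((M : ℝ) ^ Fintype.card J * Real.exp ((L ^ 2 * ∑ p ∈ P, c p ^ 2) / 2)) *
            Real.exp ((c q ^ 2 * L ^ 2) / 2) := mul_le_mul ih' h6 h7 (by positivity)
        _ = _ := by
          rw [mul_assoc, ← Real.exp_add, Finset.sum_insert hq]
          congr 2
          ring

/-- Powers and exponentials. -/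
lemma pow_le_exp {x : ℝ} (k : ℕ) : x ^ (2 * k) ≤ ((2 * k).factorial : ℝ) * (Real.exp x + Real.exp (-x)) := by
  have h1 : x ^ (2 * k) = |x| ^ (2 * k) := by
    rw [pow_mul, pow_mul, sq_abs]
  have h2 := Real.pow_div_factorial_le_exp |x| (abs_nonneg x) (2 * k)
  have hf : (0 : ℝ) < ((2 * k).factorial : ℝ) := by exact_mod_cast Nat.factorial_pos _
  rw [div_le_iff₀ hf] at h2
  rw [h1]
  refine h2.trans ?_
  rw [mul_comm]
  apply mul_le_mul_of_nonneg_left _ hf.le
  rcases abs_cases x with ⟨h, _⟩ | ⟨h, _⟩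
  · rw [h]; linarith [Real.exp_pos (-x)]
  · rw [h]; linarith [Real.exp_pos x]

/-- The moments modulo `M`. -/
lemma moment_unif {M : ℕ} [NeZero M] (ht : FamB t L) (P : Finset ℕ) (hP : ∀ p ∈ P, p.Prime ∧ p ∣ M) (c : ℕ → ℝ)
    {k : ℕ} (hk : 1 ≤ k) {σ : ℝ} (hσ : 0 < σ) (hσ' : L ^ 2 * ∑ p ∈ P, c p ^ 2 ≤ σ) :
    ∑ a : J → ZMod M, (∑ p ∈ P, c p * t p (upJ a)) ^ (2 * k) ≤
      (M : ℝ) ^ Fintype.card J * (2 * (6 * k * σ) ^ k) := by
  have hk0 : (0 : ℝ) < k := by exact_mod_cast hk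
  obtain ⟨l, hl⟩ : ∃ l, l = Real.sqrt (2 * k / σ) := ⟨_, rfl⟩
  have hl0 : 0 < l := by rw [hl]; exact Real.sqrt_pos.2 (by positivity)
  have hl2 : l ^ 2 = 2 * k / σ := by rw [hl]; exact Real.sq_sqrt (by positivity)
  have hM0 : (0 : ℝ) ≤ (M : ℝ) ^ Fintype.card J := by positivity
  -- the exponential moments
  have e1 : ∀ s : ℝ, s ^ 2 = l ^ 2 → ∑ a : J → ZMod M, Real.exp (s * ∑ p ∈ P, c p * t p (upJ a)) ≤
      (M : ℝ) ^ Fintype.card J * Real.exp k := by
    intro s hs
    have h1 := exp_moment ht P hP (fun p => s * c p) (M := M)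
    have h2 : ∀ a : J → ZMod M, s * ∑ p ∈ P, c p * t p (upJ a) = ∑ p ∈ P, s * c p * t p (upJ a) := by
      intro a
      rw [Finset.mul_sum]
      refine Finset.sum_congr rfl fun p _ => ?_
      ring
    simp_rw [h2]
    refine h1.trans (mul_le_mul_of_nonneg_left (Real.exp_le_exp.2 ?_) hM0)
    have h3 : ∑ p ∈ P, (s * c p) ^ 2 = s ^ 2 * ∑ p ∈ P, c p ^ 2 := by
      rw [Finset.mul_sum]
      refine Finset.sum_congr rfl fun p _ => ?_
      ring
    rw [h3, hs, hl2]
    have h4 : L ^ 2 * (2 * ↑k / σ * ∑ p ∈ P, c p ^ 2) / 2 = k / σ * (L ^ 2 * ∑ p ∈ P, c p ^ 2) := by ring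
    rw [h4]
    calc (k : ℝ) / σ * (L ^ 2 * ∑ p ∈ P, c p ^ 2) ≤ k / σ * σ := mul_le_mul_of_nonneg_left hσ' (by positivity)
      _ = k := by field_simp
  have hfac : (((2 * k).factorial : ℕ) : ℝ) ≤ (2 * k) ^ (2 * k) := by
    exact_mod_cast Nat.factorial_le_pow (2 * k)
  have h1 : ∀ a : J → ZMod M, (∑ p ∈ P, c p * t p (upJ a)) ^ (2 * k) ≤
      (1 / l ^ 2) ^ k * (((2 * k).factorial : ℕ) : ℝ) * (Real.exp (l * ∑ p ∈ P, c p * t p (upJ a)) +
        Real.exp ((-l) * ∑ p ∈ P, c p * t p (upJ a))) := by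
    intro a
    have h2 := pow_le_exp (x := l * ∑ p ∈ P, c p * t p (upJ a)) k
    have h3 : (∑ p ∈ P, c p * t p (upJ a)) ^ (2 * k) =
        (1 / l ^ 2) ^ k * (l * ∑ p ∈ P, c p * t p (upJ a)) ^ (2 * k) := by
      rw [mul_pow, pow_mul l, div_pow, one_pow]
      field_simp
    rw [h3, mul_assoc]
    apply mul_le_mul_of_nonneg_left _ (by positivity)
    rw [neg_mul]
    exact h2
  refine (Finset.sum_le_sum fun a _ => h1 a).trans ?_
  rw [← Finset.mul_sum, Finset.sum_add_distrib]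
  have h5 := add_le_add (e1 l rfl) (e1 (-l) (by ring))
  have h6 : (0 : ℝ) ≤ (1 / l ^ 2) ^ k * (((2 * k).factorial : ℕ) : ℝ) := by positivity
  refine (mul_le_mul_of_nonneg_left h5 h6).trans ?_
  have h7 : Real.exp k ≤ 3 ^ k := by
    have h8 : Real.exp (k : ℝ) = Real.exp 1 ^ k := by
      rw [← Real.exp_nat_mul, mul_one]
    rw [h8]
    apply pow_le_pow_left₀ (Real.exp_pos 1).le
    have := Real.exp_one_lt_d9
    linarith
  have h9 : (1 / l ^ 2) ^ k * (((2 * k).factorial : ℕ) : ℝ) ≤ (2 * k * σ) ^ k := by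
    rw [hl2]
    calc (1 / (2 * ↑k / σ)) ^ k * (((2 * k).factorial : ℕ) : ℝ) ≤
          (1 / (2 * ↑k / σ)) ^ k * (2 * k) ^ (2 * k) := mul_le_mul_of_nonneg_left hfac (by positivity)
      _ = _ := by
        rw [pow_mul (2 * (k : ℝ)) 2 k, ← mul_pow]
        congr 1
        field_simp
  calc (1 / l ^ 2) ^ k * (((2 * k).factorial : ℕ) : ℝ) *
        ((M : ℝ) ^ Fintype.card J * Real.exp k + (M : ℝ) ^ Fintype.card J * Real.exp k) ≤
      (2 * k * σ) ^ k * ((M : ℝ) ^ Fintype.card J * 3 ^ k + (M : ℝ) ^ Fintype.card J * 3 ^ k) := by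
        apply mul_le_mul h9 _ (by positivity) (by positivity)
        have := mul_le_mul_of_nonneg_left h7 hM0
        linarith
    _ = (M : ℝ) ^ Fintype.card J * (2 * ((2 * k * σ) ^ k * 3 ^ k)) := by ring
    _ = _ := by
        rw [← mul_pow]
        congr 3
        ring

/-- **High moments on a box.** -/
theorem hm (ht : FamB t L) (K B : ℕ) {k : ℕ} (hk : 1 ≤ k) (hK : 1 ≤ K) (hKB : K ^ (2 * k) ≤ B)
    (P : Finset ℕ) (hP : ∀ p ∈ P, p.Prime ∧ p ≤ K) (c : ℕ → ℝ) {σ : ℝ} (hσ : 0 < σ)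
    (hσ' : L ^ 2 * ∑ p ∈ P, c p ^ 2 ≤ σ) :
    ∑ a ∈ boxJ J B, (∑ p ∈ P, c p * t p a) ^ (2 * k) ≤
      8 ^ Fintype.card J * (boxJ J B).card * (2 * (6 * k * σ) ^ k) := by
  classical
  have hB : 1 ≤ B := le_trans (Nat.one_le_pow _ _ hK) hKB
  obtain ⟨H, hH0, hHd⟩ : ∃ H : ℕ, 1 ≤ H ∧ ∀ p ∈ P, p ∣ H :=
    ⟨Nat.factorial K, Nat.factorial_pos K,
      fun p hp => Nat.dvd_factorial (hP p hp).1.pos (hP p hp).2⟩
  obtain ⟨M, hM⟩ : ∃ M : ℕ, M = 8 * B * H := ⟨_, rfl⟩
  have hM0 : 0 < M := by rw [hM]; positivity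
  have : NeZero M := ⟨hM0.ne'⟩
  have hdvd : ∀ p ∈ P, p ∣ M := by
    intro p hp
    rw [hM]
    exact Dvd.dvd.mul_left (hHd p hp) _
  have hpow0 : ∀ a : J → ZMod M, 0 ≤ (∑ p ∈ P, c p * t p (upJ a)) ^ (2 * k) := by
    intro a
    rw [pow_mul]
    positivity
  have h1 := boxJ_le (M := M) H (J := J) (B := B) (by rw [hM]; nlinarith) (by rw [hM]; nlinarith)
    (fun a => (∑ p ∈ P, c p * t p (upJ a)) ^ (2 * k)) hpow0
  have h2 : ∑ a ∈ boxJ J B, (∑ p ∈ P, c p * t p a) ^ (2 * k) =
      ∑ a ∈ boxJ J B, (∑ p ∈ P, c p * t p (upJ fun m => ((a m : ℤ) : ZMod M))) ^ (2 * k) := by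
    refine Finset.sum_congr rfl fun a _ => ?_
    congr 1
    refine Finset.sum_congr rfl fun p hp => ?_
    have : Fact p.Prime := ⟨(hP p hp).1⟩
    obtain ⟨f, hf, _⟩ := ht.f p
    rw [up_int (hdvd p hp) hf]
  rw [h2]
  refine h1.trans ?_
  -- remove the weight
  have h3 : ∑ a : J → ZMod M, WW H a * (∑ p ∈ P, c p * t p (upJ a)) ^ (2 * k) =
      ((H : ℝ) + 1) ^ Fintype.card J * ∑ a : J → ZMod M, (∑ p ∈ P, c p * t p (upJ a)) ^ (2 * k) := by
    have e1 : ∀ a : J → ZMod M, (∑ p ∈ P, c p * t p (upJ a)) ^ (2 * k) =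
        ∑ τ ∈ Fintype.piFinset fun _ : Fin (2 * k) => P, ∏ i, (c (τ i) * t (τ i) (upJ a)) := by
      intro a
      rw [Finset.sum_pow']
    simp_rw [e1, Finset.mul_sum]
    rw [Finset.sum_comm, Finset.sum_comm (s := (univ : Finset (J → ZMod M)))]
    refine Finset.sum_congr rfl fun τ hτ => ?_
    rw [Fintype.mem_piFinset] at hτ
    rw [← Finset.mul_sum]
    have e2 : Per (∏ i, τ i) (fun a : J → ZMod M => ∏ i, (c (τ i) * t (τ i) (upJ a))) := by
      apply per_prod
      intro i _ a b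
      have : Fact (τ i).Prime := ⟨(hP _ (hτ i)).1⟩
      show c (τ i) * _ = c (τ i) * _
      congr 1
      exact (per_t ht (hdvd _ (hτ i))).of_dvd (Finset.dvd_prod_of_mem (fun i => τ i) (Finset.mem_univ i)) a b
    refine sum_WW_per (m := ∏ i, τ i) (Finset.prod_pos fun i _ => (hP _ (hτ i)).1.pos) ?_ e2
    have e3 : ∏ i, τ i ≤ K ^ (2 * k) := by
      calc ∏ i, τ i ≤ ∏ _i : Fin (2 * k), K := Finset.prod_le_prod' fun i _ => (hP _ (hτ i)).2
        _ = _ := by rw [Finset.prod_const, Finset.card_univ, Fintype.card_fin]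
    rw [hM]
    calc (∏ i, τ i) * H ≤ B * H := Nat.mul_le_mul_right _ (e3.trans hKB)
      _ < 8 * B * H := by nlinarith [Nat.mul_pos hB hH0]
  have h4 := moment_unif (M := M) ht P (fun p hp => ⟨(hP p hp).1, hdvd p hp⟩) c hk hσ hσ'
  obtain ⟨R, hR⟩ : ∃ R : ℝ, R = 2 * (6 * k * σ) ^ k := ⟨_, rfl⟩
  have hR0 : 0 ≤ R := by rw [hR]; positivity
  rw [← hR] at h4 ⊢
  have h5 : ∑ a : J → ZMod M, WW H a * (∑ p ∈ P, c p * t p (upJ a)) ^ (2 * k) ≤
      (((H : ℝ) + 1) * M) ^ Fintype.card J * R := by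
    rw [h3, mul_pow, mul_assoc]
    exact mul_le_mul_of_nonneg_left h4 (by positivity)
  have hH' : (0 : ℝ) ≤ H := Nat.cast_nonneg _
  have hB' : (0 : ℝ) ≤ B := Nat.cast_nonneg _
  have hM' : (M : ℝ) = 8 * B * H := by rw [hM]; push_cast; ring
  have h7 : (0 : ℝ) ≤ (2 / ((H : ℝ) + 1) ^ 2) ^ Fintype.card J :=
    pow_nonneg (div_nonneg (by norm_num) (sq_nonneg _)) _
  refine (mul_le_mul_of_nonneg_left h5 h7).trans ?_
  rw [card_boxJ]
  exact final_auxJ hH' hB' hM' hR0

end Mo

end Pool.Agent.Helper25.FM
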