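import Pool.Agent.Helper25.FM.Dev
import Pool.Agent.Helper25.FM.Defs
import Pool.Agent.Helper29.LN.Coord

/-!
# Assembly
-/

set_option autoImplicit false

namespace Pool.Agent.Helper25.FM

open Finset
open Pool.Agent.Helper29.TT (Fam PRI boxJ card_boxJ)
open Pool.Agent.Helper29.LN (red red_apply sum_red hom_finite card_hom_le exists_ne_zero)

lemma trace_abs {q : ℝ} (hq : 0 ≤ q) {N : ℕ → ℝ} {M : ℕ} {β : ℝ} (h : TraceH2 q N M β) : |β| ≤ M * q := by
  obtain ⟨m, α, w, h1, -, h3, h4⟩ := h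
  have h5 : |β| = ‖(β : ℂ)‖ := by rw [Complex.norm_real, Real.norm_eq_abs]
  rw [h5, h3]
  have h6 : ∀ i ∈ Finset.univ.filter (fun i => w i = 2), ‖α i‖ ≤ q := by
    intro i hi
    have h7 := h1 i
    rw [(Finset.mem_filter.1 hi).2] at h7
    exact le_of_eq ((pow_left_inj₀ (norm_nonneg _) hq (by norm_num)).1 h7)
  refine (norm_sum_le _ _).trans ((Finset.sum_le_sum h6).trans ?_)
  rw [Finset.sum_const, nsmul_eq_mul]
  exact mul_le_mul_of_nonneg_right (by exact_mod_cast h4) hq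

section Fa

variable {R : Type} [CommRing R] {d n : ℕ} (b : Module.Basis (Fin d) ℤ R)
    (G : ∀ p : ℕ, (R →+* ZMod p) → (Fin n → ZMod p) → ℝ)

/-- The mean of a function. -/
noncomputable def mn {p : ℕ} (g : (Fin n → ZMod p) → ℝ) : ℝ := (∑ᶠ v, g v) / (p : ℝ) ^ n

/-- The term of the prime `p`. -/
noncomputable def tt (p : ℕ) (a : Fin n × Fin d → ℤ) : ℝ :=
  ∑ᶠ φ : R →+* ZMod p, (G p φ (fun j => φ (coord b a j)) - mn (G p φ)) / p

lemma mn_eq {p : ℕ} [Fact p.Prime] (g : (Fin n → ZMod p) → ℝ) : mn g = (∑ v, g v) / (p : ℝ) ^ n := by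
  unfold mn
  rw [finsum_eq_sum_of_fintype]

lemma mn_abs {p : ℕ} [Fact p.Prime] {g : (Fin n → ZMod p) → ℝ} {L : ℝ} (hg : ∀ v, |g v| ≤ L) : |mn g| ≤ L := by
  have hp : (0 : ℝ) < p := by exact_mod_cast (Fact.out : p.Prime).pos
  rw [mn_eq, abs_div, abs_of_pos (by positivity : (0 : ℝ) < (p : ℝ) ^ n), div_le_iff₀ (by positivity)]
  refine (Finset.abs_sum_le_sum_abs _ _).trans ((Finset.sum_le_sum fun v _ => hg v).trans (le_of_eq ?_))
  rw [Finset.sum_const, Finset.card_univ, Fintype.card_fun, ZMod.card, Fintype.card_fin, nsmul_eq_mul]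
  push_cast
  ring

lemma phi_coord {p : ℕ} [Fact p.Prime] (φ : R →+* ZMod p) (a : Fin n × Fin d → ℤ) :
    (fun j => φ (coord b a j)) = red (fun i => φ (b i)) fun x => ((a x : ℤ) : ZMod p) := by
  funext j
  rw [red_apply]
  unfold coord
  rw [map_sum]
  refine Finset.sum_congr rfl fun i _ => ?_
  rw [map_mul, map_intCast]

variable {G}

/-- The terms form a bounded family with mean zero. -/
lemma famB {M : ℝ} (hM : 0 ≤ M) (hG : ∀ (p : ℕ) (_ : p.Prime) (φ : R →+* ZMod p) v, |G p φ v| ≤ M * p) :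
    FamB (tt b G) (2 * d * M) := by
  classical
  refine ⟨by positivity, fun p hp => ?_⟩
  have hpr := hp.out
  have hp0 : (0 : ℝ) < p := by exact_mod_cast hpr.pos
  have := hom_finite (p := p) b
  let _ := Fintype.ofFinite (R →+* ZMod p)
  have hcard : ((Fintype.card (R →+* ZMod p) : ℕ) : ℝ) ≤ d := by exact_mod_cast card_hom_le (p := p) b
  refine ⟨fun u => ∑ φ : R →+* ZMod p, (G p φ (red (fun i => φ (b i)) u) - mn (G p φ)) / p, ?_, ?_, ?_⟩
  · intro a
    unfold tt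
    rw [finsum_eq_sum_of_fintype]
    refine Finset.sum_congr rfl fun φ _ => ?_
    rw [phi_coord]
  · intro u
    have h2 : ∀ φ : R →+* ZMod p, |(G p φ (red (fun i => φ (b i)) u) - mn (G p φ)) / p| ≤ 2 * M := by
      intro φ
      rw [abs_div, abs_of_pos hp0, div_le_iff₀ hp0]
      have h3 := abs_sub (G p φ (red (fun i => φ (b i)) u)) (mn (G p φ))
      have h4 := hG p hpr φ (red (fun i => φ (b i)) u)
      have h5 := mn_abs (hG p hpr φ)
      linarith
    refine (Finset.abs_sum_le_sum_abs _ _).trans ((Finset.sum_le_sum fun φ _ => h2 φ).trans ?_)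
    rw [Finset.sum_const, Finset.card_univ, nsmul_eq_mul]
    nlinarith
  · rw [Finset.sum_comm]
    refine Finset.sum_eq_zero fun φ _ => ?_
    rw [← Finset.sum_div, Finset.sum_sub_distrib]
    obtain ⟨i₀, hi₀⟩ := exists_ne_zero (p := p) b φ
    rw [sum_red (J := Fin n) (β := fun i => φ (b i)) hi₀ (G p φ), Finset.sum_const, Finset.card_univ,
      Fintype.card_fun, ZMod.card, nsmul_eq_mul, mn_eq, Fintype.card_fin]
    push_cast
    field_simp
    ring

lemma box_eq (B : ℕ) : box n d B = boxJ (Fin n × Fin d) B := rfl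

open Classical in
/-- The average of the terms. -/
lemma average_sub (w : ∀ p : ℕ, (R →+* ZMod p) → ℝ) (P : ∀ p : ℕ, (R →+* ZMod p) → Set (Fin n → ZMod p))
    (β : ∀ p : ℕ, (R →+* ZMod p) → (Fin n → ZMod p) → ℝ) (T : ℕ) (a : Fin n × Fin d → ℤ) :
    average w P β T (coord b a) - meanAverage w P β T =
      (∑ p ∈ PRI T, Real.log p * tt b (fun p φ v => w p φ * if v ∈ P p φ then β p φ v else 0) p a) / T := by
  unfold average meanAverage
  rw [← sub_div, ← Finset.sum_sub_distrib]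
  congr 1
  unfold PRI
  refine Finset.sum_congr rfl fun p hp => ?_
  have hp1 := (Finset.mem_filter.1 hp).2
  have hpp : Fact p.Prime := ⟨hp1⟩
  have := hom_finite (p := p) b
  let _ := Fintype.ofFinite (R →+* ZMod p)
  unfold tt
  rw [finsum_eq_sum_of_fintype, finsum_eq_sum_of_fintype, finsum_eq_sum_of_fintype,
    ← Finset.sum_sub_distrib, Finset.mul_sum]
  refine Finset.sum_congr rfl fun φ _ => ?_
  have h1 : mn (fun v => w p φ * if v ∈ P p φ then β p φ v else 0) = w p φ * mean (P p φ) (β p φ) := by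
    unfold mean
    rw [mn_eq, ← Finset.mul_sum, finsum_eq_sum_of_fintype, mul_div_assoc]
  rw [h1]
  by_cases h : (fun j => φ (coord b a j)) ∈ P p φ
  · simp only [if_pos h]
    ring
  · simp only [if_neg h]
    ring

lemma share_le {B : ℕ} {S : (Fin n × Fin d → ℤ) → Prop} {X : ℝ}
    (h : open Classical in (((boxJ (Fin n × Fin d) B).filter S).card : ℝ) ≤ X * (boxJ (Fin n × Fin d) B).card) :
    share n d B S ≤ X := by
  classical
  unfold share
  rw [box_eq]
  have h1 : (0 : ℝ) < (boxJ (Fin n × Fin d) B).card := by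
    rw [card_boxJ]
    positivity
  rw [div_le_iff₀ h1]
  convert h

/-- The theorem for one ring and one family. -/
theorem main {M : ℕ} {w : ∀ p : ℕ, (R →+* ZMod p) → ℝ} (hw : ∀ p φ, |w p φ| ≤ 1)
    {P : ∀ p : ℕ, (R →+* ZMod p) → Set (Fin n → ZMod p)}
    {β : ∀ p : ℕ, (R →+* ZMod p) → (Fin n → ZMod p) → ℝ}
    (hβ : ∀ (p : ℕ) (_ : p.Prime) (φ : R →+* ZMod p), ∀ v ∈ P p φ, |β p φ v| ≤ M * p) :
    (∀ T₀ B : ℕ, 2 ≤ T₀ → share n d B (fun a => ∃ T : ℕ, T₀ ≤ T ∧ T ≤ B ∧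
      Real.log T ^ 3 * (1 / Real.sqrt T + Real.sqrt (T / B)) < dist b w P β T a) ≤
        K1 (n * d) ((2 * d * M) ^ 2) 0 / Real.log T₀) ∧
    (∀ (T₀ T₁ B : ℕ) (ε : ℝ), 2 ≤ T₀ → T₁ ≤ B → 0 < ε →
      share n d B (fun a => ∃ T : ℕ, T₀ ≤ T ∧ T ≤ T₁ ∧ ε < dist b w P β T a) ≤
        K2 (n * d) ((2 * d * M) ^ 2) 0 / ε ^ 2 * (Real.log T₀ ^ 4 / T₀ + T₁ * Real.log T₁ ^ 4 / B)) ∧
    (∀ (B : ℕ) (δ ε : ℝ), 0 < δ → δ ≤ 1 → 0 < ε →
      share n d B (fun a => ∃ T : ℕ, Real.log B ^ (1 + δ) ≤ T ∧ (T : ℝ) ≤ (B : ℝ) ^ (1 - δ) ∧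
        ε < dist b w P β T a) ≤ K3 (n * d) (2 * d * M) δ ε * (B : ℝ) ^ (-(δ / 48))) := by
  classical
  have hfam := famB b (G := fun p φ v => w p φ * if v ∈ P p φ then β p φ v else 0) (M := M) (Nat.cast_nonneg M) (by
    intro p hp φ v
    rw [abs_mul]
    have h1 : |if v ∈ P p φ then β p φ v else 0| ≤ M * p := by
      split_ifs with h
      · exact hβ p hp φ v h
      · rw [abs_zero]; positivity
    calc |w p φ| * |if v ∈ P p φ then β p φ v else 0| ≤ 1 * (M * p) :=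
          mul_le_mul (hw p φ) h1 (abs_nonneg _) (by norm_num)
      _ = _ := one_mul _)
  have hcard : Fintype.card (Fin n × Fin d) = n * d := by
    rw [Fintype.card_prod, Fintype.card_fin, Fintype.card_fin]
  unfold dist
  have hav := average_sub b w P β
  refine ⟨fun T₀ B hT₀ => share_le ?_, fun T₀ T₁ B ε hT₀ hT₁ hε => share_le ?_,
    fun B δ ε hδ hδ1 hε => share_le ?_⟩
  · have h := count1 hfam.fam T₀ B hT₀
    rw [hcard] at h
    convert h using 7
    rw [hav]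
  · have h := count2 hfam.fam T₀ T₁ B hT₀ hT₁ hε
    rw [hcard] at h
    convert h using 7
    rw [hav]
  · have h := count3 hfam hδ hδ1 hε B
    rw [hcard] at h
    convert h using 7
    rw [hav]

end Fa

end Pool.Agent.Helper25.FM
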