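import Pool.Agent.Helper25.FM.Ft

/-!
# Counting neighbours

Frequencies of prime order at most `K` have at most `2 + K ^ 2 / (4 B)` neighbours, if `K ≤ B`.
-/

set_option autoImplicit false

namespace Pool.Agent.Helper25.FM

open Finset

section Nbr

variable {M : ℕ} [NeZero M] {J : Type} [Fintype J] [DecidableEq J]

/-- Frequencies of prime order at most `K`. -/
def Ord (K : ℕ) (ν : J → ZMod M) : Prop :=
  ν ≠ 0 ∧ ∃ p : ℕ, p.Prime ∧ p ≤ K ∧ ∀ j, (p : ZMod M) * ν j = 0

open Classical in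
/-- The set of these frequencies. -/
noncomputable def SS (M : ℕ) [NeZero M] (J : Type) [Fintype J] [DecidableEq J] (K : ℕ) : Finset (J → ZMod M) :=
  univ.filter fun ν => Ord K ν

lemma val_bounds {B H p : ℕ} (hM : M = 8 * B * H) (hp0 : 0 < p) (hpB : p ≤ B) {x : ZMod M} (hx : x ≠ 0)
    (h : (p : ZMod M) * x = 0) : 8 * H ≤ x.val ∧ x.val + 8 * H ≤ M := by
  have hM0 : 0 < M := Nat.pos_of_ne_zero (NeZero.ne M)
  have hlt := ZMod.val_lt x
  have hx0 : 0 < x.val := by
    rw [Nat.pos_iff_ne_zero]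
    intro h0
    exact hx ((ZMod.val_eq_zero x).1 h0)
  have hdvd : M ∣ p * x.val := by
    rw [← ZMod.natCast_eq_zero_iff]
    push_cast
    rw [ZMod.natCast_zmod_val]
    exact h
  have h1 : M ≤ p * x.val := Nat.le_of_dvd (Nat.mul_pos hp0 hx0) hdvd
  have h2 : M ≤ p * (M - x.val) := by
    apply Nat.le_of_dvd (Nat.mul_pos hp0 (by omega))
    rw [Nat.mul_sub]
    exact Nat.dvd_sub (Dvd.intro_left p rfl) hdvd
  have hB0 : 0 < B := lt_of_lt_of_le hp0 hpB
  constructor
  · have h3 : B * (8 * H) ≤ B * x.val := by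
      calc B * (8 * H) = M := by rw [hM]; ring
        _ ≤ p * x.val := h1
        _ ≤ B * x.val := Nat.mul_le_mul_right _ hpB
    exact Nat.le_of_mul_le_mul_left h3 hB0
  · have h3 : B * (8 * H) ≤ B * (M - x.val) := by
      calc B * (8 * H) = M := by rw [hM]; ring
        _ ≤ p * (M - x.val) := h2
        _ ≤ B * (M - x.val) := Nat.mul_le_mul_right _ hpB
    have h4 := Nat.le_of_mul_le_mul_left h3 hB0
    omega

lemma near_val {B H p : ℕ} (hM : M = 8 * B * H) (hp0 : 0 < p) (hpB : p ≤ B) (hH : 1 ≤ H) {x x' : ZMod M}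
    (hx : x ≠ 0) (h : (p : ZMod M) * x = 0) {s : ℤ} (hs : |s| ≤ (H : ℤ)) (hxs : x - x' = (s : ZMod M)) :
    (x'.val : ℤ) = (x.val : ℤ) - s := by
  obtain ⟨h1, h2⟩ := val_bounds hM hp0 hpB hx h
  rw [abs_le] at hs
  have h3 : ((x'.val : ℤ) : ZMod M) = (((x.val : ℤ) - s : ℤ) : ZMod M) := by
    push_cast
    rw [ZMod.natCast_zmod_val, ZMod.natCast_zmod_val, ← hxs]
    ring
  rw [ZMod.intCast_eq_intCast_iff_dvd_sub] at h3
  have h4 := ZMod.val_lt x'
  have h5 := ZMod.val_lt x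
  have h6 : ((x.val : ℤ) - s) - (x'.val : ℤ) = 0 := by
    apply Int.eq_zero_of_abs_lt_dvd h3
    rw [abs_lt]
    constructor <;> omega
  omega

/-- The counting of the neighbours. -/
theorem card_near {B H K : ℕ} (hM : M = 8 * B * H) (hH : 1 ≤ H) (hKB : K ≤ B) {ν : J → ZMod M}
    (hν : Ord K ν) (S : Finset (J → ZMod M)) (hS : ∀ μ ∈ S, Ord K μ ∧ Near H (ν - μ)) :
    (S.card : ℝ) ≤ (K : ℝ) ^ 2 / (4 * B) + 2 := by
  classical
  obtain ⟨hν0, p, hp, hpK, hpν⟩ := hν
  obtain ⟨j0, hj0⟩ := Function.ne_iff.1 hν0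
  have hM0 : 0 < M := Nat.pos_of_ne_zero (NeZero.ne M)
  have hB0 : 0 < B := by
    rcases Nat.eq_zero_or_pos B with h | h
    · rw [h] at hM; omega
    · exact h
  have hB8 : 8 * H ≤ M := by
    rw [hM]
    nlinarith
  obtain ⟨y, hy⟩ : ∃ y, y = (ν j0).val := ⟨_, rfl⟩
  have hyb := val_bounds hM hp.pos (hpK.trans hKB) hj0 (hpν j0)
  rw [← hy] at hyb
  -- the values at `j0`
  have hval : ∀ μ ∈ S, (((μ j0).val : ℤ) - y) ≤ H ∧ ((y : ℤ) - (μ j0).val) ≤ H := by
    intro μ hμ
    obtain ⟨s, hs, hxs⟩ := (hS μ hμ).2 j0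
    have h1 := near_val hM hp.pos (hpK.trans hKB) hH hj0 (hpν j0) hs hxs
    rw [abs_le] at hs
    rw [← hy] at h1
    constructor <;> omega
  have hmaps : ∀ μ ∈ S, (μ j0).val * K ^ 2 / M ∈ Icc ((y - H) * K ^ 2 / M) ((y + H) * K ^ 2 / M) := by
    intro μ hμ
    obtain ⟨h1, h2⟩ := hval μ hμ
    rw [Finset.mem_Icc]
    constructor
    · exact Nat.div_le_div_right (Nat.mul_le_mul_right _ (by omega))
    · exact Nat.div_le_div_right (Nat.mul_le_mul_right _ (by omega))
  have hinj : Set.InjOn (fun μ : J → ZMod M => (μ j0).val * K ^ 2 / M) (S : Set (J → ZMod M)) := by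
    intro μ hμ μ' hμ' he
    rw [Finset.mem_coe] at hμ hμ'
    obtain ⟨⟨hμ0, q, hq, hqK, hqμ⟩, hn⟩ := hS μ hμ
    obtain ⟨⟨hμ0', q', hq', hqK', hqμ'⟩, hn'⟩ := hS μ' hμ'
    by_cases hqq : q = q'
    · subst hqq
      funext j
      obtain ⟨s, hs, hxs⟩ := hn j
      obtain ⟨s', hs', hxs'⟩ := hn' j
      have h1 : μ j - μ' j = ((s' - s : ℤ) : ZMod M) := by
        push_cast
        rw [← hxs, ← hxs', Pi.sub_apply, Pi.sub_apply]
        ring
      have h2 : (((q : ℤ) * (s' - s) : ℤ) : ZMod M) = 0 := by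
        rw [Int.cast_mul, ← h1, Int.cast_natCast, mul_sub, hqμ, hqμ', sub_zero]
      rw [ZMod.intCast_zmod_eq_zero_iff_dvd] at h2
      have h3 : (q : ℤ) * (s' - s) = 0 := by
        apply Int.eq_zero_of_abs_lt_dvd h2
        rw [abs_mul]
        rw [abs_le] at hs hs'
        have h4 : |s' - s| ≤ 2 * H := by rw [abs_le]; constructor <;> omega
        have h5 : |(q : ℤ)| ≤ B := by
          rw [abs_of_nonneg (by positivity)]
          exact_mod_cast hqK.trans hKB
        calc |(q : ℤ)| * |s' - s| ≤ B * (2 * H) := mul_le_mul h5 h4 (abs_nonneg _) (by positivity)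
          _ < M := by
            rw [hM]
            push_cast
            have : 0 < (B : ℤ) * H := by positivity
            nlinarith
      rcases mul_eq_zero.1 h3 with h6 | h6
      · exact absurd (by exact_mod_cast h6) hq.ne_zero
      · rw [h6, Int.cast_zero, sub_eq_zero] at h1
        exact h1
    · exfalso
      obtain ⟨a, ha⟩ : ∃ a, a = (μ j0).val := ⟨_, rfl⟩
      obtain ⟨a', ha'⟩ : ∃ a', a' = (μ' j0).val := ⟨_, rfl⟩
      have he' : a * K ^ 2 / M = a' * K ^ 2 / M := by rw [ha, ha']; exact he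
      have hv := hval μ hμ
      have hv' := hval μ' hμ'
      rw [← ha] at hv
      rw [← ha'] at hv'
      have hd : M ∣ q * a := by
        rw [← ZMod.natCast_eq_zero_iff]
        push_cast
        rw [ha, ZMod.natCast_zmod_val]
        exact hqμ j0
      have hd' : M ∣ q' * a' := by
        rw [← ZMod.natCast_eq_zero_iff]
        push_cast
        rw [ha', ZMod.natCast_zmod_val]
        exact hqμ' j0
      have haM : a < M := by rw [ha]; exact ZMod.val_lt _
      have hcop : Nat.gcd q q' = 1 := (Nat.coprime_primes hq hq').2 hqq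
      by_cases haa : a = a'
      · have h1 : M ∣ a := by
          have h2 := Nat.dvd_gcd hd (haa ▸ hd')
          rwa [Nat.gcd_mul_right, hcop, one_mul] at h2
        have h3 : 0 < a := by omega
        exact absurd (Nat.le_of_dvd h3 h1) (by omega)
      · have h1 : (M : ℤ) ∣ (q * q' : ℤ) * ((a : ℤ) - a') := by
          have e1 : (M : ℤ) ∣ ((q * a : ℕ) : ℤ) := by exact_mod_cast hd
          have e2 : (M : ℤ) ∣ ((q' * a' : ℕ) : ℤ) := by exact_mod_cast hd'
          have e3 := dvd_sub (e1.mul_left (q' : ℤ)) (e2.mul_left (q : ℤ))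
          have e4 : (q' : ℤ) * ((q * a : ℕ) : ℤ) - (q : ℤ) * ((q' * a' : ℕ) : ℤ) =
              (q * q' : ℤ) * ((a : ℤ) - a') := by push_cast; ring
          rwa [e4] at e3
        have h2 : (q * q' : ℤ) * ((a : ℤ) - a') = 0 := by
          apply Int.eq_zero_of_abs_lt_dvd h1
          rw [abs_mul]
          have h3 : |(q * q' : ℤ)| ≤ (K : ℤ) ^ 2 := by
            rw [abs_of_nonneg (by positivity), sq]
            exact mul_le_mul (by exact_mod_cast hqK) (by exact_mod_cast hqK') (by positivity) (by positivity)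
          have h4 : (K : ℤ) ^ 2 * |(a : ℤ) - a'| < M := by
            have e1 := Nat.div_add_mod (a * K ^ 2) M
            have e2 := Nat.div_add_mod (a' * K ^ 2) M
            have e3 := Nat.mod_lt (a * K ^ 2) hM0
            have e4 := Nat.mod_lt (a' * K ^ 2) hM0
            rw [he'] at e1
            have e5 : ((a : ℤ) - a') * (K : ℤ) ^ 2 = ((a * K ^ 2 % M : ℕ) : ℤ) - ((a' * K ^ 2 % M : ℕ) : ℤ) := by
              have f1 : ((a * K ^ 2 : ℕ) : ℤ) = ((M * (a' * K ^ 2 / M) + a * K ^ 2 % M : ℕ) : ℤ) := by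
                rw [e1]
              have f2 : ((a' * K ^ 2 : ℕ) : ℤ) = ((M * (a' * K ^ 2 / M) + a' * K ^ 2 % M : ℕ) : ℤ) := by
                rw [e2]
              push_cast at f1 f2 ⊢
              linear_combination f1 - f2
            have e6 : (K : ℤ) ^ 2 * |(a : ℤ) - a'| = |((a : ℤ) - a') * (K : ℤ) ^ 2| := by
              rw [abs_mul, abs_of_nonneg (by positivity : (0 : ℤ) ≤ (K : ℤ) ^ 2), mul_comm]
            rw [e6, e5, abs_lt]
            constructor <;> omega
          exact lt_of_le_of_lt (mul_le_mul_of_nonneg_right h3 (abs_nonneg _)) h4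
        rcases mul_eq_zero.1 h2 with h5 | h5
        · rcases mul_eq_zero.1 h5 with h6 | h6
          · exact absurd (by exact_mod_cast h6) hq.ne_zero
          · exact absurd (by exact_mod_cast h6) hq'.ne_zero
        · omega
  have hcard := Finset.card_le_card_of_injOn (fun μ : J → ZMod M => (μ j0).val * K ^ 2 / M) hmaps hinj
  rw [Nat.card_Icc] at hcard
  have h1 : (S.card : ℝ) ≤ (((y + H) * K ^ 2 / M : ℕ) : ℝ) + 1 - (((y - H) * K ^ 2 / M : ℕ) : ℝ) := by
    have h2 : (y - H) * K ^ 2 / M ≤ (y + H) * K ^ 2 / M :=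
      Nat.div_le_div_right (Nat.mul_le_mul_right _ (by omega))
    have h3 : ((S.card : ℕ) : ℝ) ≤ (((y + H) * K ^ 2 / M + 1 - (y - H) * K ^ 2 / M : ℕ) : ℝ) := by
      exact_mod_cast hcard
    rw [Nat.cast_sub (by omega)] at h3
    push_cast at h3 ⊢
    exact h3
  have hMr : (0 : ℝ) < M := by exact_mod_cast hM0
  have h2 : (((y + H) * K ^ 2 / M : ℕ) : ℝ) ≤ (((y + H) * K ^ 2 : ℕ) : ℝ) / M := Nat.cast_div_le
  have h3 : (((y - H) * K ^ 2 : ℕ) : ℝ) / M < (((y - H) * K ^ 2 / M : ℕ) : ℝ) + 1 := by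
    rw [div_lt_iff₀ hMr]
    have e1 := Nat.div_add_mod ((y - H) * K ^ 2) M
    have e2 := Nat.mod_lt ((y - H) * K ^ 2) hM0
    have e3 : (y - H) * K ^ 2 < ((y - H) * K ^ 2 / M + 1) * M := by
      nlinarith
    exact_mod_cast e3
  have h4 : (((y + H) * K ^ 2 : ℕ) : ℝ) / M - (((y - H) * K ^ 2 : ℕ) : ℝ) / M = (K : ℝ) ^ 2 / (4 * B) := by
    have hBr : (0 : ℝ) < B := by exact_mod_cast hB0
    have hHr : (0 : ℝ) < H := by exact_mod_cast hH
    have hyH : H ≤ y := by omega
    push_cast [Nat.cast_sub hyH]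
    rw [hM]
    push_cast
    field_simp
    ring
  linarith

end Nbr

end Pool.Agent.Helper25.FM
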