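import Pool.Agent.Helper25.FM.Nbr
import Pool.Agent.Helper29.TT.Gen

/-!
# The second moment on a box for primes up to the side of the box

`sm`: for functions `t p` modulo `p` with mean zero the sum over the box `[-B, B] ^ J` of the square
of `∑ c p * t p`, `p ≤ K`, `K ≤ B`, is at most `8 ^ J (2 + K ^ 2 / (4 B))` times the sum for
independent variables.
-/

set_option autoImplicit false

namespace Pool.Agent.Helper25.FM

open Finset
open Pool.Agent.Helper29.TT

section Sm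

variable {J : Type} [Fintype J] [DecidableEq J] {t : ℕ → (J → ℤ) → ℝ} {A C : ℝ}

lemma ft_sum {M : ℕ} [NeZero M] (P : Finset ℕ) (c : ℕ → ℝ) (u : ℕ → (J → ZMod M) → ℝ) (ν : J → ZMod M) :
    ft (fun a => ∑ p ∈ P, c p * u p a) ν = ∑ p ∈ P, (c p : ℂ) * ft (u p) ν := by
  unfold ft
  simp_rw [Finset.mul_sum]
  rw [Finset.sum_comm]
  refine Finset.sum_congr rfl fun a _ => ?_
  push_cast
  rw [Finset.sum_mul]
  refine Finset.sum_congr rfl fun p _ => ?_
  ring

lemma ft_ord (ht : Fam t A 0) {p M K : ℕ} [Fact p.Prime] [NeZero M] (h : p ∣ M) (hpK : p ≤ K) {ν : J → ZMod M}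
    (hν : ft (fun a => t p (upJ a)) ν ≠ 0) : Ord K ν := by
  obtain ⟨f, hf, _, hf3⟩ := ht.f p
  have hf0 : ∑ u, f u = 0 := by
    have h1 : |∑ u, f u| ≤ 0 := by simpa using hf3
    exact abs_nonpos_iff.1 h1
  have hM : (0 : ℝ) < M := by exact_mod_cast Nat.pos_of_ne_zero (NeZero.ne M)
  have hM0 : 0 < M := Nat.pos_of_ne_zero (NeZero.ne M)
  refine ⟨?_, p, Fact.out, hpK, ?_⟩
  · rintro rfl
    apply hν
    unfold ft
    have h1 : ∀ a : J → ZMod M, ((t p (upJ a) : ℝ) : ℂ) * ee (-0) a =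
        ((WW 0 a * f fun j => ZMod.castHom h (ZMod p) (a j) : ℝ) : ℂ) := by
      intro a
      rw [neg_zero, ee_zero, mul_one, up_f h hf]
      have h2 : WW 0 a = 1 := by
        unfold WW
        refine Finset.prod_eq_one fun j _ => ?_
        unfold ker kerC
        simp
      rw [h2, one_mul]
    rw [Finset.sum_congr rfl fun a _ => h1 a, ← Complex.ofReal_sum,
      single_sum h (by simpa using hM0) f, hf0, mul_zero, Complex.ofReal_zero]
  · intro j
    have h1 : ft (fun a => t p (upJ a)) ν =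
        ft (fun a => t p (upJ a)) ν * ee (-ν) (Pi.single j (p : ZMod M)) := by
      conv_lhs => unfold ft
      rw [← Equiv.sum_comp (Equiv.addRight (Pi.single j (p : ZMod M)))]
      unfold ft
      rw [Finset.sum_mul]
      refine Finset.sum_congr rfl fun a _ => ?_
      rw [Equiv.coe_addRight, ee_comm (-ν) (a + _), ee_add, ee_comm a, ee_comm (Pi.single j (p : ZMod M))]
      have h2 : t p (upJ (a + Pi.single j (p : ZMod M))) = t p (upJ a) := by
        rw [up_f h hf, up_f h hf]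
        congr 1
        funext i
        rw [Pi.add_apply, map_add]
        by_cases hi : i = j
        · subst hi
          rw [Pi.single_eq_same, map_natCast]
          simp
        · rw [Pi.single_eq_of_ne hi, map_zero, add_zero]
      show ((t p (upJ (a + Pi.single j (p : ZMod M))) : ℝ) : ℂ) * _ = ((t p (upJ a) : ℝ) : ℂ) * _ * _
      rw [h2, mul_assoc]
    have h2 : ee (-ν) (Pi.single j (p : ZMod M)) = 1 := by
      have h3 : ft (fun a => t p (upJ a)) ν * (ee (-ν) (Pi.single j (p : ZMod M)) - 1) = 0 := by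
        rw [mul_sub, ← h1, mul_one, sub_self]
      rcases mul_eq_zero.1 h3 with h4 | h4
      · exact absurd h4 hν
      · exact sub_eq_zero.1 h4
    have h3 : ee (-ν) (Pi.single j (p : ZMod M)) = (ZMod.stdAddChar (-(ν j * (p : ZMod M))) : ℂ) := by
      unfold ee
      congr 1
      rw [Finset.sum_eq_single j]
      · rw [Pi.single_eq_same, Pi.neg_apply, neg_mul]
      · intro i _ hi
        rw [Pi.single_eq_of_ne hi, mul_zero]
      · intro h; exact absurd (Finset.mem_univ _) h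
    rw [h3] at h2
    have h4 : -(ν j * (p : ZMod M)) = 0 := by
      apply ZMod.injective_stdAddChar
      rw [h2, AddChar.map_zero_eq_one]
    rw [mul_comm]
    exact neg_eq_zero.1 h4

/-- The second moment for functions with mean zero, `K ≤ B`. -/
theorem sm (ht : Fam t A 0) (K B : ℕ) (hK : 1 ≤ K) (hKB : K ≤ B)
    (P : Finset ℕ) (hP : ∀ p ∈ P, p.Prime ∧ p ≤ K) (c : ℕ → ℝ) :
    ∑ a ∈ boxJ J B, (∑ p ∈ P, c p * t p a) ^ 2 ≤
      8 ^ Fintype.card J * (boxJ J B).card * (((K : ℝ) ^ 2 / (4 * B) + 2) * (A * ∑ p ∈ P, c p ^ 2)) := by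
  classical
  have hB : 1 ≤ B := le_trans hK hKB
  obtain ⟨H, hH0, hHd⟩ : ∃ H : ℕ, 1 ≤ H ∧ ∀ p ∈ P, p ∣ H :=
    ⟨Nat.factorial K, Nat.factorial_pos K,
      fun p hp => Nat.dvd_factorial (hP p hp).1.pos (hP p hp).2⟩
  obtain ⟨M, hM⟩ : ∃ M : ℕ, M = 8 * B * H := ⟨_, rfl⟩
  have hM0 : 0 < M := by rw [hM]; positivity
  have : NeZero M := ⟨hM0.ne'⟩
  have hdvd : ∀ p ∈ P, p ∣ M := by
    intro p hp
    rw [hM]
    exact Dvd.dvd.mul_left (hHd p hp) _
  have h1 := boxJ_le (M := M) H (J := J) (B := B) (by rw [hM]; nlinarith) (by rw [hM]; nlinarith)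
    (fun a => (∑ p ∈ P, c p * t p (upJ a)) ^ 2) (fun a => sq_nonneg _)
  have h2 : ∑ a ∈ boxJ J B, (∑ p ∈ P, c p * t p a) ^ 2 =
      ∑ a ∈ boxJ J B, (∑ p ∈ P, c p * t p (upJ fun m => ((a m : ℤ) : ZMod M))) ^ 2 := by
    refine Finset.sum_congr rfl fun a _ => ?_
    congr 1
    refine Finset.sum_congr rfl fun p hp => ?_
    have : Fact p.Prime := ⟨(hP p hp).1⟩
    obtain ⟨f, hf, _⟩ := ht.f p
    rw [up_int (hdvd p hp) hf]
  rw [h2]
  refine h1.trans ?_
  -- the unweighted sum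
  have h3 : ∑ a : J → ZMod M, (∑ p ∈ P, c p * t p (upJ a)) ^ 2 ≤
      (M : ℝ) ^ Fintype.card J * (A * ∑ p ∈ P, c p ^ 2) := by
    have hW0 : ∀ a : J → ZMod M, WW 0 a = 1 := by
      intro a
      unfold WW
      refine Finset.prod_eq_one fun j _ => ?_
      unfold ker kerC
      simp
    have e1 := swapJ (t := t) (M := M) 0 P c
    simp_rw [hW0, one_mul] at e1
    rw [e1]
    have e2 := quadA (A := A) P c (fun _ => 0) (SJ t M 0) ((M : ℝ) ^ Fintype.card J) (by positivity)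
      (fun _ _ => le_rfl) (by
        intro p hp
        have hpp : Fact p.Prime := ⟨(hP p hp).1⟩
        have := diagJ ht (H := 0) (hdvd p hp) (by simpa using hM0)
        simpa using this)
      (by
        intro p hp q hq hpq
        have hpp : Fact p.Prime := ⟨(hP p hp).1⟩
        have hqq : Fact q.Prime := ⟨(hP q hq).1⟩
        have := offdiagJ ht hpq (H := 0) (hdvd p hp) (hdvd q hq) (by simpa using hM0)
        simpa using this)
    refine e2.trans (le_of_eq ?_)
    simp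
  -- the large sieve
  have h4 := ls (H := H) (M := M) (J := J) (by rw [hM]; nlinarith)
    (fun a => ∑ p ∈ P, c p * t p (upJ a)) (SS M J K) (by
      intro ν hν
      rw [ft_sum P c (fun p a => t p (upJ a)) ν] at hν
      obtain ⟨p, hp, hpν⟩ := Finset.exists_ne_zero_of_sum_ne_zero hν
      have hpp : Fact p.Prime := ⟨(hP p hp).1⟩
      unfold SS
      rw [Finset.mem_filter]
      exact ⟨Finset.mem_univ _, ft_ord ht (hdvd p hp) (hP p hp).2 (right_ne_zero_of_mul hpν)⟩)
    (N := (K : ℝ) ^ 2 / (4 * B) + 2) (by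
      intro ν hν
      unfold SS at hν
      refine card_near hM hH0 hKB (Finset.mem_filter.1 hν).2 _ fun μ hμ => ?_
      obtain ⟨hμ1, hμ2⟩ := Finset.mem_filter.1 hμ
      unfold SS at hμ1
      exact ⟨(Finset.mem_filter.1 hμ1).2, hμ2⟩)
  have hN0 : (0 : ℝ) ≤ (K : ℝ) ^ 2 / (4 * B) + 2 := by positivity
  have hA := ht.A_nonneg
  obtain ⟨R, hR⟩ : ∃ R : ℝ, R = ((K : ℝ) ^ 2 / (4 * B) + 2) * (A * ∑ p ∈ P, c p ^ 2) := ⟨_, rfl⟩
  have hR0 : 0 ≤ R := by
    rw [hR]
    exact mul_nonneg hN0 (mul_nonneg hA (Finset.sum_nonneg fun p _ => sq_nonneg _))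
  have h5 : ∑ a : J → ZMod M, WW H a * (∑ p ∈ P, c p * t p (upJ a)) ^ 2 ≤
      (((H : ℝ) + 1) * M) ^ Fintype.card J * R := by
    refine h4.trans ?_
    calc ((H : ℝ) + 1) ^ Fintype.card J * ((K : ℝ) ^ 2 / (4 * B) + 2) *
          ∑ a : J → ZMod M, (∑ p ∈ P, c p * t p (upJ a)) ^ 2 ≤
        ((H : ℝ) + 1) ^ Fintype.card J * ((K : ℝ) ^ 2 / (4 * B) + 2) *
          ((M : ℝ) ^ Fintype.card J * (A * ∑ p ∈ P, c p ^ 2)) :=
          mul_le_mul_of_nonneg_left h3 (by positivity)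
      _ = _ := by rw [hR, mul_pow]; ring
  have hH' : (0 : ℝ) ≤ H := Nat.cast_nonneg _
  have hB' : (0 : ℝ) ≤ B := Nat.cast_nonneg _
  have hM' : (M : ℝ) = 8 * B * H := by rw [hM]; push_cast; ring
  have h7 : (0 : ℝ) ≤ (2 / ((H : ℝ) + 1) ^ 2) ^ Fintype.card J :=
    pow_nonneg (div_nonneg (by norm_num) (sq_nonneg _)) _
  refine (mul_le_mul_of_nonneg_left h5 h7).trans ?_
  rw [card_boxJ, ← hR]
  exact final_auxJ hH' hB' hM' hR0

end Sm

end Pool.Agent.Helper25.FM
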